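import Mathlib
import Pool.Agent.Helper477.Circle

set_option autoImplicit false

open MeasureTheory Set Metric Real
open Pool.Agent.Helper477.Circle

namespace Pool.Agent.H891R3.CutK

/-- Cartesian coordinates. -/
noncomputable def co (x : E) : ℝ × ℝ := (x 0, x 1)

lemma mp_co : MeasurePreserving co volume volume := by
  have h1 := PiLp.volume_preserving_ofLp (Fin 2)
  have h2 := MeasureTheory.volume_preserving_finTwoArrow ℝ
  exact h2.comp h1

/-- Angular measure of the region on the circle of radius `r`. -/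
noncomputable def ang (a b V r : ℝ) : ENNReal :=
  volume {θ : ℝ | θ ∈ Ioo (-π) π ∧ a * r ^ 2 + b < V * (r * cos θ)}

/-- The region in Cartesian coordinates. -/
def WW (a b V : ℝ) (J : Set ℝ) : Set (ℝ × ℝ) :=
  {p | √(p.1 ^ 2 + p.2 ^ 2) ∈ J ∧ a * (p.1 ^ 2 + p.2 ^ 2) + b < V * p.1}

lemma meas_WW (a b V : ℝ) {J : Set ℝ} (hJ : MeasurableSet J) : MeasurableSet (WW a b V J) := by
  apply MeasurableSet.inter
  · exact (by fun_prop : Measurable (fun p : ℝ × ℝ => √(p.1 ^ 2 + p.2 ^ 2))) hJ
  · exact measurableSet_lt (f := fun p : ℝ × ℝ => a * (p.1 ^ 2 + p.2 ^ 2) + b)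
      (g := fun p : ℝ × ℝ => V * p.1) (by fun_prop) (by fun_prop)

lemma pre_WW (a b V : ℝ) (J : Set ℝ) :
    Rad J ∩ Reg a b (V • e0) = co ⁻¹' WW a b V J := by
  ext x
  have h := norm_sq x
  have h2 : ‖x‖ = √(x 0 ^ 2 + x 1 ^ 2) := by
    rw [← h, Real.sqrt_sq (norm_nonneg x)]
  simp only [Rad, Reg, WW, co, mem_inter_iff, mem_ofPred_eq, mem_preimage, inner_smul_right,
    inner_e0]
  rw [← h2, h]

lemma meas_ang (a b V : ℝ) : Measurable (ang a b V) := by
  have hs : MeasurableSet {p : ℝ × ℝ | p.2 ∈ Ioo (-π) π ∧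
      a * p.1 ^ 2 + b < V * (p.1 * cos p.2)} := by
    apply MeasurableSet.inter
    · exact measurable_snd measurableSet_Ioo
    · exact measurableSet_lt (f := fun p : ℝ × ℝ => a * p.1 ^ 2 + b)
        (g := fun p : ℝ × ℝ => V * (p.1 * cos p.2)) (by fun_prop) (by fun_prop)
  exact measurable_measure_prodMk_left hs

lemma polar (a b V : ℝ) (J : Set ℝ) (hJ : MeasurableSet J) (hJ0 : J ⊆ Ioi 0) :
    volume (Rad J ∩ Reg a b (V • e0)) = ∫⁻ r in J, ENNReal.ofReal r * ang a b V r := by
  have hW := meas_WW a b V hJ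
  rw [pre_WW, mp_co.measure_preimage hW.nullMeasurableSet, ← lintegral_indicator_one hW,
    ← lintegral_comp_polarCoord_symm, polarCoord_target, Measure.volume_eq_prod,
    ← Measure.prod_restrict, lintegral_prod]
  · have hin : ∀ r ∈ Ioi (0 : ℝ), (∫⁻ θ in Ioo (-π) π, ENNReal.ofReal r •
        (WW a b V J).indicator 1 (polarCoord.symm (r, θ))) =
        J.indicator (fun r => ENNReal.ofReal r * ang a b V r) r := by
      intro r hr
      have hr0 : (0 : ℝ) < r := hr
      have hp : ∀ θ : ℝ, (polarCoord.symm (r, θ)) ∈ WW a b V J ↔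
          r ∈ J ∧ a * r ^ 2 + b < V * (r * cos θ) := by
        intro θ
        have e : (r * cos θ) ^ 2 + (r * sin θ) ^ 2 = r ^ 2 := by
          nlinarith [Real.sin_sq_add_cos_sq θ]
        simp only [WW, polarCoord_symm_apply, mem_ofPred_eq]
        rw [e, Real.sqrt_sq hr0.le]
      by_cases hrJ : r ∈ J
      · rw [indicator_of_mem hrJ, ang]
        simp only [smul_eq_mul]
        rw [lintegral_const_mul']
        · congr 1
          have h3 : ∀ θ : ℝ, (WW a b V J).indicator (1 : ℝ × ℝ → ENNReal) (polarCoord.symm (r, θ)) =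
              {θ : ℝ | a * r ^ 2 + b < V * (r * cos θ)}.indicator 1 θ := by
            intro θ
            by_cases hq : a * r ^ 2 + b < V * (r * cos θ)
            · rw [indicator_of_mem ((hp θ).2 ⟨hrJ, hq⟩), indicator_of_mem (by exact hq)]
              rfl
            · rw [indicator_of_notMem (fun h => hq ((hp θ).1 h).2),
                indicator_of_notMem (by exact hq)]
          simp only [h3]
          rw [lintegral_indicator_one]
          · rw [Measure.restrict_apply]
            · congr 1
              ext θ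
              simp only [mem_inter_iff, mem_ofPred_eq]
              tauto
            · exact measurableSet_lt (by fun_prop) (by fun_prop)
          · exact measurableSet_lt (by fun_prop) (by fun_prop)
        · exact ENNReal.ofReal_ne_top
      · rw [indicator_of_notMem hrJ]
        have h3 : ∀ θ : ℝ, (WW a b V J).indicator (1 : ℝ × ℝ → ENNReal) (polarCoord.symm (r, θ)) =
            0 := by
          intro θ
          exact indicator_of_notMem (fun h => hrJ ((hp θ).1 h).1) _
        simp only [h3, smul_zero, lintegral_zero]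
    rw [setLIntegral_congr_fun measurableSet_Ioi hin, lintegral_indicator hJ,
      Measure.restrict_restrict hJ, inter_eq_left.2 hJ0]
  · apply Measurable.aemeasurable
    have m1 : Measurable (fun p : ℝ × ℝ => ENNReal.ofReal p.1) := by fun_prop
    have m2 : Measurable (fun p : ℝ × ℝ => (WW a b V J).indicator (1 : ℝ × ℝ → ENNReal)
        (polarCoord.symm p)) :=
      (measurable_one.indicator hW).comp continuous_polarCoord_symm.measurable
    exact m1.mul m2

lemma vol_Rad (J : Set ℝ) (hJ : MeasurableSet J) (hJ0 : J ⊆ Ioi 0) :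
    volume (Rad J) = ∫⁻ r in J, ENNReal.ofReal r * ENNReal.ofReal (2 * π) := by
  have h := polar 0 (-1) 0 J hJ hJ0
  have h1 : Rad J ∩ Reg 0 (-1) ((0 : ℝ) • e0) = Rad J := by
    apply inter_eq_left.2
    intro x _
    simp [Reg]
  rw [h1] at h
  rw [h]
  have h2 : ∀ r, ang 0 (-1) 0 r = ENNReal.ofReal (2 * π) := by
    intro r
    have : {θ : ℝ | θ ∈ Ioo (-π) π ∧ 0 * r ^ 2 + (-1 : ℝ) < 0 * (r * cos θ)} = Ioo (-π) π := by
      ext θ
      simp
    rw [ang, this, Real.volume_Ioo]
    congr 1
    ring
  simp only [h2]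

end Pool.Agent.H891R3.CutK
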