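import Mathlib
import Pool.Agent.H891R3.CutK1

set_option autoImplicit false

open MeasureTheory Set Metric Real
open Pool.Agent.Helper477.Circle

namespace Pool.Agent.H891R3.CutK

lemma ang_gt {a b V r B : ℝ} (hB0 : 0 ≤ B) (hBπ : B < π) (hV : 0 ≤ V) (hr : 0 ≤ r)
    (h : a * r ^ 2 + b < V * (r * cos B)) : ENNReal.ofReal (2 * B) < ang a b V r := by
  have hopen : IsOpen {θ : ℝ | a * r ^ 2 + b < V * (r * cos θ)} :=
    isOpen_lt (by fun_prop) (by fun_prop)
  obtain ⟨δ, hδ, hball⟩ := Metric.isOpen_iff.1 hopen B h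
  set ε : ℝ := min (δ / 2) ((π - B) / 2) with hε
  have hε0 : 0 < ε := lt_min (by linarith) (by linarith)
  have hεδ : ε < δ := lt_of_le_of_lt (min_le_left _ _) (by linarith)
  have hεπ : B + ε < π := by
    have : ε ≤ (π - B) / 2 := min_le_right _ _
    linarith
  have hmem : a * r ^ 2 + b < V * (r * cos (B + ε)) := by
    apply hball
    rw [mem_ball, Real.dist_eq]
    rw [show B + ε - B = ε by ring, abs_of_pos hε0]
    exact hεδ
  have hsub : Ioo (-(B + ε)) (B + ε) ⊆
      {θ : ℝ | θ ∈ Ioo (-π) π ∧ a * r ^ 2 + b < V * (r * cos θ)} := by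
    intro θ hθ
    refine ⟨⟨by linarith [hθ.1], by linarith [hθ.2]⟩, ?_⟩
    have habs : |θ| ≤ B + ε := abs_le.2 ⟨hθ.1.le, hθ.2.le⟩
    have hcos : cos (B + ε) ≤ cos θ := by
      rw [← Real.cos_abs θ]
      exact Real.cos_le_cos_of_nonneg_of_le_pi (abs_nonneg θ) hεπ.le habs
    exact lt_of_lt_of_le hmem (mul_le_mul_of_nonneg_left
      (mul_le_mul_of_nonneg_left hcos hr) hV)
  calc ENNReal.ofReal (2 * B) < ENNReal.ofReal (2 * (B + ε)) := by
        rw [ENNReal.ofReal_lt_ofReal_iff (by linarith)]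
        linarith
    _ = volume (Ioo (-(B + ε)) (B + ε)) := by
        rw [Real.volume_Ioo]; congr 1; ring
    _ ≤ ang a b V r := measure_mono hsub

lemma ang_le_two_pi (a b V r : ℝ) : ang a b V r ≤ ENNReal.ofReal (2 * π) := by
  have h : volume (Ioo (-π) π) = ENNReal.ofReal (2 * π) := by
    rw [Real.volume_Ioo]; congr 1; ring
  rw [← h]
  exact measure_mono fun θ hθ => hθ.1

lemma ang_le {a b V r B : ℝ} (hB0 : 0 ≤ B) (hV : 0 ≤ V) (hr : 0 ≤ r)
    (h : B ≤ π → V * (r * cos B) ≤ a * r ^ 2 + b) : ang a b V r ≤ ENNReal.ofReal (2 * B) := by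
  by_cases hBπ : B ≤ π
  · have hsub : {θ : ℝ | θ ∈ Ioo (-π) π ∧ a * r ^ 2 + b < V * (r * cos θ)} ⊆ Ioo (-B) B := by
      rintro θ ⟨hθ, h1⟩
      by_contra hcon
      have habs : B ≤ |θ| := by
        by_contra h2
        push Not at h2
        exact hcon (abs_lt.1 h2)
      have hπ : |θ| ≤ π := abs_le.2 ⟨hθ.1.le, hθ.2.le⟩
      have hcos : cos θ ≤ cos B := by
        rw [← Real.cos_abs θ]
        exact Real.cos_le_cos_of_nonneg_of_le_pi hB0 hπ habs
      have := mul_le_mul_of_nonneg_left (mul_le_mul_of_nonneg_left hcos hr) hV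
      linarith [h hBπ]
    calc ang a b V r ≤ volume (Ioo (-B) B) := measure_mono hsub
      _ = ENNReal.ofReal (2 * B) := by rw [Real.volume_Ioo]; congr 1; ring
  · push Not at hBπ
    exact (ang_le_two_pi a b V r).trans (ENNReal.ofReal_le_ofReal (by linarith))

/-- First set: some radius at which the region covers at most the fraction `1 / k`. -/
lemma exists_rho {k : ℕ} (hk : 2 ≤ k) {a b V η : ℝ} (hV : 0 ≤ V) (hη : 0 < η)
    (h : volume (Rad (Icc 1 (1 + η)) ∩ Reg a b (V • e0)) = volume (Rad (Icc 1 (1 + η))) / k) :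
    ∃ ρ ∈ Icc 1 (1 + η), V * (ρ * cos (π / k)) ≤ a * ρ ^ 2 + b := by
  by_contra hcon
  push Not at hcon
  have hk0 : (0 : ℝ) < k := by
    have : 0 < k := by omega
    exact_mod_cast this
  have hJ0 : Icc (1 : ℝ) (1 + η) ⊆ Ioi 0 := fun r hr => lt_of_lt_of_le one_pos hr.1
  rw [polar a b V _ measurableSet_Icc hJ0, vol_Rad _ measurableSet_Icc hJ0] at h
  have hB0 : 0 ≤ π / k := by positivity
  have hBπ : π / k < π := by
    have h2 : (2 : ℝ) ≤ k := by exact_mod_cast hk
    rw [div_lt_iff₀ hk0]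
    nlinarith [Real.pi_pos]
  have hfin : ∫⁻ r in Icc (1 : ℝ) (1 + η), ENNReal.ofReal r * ENNReal.ofReal (2 * (π / k)) ≠ ⊤ := by
    have h1 : ∫⁻ r in Icc (1 : ℝ) (1 + η), ENNReal.ofReal r * ENNReal.ofReal (2 * (π / k)) ≤
        ∫⁻ r in Icc (1 : ℝ) (1 + η), ENNReal.ofReal (1 + η) * ENNReal.ofReal (2 * (π / k)) := by
      apply setLIntegral_mono' measurableSet_Icc
      intro r hr
      gcongr
      exact hr.2
    refine ne_top_of_le_ne_top ?_ h1
    rw [setLIntegral_const, Real.volume_Icc]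
    exact ENNReal.mul_ne_top (ENNReal.mul_ne_top ENNReal.ofReal_ne_top ENNReal.ofReal_ne_top)
      ENNReal.ofReal_ne_top
  have hdiv : (∫⁻ r in Icc (1 : ℝ) (1 + η), ENNReal.ofReal r * ENNReal.ofReal (2 * π)) / k =
      ∫⁻ r in Icc (1 : ℝ) (1 + η), ENNReal.ofReal r * ENNReal.ofReal (2 * (π / k)) := by
    have h1 : ∀ r : ℝ, ENNReal.ofReal r * ENNReal.ofReal (2 * π) =
        (k : ENNReal) * (ENNReal.ofReal r * ENNReal.ofReal (2 * (π / k))) := by
      intro r
      have h2 : (k : ENNReal) = ENNReal.ofReal k := by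
        rw [ENNReal.ofReal_natCast]
      rw [h2, mul_left_comm, ← ENNReal.ofReal_mul hk0.le]
      congr 2
      field_simp
    simp only [h1]
    rw [lintegral_const_mul' _ _ (ENNReal.natCast_ne_top k)]
    rw [mul_comm, ENNReal.mul_div_cancel_right]
    · have : k ≠ 0 := by omega
      exact_mod_cast this
    · exact ENNReal.natCast_ne_top k
  rw [hdiv] at h
  have hlt : ∫⁻ r in Icc (1 : ℝ) (1 + η), ENNReal.ofReal r * ENNReal.ofReal (2 * (π / k)) <
      ∫⁻ r in Icc (1 : ℝ) (1 + η), ENNReal.ofReal r * ang a b V r := by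
    apply lintegral_strict_mono
    · intro h0
      have h1 : (volume.restrict (Icc (1 : ℝ) (1 + η))) univ = 0 := by rw [h0]; simp
      rw [Measure.restrict_apply_univ, Real.volume_Icc] at h1
      have : ENNReal.ofReal (1 + η - 1) ≠ 0 := by
        rw [ENNReal.ofReal_ne_zero_iff]; linarith
      exact this h1
    · have := meas_ang a b V
      exact (Measurable.mul (by fun_prop) this).aemeasurable
    · exact hfin
    · refine (ae_restrict_iff' measurableSet_Icc).2 (Filter.Eventually.of_forall ?_)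
      intro r hr
      have hr0 : 0 < r := lt_of_lt_of_le one_pos hr.1
      have h1 := ang_gt hB0 hBπ hV hr0.le (hcon r hr)
      exact (ENNReal.mul_lt_mul_iff_right (by
        rw [ENNReal.ofReal_ne_zero_iff]; exact hr0) ENNReal.ofReal_ne_top).2 h1
  rw [h] at hlt
  exact lt_irrefl _ hlt

/-- Tangent line inequality. -/
lemma cos_tangent {θ₀ y : ℝ} (h0 : 0 < θ₀) (h1 : θ₀ ≤ π / 4) (hy0 : 0 ≤ y) (hyπ : y ≤ π) :
    cos y ≤ cos θ₀ - sin θ₀ * (y - θ₀) := by
  have hπ := Real.pi_pos
  set g : ℝ → ℝ := fun y => cos θ₀ - sin θ₀ * (y - θ₀) - cos y with hg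
  have hd : ∀ y, HasDerivAt g (-sin θ₀ + sin y) y := by
    intro y
    have e1 : HasDerivAt (fun y : ℝ => cos θ₀ - sin θ₀ * (y - θ₀)) (-(sin θ₀ * 1)) y := by
      exact (((hasDerivAt_id y).sub_const θ₀).const_mul (sin θ₀)).const_sub (cos θ₀)
    have e2 : HasDerivAt g (-(sin θ₀ * 1) - (-sin y)) y := e1.sub (Real.hasDerivAt_cos y)
    have e : -sin θ₀ + sin y = -(sin θ₀ * 1) - (-sin y) := by ring
    rw [e]
    exact e2
  have hcont : Continuous g := continuous_iff_continuousAt.2 fun y => (hd y).continuousAt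
  have hderiv : ∀ y, deriv g y = -sin θ₀ + sin y := fun y => (hd y).deriv
  have hg0 : g θ₀ = 0 := by simp [hg]
  suffices hsuff : 0 ≤ g y by
    simp only [hg] at hsuff
    linarith
  rcases le_total y θ₀ with hy | hy
  · have hanti : AntitoneOn g (Icc 0 θ₀) := by
      apply antitoneOn_of_deriv_nonpos (convex_Icc _ _) hcont.continuousOn
        (fun y _ => (hd y).differentiableAt.differentiableWithinAt)
      intro z hz
      rw [interior_Icc] at hz
      rw [hderiv]
      have : sin z ≤ sin θ₀ := Real.sin_le_sin_of_le_of_le_pi_div_two (by linarith [hz.1])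
        (by linarith) hz.2.le
      linarith
    have := hanti ⟨hy0, hy⟩ ⟨h0.le, le_rfl⟩ hy
    rw [hg0] at this
    exact this
  rcases le_total y (π - θ₀) with hy2 | hy2
  · have hmono : MonotoneOn g (Icc θ₀ (π - θ₀)) := by
      apply monotoneOn_of_deriv_nonneg (convex_Icc _ _) hcont.continuousOn
        (fun y _ => (hd y).differentiableAt.differentiableWithinAt)
      intro z hz
      rw [interior_Icc] at hz
      rw [hderiv]
      have : sin θ₀ ≤ sin z := by
        rcases le_total z (π / 2) with hz2 | hz2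
        · exact Real.sin_le_sin_of_le_of_le_pi_div_two (by linarith) hz2 hz.1.le
        · rw [← Real.sin_pi_sub z]
          exact Real.sin_le_sin_of_le_of_le_pi_div_two (by linarith) (by linarith)
            (by linarith [hz.2])
      linarith
    have := hmono ⟨le_rfl, by linarith⟩ ⟨hy, hy2⟩ hy
    rw [hg0] at this
    exact this
  · have hanti : AntitoneOn g (Icc (π - θ₀) π) := by
      apply antitoneOn_of_deriv_nonpos (convex_Icc _ _) hcont.continuousOn
        (fun y _ => (hd y).differentiableAt.differentiableWithinAt)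
      intro z hz
      rw [interior_Icc] at hz
      rw [hderiv]
      have : sin z ≤ sin θ₀ := by
        rw [← Real.sin_pi_sub z]
        exact Real.sin_le_sin_of_le_of_le_pi_div_two (by linarith [hz.2]) (by linarith)
          (by linarith [hz.1])
      linarith
    have h3 := hanti ⟨hy2, hyπ⟩ ⟨by linarith, le_rfl⟩ hyπ
    refine le_trans ?_ h3
    -- g π ≥ 0
    have h4 : 0 ≤ 1 + cos θ₀ - (π - θ₀) * sin θ₀ := by
      set f : ℝ → ℝ := fun x => 1 + cos x - (π - x) * sin x with hf
      have hfd : ∀ x, HasDerivAt f (-((π - x) * cos x)) x := by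
        intro x
        have e1 : HasDerivAt (fun x : ℝ => 1 + cos x) (-sin x) x :=
          (Real.hasDerivAt_cos x).const_add 1
        have e2 : HasDerivAt (fun x : ℝ => (π - x) * sin x) (-1 * sin x + (π - x) * cos x) x :=
          ((hasDerivAt_id x).const_sub π).mul (Real.hasDerivAt_sin x)
        have e3 : HasDerivAt f (-sin x - (-1 * sin x + (π - x) * cos x)) x := e1.sub e2
        have e : -((π - x) * cos x) = -sin x - (-1 * sin x + (π - x) * cos x) := by ring
        rw [e]
        exact e3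
      have hfa : AntitoneOn f (Icc 0 (π / 4)) := by
        apply antitoneOn_of_deriv_nonpos (convex_Icc _ _)
          (continuous_iff_continuousAt.2 fun y => (hfd y).continuousAt).continuousOn
          (fun y _ => (hfd y).differentiableAt.differentiableWithinAt)
        intro z hz
        rw [interior_Icc] at hz
        rw [(hfd z).deriv]
        have : 0 ≤ cos z := Real.cos_nonneg_of_neg_pi_div_two_le_of_le (by linarith [hz.1])
          (by linarith [hz.2])
        have h5 : 0 ≤ (π - z) * cos z := mul_nonneg (by linarith [hz.2]) this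
        linarith
      have h6 := hfa ⟨h0.le, h1⟩ ⟨by linarith, le_rfl⟩ h1
      have h7 : 0 ≤ f (π / 4) := by
        simp only [hf]
        rw [Real.cos_pi_div_four, Real.sin_pi_div_four]
        have hs2 : √2 ^ 2 = 2 := Real.sq_sqrt (by norm_num)
        have hs0 : 0 ≤ √2 := Real.sqrt_nonneg 2
        have hs3 : √2 ≤ 1.4143 := by
          rw [show (1.4143 : ℝ) = √(1.4143 ^ 2) by rw [Real.sqrt_sq (by norm_num)]]
          exact Real.sqrt_le_sqrt (by norm_num)
        have hπ3 : π < 3.15 := Real.pi_lt_d2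
        nlinarith
      exact h7.trans h6
    simp only [hg, Real.cos_pi]
    nlinarith

end Pool.Agent.H891R3.CutK
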