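import Mathlib
import Pool.Agent.H891R3.CutK2

set_option autoImplicit false

open MeasureTheory Set Metric Real
open Pool.Agent.Helper477.Circle

namespace Pool.Agent.H891R3.CutK

lemma lint_le {u v : ℝ} (hu : 0 < u) (huv : u ≤ v) (m : ℝ → ENNReal) (α β γ : ℝ)
    (h : ∀ r ∈ Icc u v, ∃ B, 0 ≤ B ∧ m r ≤ ENNReal.ofReal (2 * B) ∧
      r * B = α + β * r + γ * r ^ 2) :
    0 ≤ 2 * (α * (v - u) + β * (v ^ 2 - u ^ 2) / 2 + γ * (v ^ 3 - u ^ 3) / 3) ∧
    ∫⁻ r in Icc u v, ENNReal.ofReal r * m r ≤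
      ENNReal.ofReal (2 * (α * (v - u) + β * (v ^ 2 - u ^ 2) / 2 + γ * (v ^ 3 - u ^ 3) / 3)) := by
  set P : ℝ → ℝ := fun r => 2 * (α + β * r + γ * r ^ 2) with hP
  have hPc : Continuous P := by simp only [hP]; fun_prop
  have hPpos : ∀ r ∈ Icc u v, 0 ≤ P r := by
    intro r hr
    obtain ⟨B, hB0, hm, hrB⟩ := h r hr
    have hr0 : 0 ≤ r := hu.le.trans hr.1
    simp only [hP]
    rw [← hrB]
    positivity
  have h1 : ∫⁻ r in Icc u v, ENNReal.ofReal r * m r ≤ ∫⁻ r in Icc u v, ENNReal.ofReal (P r) := by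
    apply setLIntegral_mono' measurableSet_Icc
    intro r hr
    obtain ⟨B, hB0, hm, hrB⟩ := h r hr
    have hr0 : 0 ≤ r := hu.le.trans hr.1
    calc ENNReal.ofReal r * m r ≤ ENNReal.ofReal r * ENNReal.ofReal (2 * B) := by gcongr
      _ = ENNReal.ofReal (r * (2 * B)) := (ENNReal.ofReal_mul hr0).symm
      _ = ENNReal.ofReal (P r) := by
        congr 1
        simp only [hP]
        rw [← hrB]; ring
  have h2 : ∫ r in u..v, P r =
      2 * (α * (v - u) + β * (v ^ 2 - u ^ 2) / 2 + γ * (v ^ 3 - u ^ 3) / 3) := by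
    rw [intervalIntegral.integral_eq_sub_of_hasDerivAt
      (f := fun r => 2 * (α * r + β * r ^ 2 / 2 + γ * r ^ 3 / 3))]
    · ring
    · intro r _
      have e : P r = 2 * (α * 1 + β * (2 * r ^ 1 * 1) / 2 + γ * (3 * r ^ 2 * 1) / 3) := by
        simp only [hP]; ring
      rw [e]
      have d1 : HasDerivAt (fun r : ℝ => α * r) (α * 1) r := (hasDerivAt_id r).const_mul α
      have d2 : HasDerivAt (fun r : ℝ => β * r ^ 2 / 2) (β * (2 * r ^ 1 * 1) / 2) r :=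
        (((hasDerivAt_id r).pow 2).const_mul β).div_const 2
      have d3 : HasDerivAt (fun r : ℝ => γ * r ^ 3 / 3) (γ * (3 * r ^ 2 * 1) / 3) r :=
        (((hasDerivAt_id r).pow 3).const_mul γ).div_const 3
      exact ((d1.add d2).add d3).const_mul 2
    · exact hPc.intervalIntegrable _ _
  constructor
  · rw [← h2]
    exact intervalIntegral.integral_nonneg huv hPpos
  refine h1.trans (le_of_eq ?_)
  rw [← ofReal_integral_eq_lintegral_ofReal]
  · congr 1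
    rw [integral_Icc_eq_integral_Ioc, ← intervalIntegral.integral_of_le huv]
    exact h2
  · exact hPc.continuousOn.integrableOn_Icc
  · exact (ae_restrict_iff' measurableSet_Icc).2 (Filter.Eventually.of_forall hPpos)

lemma lint_eq {u v : ℝ} (hu : 0 < u) (huv : u ≤ v) (K : ℝ) (hK : 0 ≤ K) :
    ∫⁻ r in Icc u v, ENNReal.ofReal r * ENNReal.ofReal (2 * K) =
      ENNReal.ofReal (K * (v ^ 2 - u ^ 2)) := by
  have hc : Continuous (fun r : ℝ => r * (2 * K)) := by fun_prop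
  have h1 : ∫⁻ r in Icc u v, ENNReal.ofReal r * ENNReal.ofReal (2 * K) =
      ∫⁻ r in Icc u v, ENNReal.ofReal (r * (2 * K)) := by
    apply setLIntegral_congr_fun measurableSet_Icc
    intro r hr
    exact (ENNReal.ofReal_mul (hu.le.trans hr.1)).symm
  rw [h1, ← ofReal_integral_eq_lintegral_ofReal]
  · congr 1
    rw [integral_Icc_eq_integral_Ioc, ← intervalIntegral.integral_of_le huv]
    rw [intervalIntegral.integral_eq_sub_of_hasDerivAt (f := fun r => K * r ^ 2)]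
    · ring
    · intro r _
      have e : r * (2 * K) = K * (2 * r ^ 1 * 1) := by ring
      rw [e]
      exact ((hasDerivAt_id r).pow 2).const_mul K
    · exact hc.intervalIntegrable _ _
  · exact hc.continuousOn.integrableOn_Icc
  · refine (ae_restrict_iff' measurableSet_Icc).2 (Filter.Eventually.of_forall ?_)
    intro r hr
    have hr0 : 0 ≤ r := hu.le.trans hr.1
    show 0 ≤ r * (2 * K)
    positivity

/-- Numerical facts. -/
lemma num_M (t q : ℝ) (ht : 0 < t) (ht2 : t ≤ 0.16) (hq : 0 < q) (hqt : q ≤ t / 8) :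
    ((1 - t + q ^ 2 / 8) ^ 2 - (1 - t) ^ 2) / 2 +
      ((1 + q * (1 - t / 4) + t * q / 8) ^ 2 - (1 + q * (1 - t / 4)) ^ 2) / 2 <
      q ^ 2 / 8 + t * q / 8 := by
  have e : ((1 - t + q ^ 2 / 8) ^ 2 - (1 - t) ^ 2) / 2 +
      ((1 + q * (1 - t / 4) + t * q / 8) ^ 2 - (1 + q * (1 - t / 4)) ^ 2) / 2 -
      (q ^ 2 / 8 + t * q / 8) = q ^ 2 * (q ^ 2 - 3 * t ^ 2) / 128 := by ring
  have h2 : q ^ 2 < 3 * t ^ 2 := by nlinarith
  have h3 : q ^ 2 * (q ^ 2 - 3 * t ^ 2) / 128 < 0 := by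
    have : 0 < q ^ 2 * (3 * t ^ 2 - q ^ 2) := mul_pos (by positivity) (by linarith)
    linarith
  linarith

lemma num_Q (t q : ℝ) (ht : 0 < t) (ht2 : t ≤ 0.16) (hq : 0 < q) (hqt : q ≤ t / 8) :
    (1 + t * q / 20) ^ 2 * (q ^ 2 / 8 + t * q / 8) ≤
    ((1 - t + q ^ 2 / 8) ^ 3 - (1 - t) ^ 3) / 3 +
      ((1 + q * (1 - t / 4) + t * q / 8) ^ 3 - (1 + q * (1 - t / 4)) ^ 3) / 3 := by
  set g : ℝ := q * (1 - t / 4) with hg
  have hg0 : 0 < g := mul_pos hq (by linarith)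
  have e : ((1 - t + q ^ 2 / 8) ^ 3 - (1 - t) ^ 3) / 3 +
      ((1 + g + t * q / 8) ^ 3 - (1 + g) ^ 3) / 3 =
      (q ^ 2 / 8 + t * q / 8) + 2 * (q ^ 2 * (q ^ 2 - 3 * t ^ 2) / 128) +
      (((-t + q ^ 2 / 8) ^ 3 + t ^ 3) / 3 + ((g + t * q / 8) ^ 3 - g ^ 3) / 3) := by
    rw [hg]; ring
  have h1 : 0 ≤ (g + t * q / 8) ^ 3 - g ^ 3 := by
    have : g ^ 3 ≤ (g + t * q / 8) ^ 3 := pow_le_pow_left₀ hg0.le (by nlinarith) 3
    linarith
  have h2 : q ^ 2 * t ^ 2 / 8 - t * q ^ 4 / 64 ≤ ((-t + q ^ 2 / 8) ^ 3 + t ^ 3) / 3 := by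
    have : ((-t + q ^ 2 / 8) ^ 3 + t ^ 3) / 3 = q ^ 2 * t ^ 2 / 8 - t * q ^ 4 / 64 +
        q ^ 6 / 1536 := by ring
    rw [this]
    have : 0 ≤ q ^ 6 := by positivity
    linarith
  have h3 : (1 + t * q / 20) ^ 2 * (q ^ 2 / 8 + t * q / 8) ≤
      (q ^ 2 / 8 + t * q / 8) + 27 / 1280 * (t ^ 2 * q ^ 2) := by
    have e3 : (1 + t * q / 20) ^ 2 = 1 + (2 + t * q / 20) * (t * q / 20) := by ring
    have h4 : (2 + t * q / 20) ≤ 3 := by nlinarith
    have h5 : 0 ≤ t * q / 20 := by positivity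
    have h6 : 0 ≤ q ^ 2 / 8 + t * q / 8 := by positivity
    have h7 : q ^ 2 / 8 + t * q / 8 ≤ 9 / 64 * (t * q) := by nlinarith
    rw [e3]
    have h8 : (2 + t * q / 20) * (t * q / 20) * (q ^ 2 / 8 + t * q / 8) ≤
        3 * (t * q / 20) * (9 / 64 * (t * q)) := by
      apply mul_le_mul _ h7 h6 (by positivity)
      exact mul_le_mul_of_nonneg_right h4 h5
    nlinarith
  rw [e]
  have h9 : t * q ^ 4 ≤ q ^ 4 := by
    have : 0 ≤ q ^ 4 := by positivity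
    nlinarith
  have h10 : 0 ≤ t ^ 2 * q ^ 2 := by positivity
  nlinarith

end Pool.Agent.H891R3.CutK
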