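import Mathlib
import Pool.Agent.H891R3.CutK3

set_option autoImplicit false

open MeasureTheory Set Metric Real
open Pool.Agent.Helper477.Circle

namespace Pool.Agent.H891R3.CutK

/-- The inner radii. -/
def Jin (t q : ℝ) : Set ℝ := Icc (1 - t) (1 - t + q ^ 2 / 8)
/-- The outer radii. -/
def Jout (t q : ℝ) : Set ℝ := Icc (1 + q * (1 - t / 4)) (1 + q * (1 - t / 4) + t * q / 8)
/-- The radii of the second set. -/
def J1 (t q : ℝ) : Set ℝ := Jin t q ∪ Jout t q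

/-- The integral of `r` over `J1`. -/
noncomputable def MM (t q : ℝ) : ℝ := ((1 - t + q ^ 2 / 8) ^ 2 - (1 - t) ^ 2) / 2 +
      ((1 + q * (1 - t / 4) + t * q / 8) ^ 2 - (1 + q * (1 - t / 4)) ^ 2) / 2

lemma hsum_id (s A C ρ θ u1 v1 u2 v2 : ℝ) :
    2 * ((A * ρ ^ 2 - C * ρ) / s * (v1 - u1) + (θ + C / s) * (v1 ^ 2 - u1 ^ 2) / 2 +
      (-(A / s)) * (v1 ^ 3 - u1 ^ 3) / 3) +
    2 * ((A * ρ ^ 2 - C * ρ) / s * (v2 - u2) + (θ + C / s) * (v2 ^ 2 - u2 ^ 2) / 2 +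
      (-(A / s)) * (v2 ^ 3 - u2 ^ 3) / 3) =
    2 * θ * ((v1 ^ 2 - u1 ^ 2) / 2 + (v2 ^ 2 - u2 ^ 2) / 2) +
      2 / s * (C * (((v1 ^ 2 - u1 ^ 2) / 2 + (v2 ^ 2 - u2 ^ 2) / 2) -
        ρ * ((v1 - u1) + (v2 - u2))) -
        A * (((v1 ^ 3 - u1 ^ 3) / 3 + (v2 ^ 3 - u2 ^ 3) / 3) -
        ρ ^ 2 * ((v1 - u1) + (v2 - u2)))) := by
  simp only [div_eq_mul_inv]
  ring

section
variable {t q : ℝ} (ht : 0 < t) (ht2 : t ≤ 0.16) (hq : 0 < q) (hqt : q ≤ t / 8)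
include ht ht2 hq hqt

lemma disjJ : Disjoint (Jin t q) (Jout t q) := by
  rw [Set.disjoint_left]
  intro r hr hr'
  have h1 := hr.2
  have h2 := hr'.1
  nlinarith

lemma J1_sub : J1 t q ⊆ Ioi 0 := by
  rintro r (hr | hr)
  · have := hr.1
    show 0 < r
    linarith
  · have := hr.1
    show 0 < r
    nlinarith

omit ht ht2 hq hqt in
lemma measJout : MeasurableSet (Jout t q) := measurableSet_Icc

omit ht ht2 hq hqt in
lemma measJ1 : MeasurableSet (J1 t q) := measurableSet_Icc.union measurableSet_Icc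

lemma volA1 : volume (Rad (J1 t q)) = ENNReal.ofReal (2 * π * MM t q) := by
  rw [vol_Rad _ measJ1 (J1_sub ht ht2 hq hqt), J1,
    lintegral_union (measJout (t := t) (q := q)) (disjJ ht ht2 hq hqt), Jin, Jout, lint_eq (by linarith) (by nlinarith [sq_nonneg q]) π Real.pi_pos.le,
    lint_eq (by nlinarith) (by nlinarith) π Real.pi_pos.le, ← ENNReal.ofReal_add]
  · congr 1
    rw [MM]; ring
  · have : 0 ≤ (1 - t + q ^ 2 / 8) ^ 2 - (1 - t) ^ 2 := by nlinarith [sq_nonneg q]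
    exact mul_nonneg Real.pi_pos.le this
  · have h0 : 0 < q * (1 - t / 4) := mul_pos hq (by linarith)
    have : 0 ≤ (1 + q * (1 - t / 4) + t * q / 8) ^ 2 - (1 + q * (1 - t / 4)) ^ 2 := by
      have h1 : 0 < t * q / 8 := by positivity
      nlinarith
    exact mul_nonneg Real.pi_pos.le this

lemma MM_pos : 0 < MM t q := by
  have hM : MM t q = (q ^ 2 / 8) * (1 - t + q ^ 2 / 16) +
      (t * q / 8) * (1 + q * (1 - t / 4) + t * q / 16) := by
    rw [MM]; ring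
  have hI : 0 < 1 - t + q ^ 2 / 16 := by nlinarith
  have hO1 : 0 < 1 + q * (1 - t / 4) + t * q / 16 := by nlinarith
  rw [hM]; positivity

/-- Second case: the region is small on the outer annulus. -/
lemma case_two {a b V θ₀ : ℝ} (hθ : 0 < θ₀) (hπθ : π * (q ^ 2 / 8) = θ₀ * (t * q / 8) / 2)
    (hV : 0 ≤ V)
    (hout : ∀ r ∈ Jout t q, V * (r * cos (θ₀ / 2)) ≤ a * r ^ 2 + b) :
    volume (Rad (J1 t q) ∩ Reg a b (V • e0)) < ENNReal.ofReal (2 * θ₀ * MM t q) := by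
  rw [polar a b V _ measJ1 (J1_sub ht ht2 hq hqt), J1,
    lintegral_union (measJout (t := t) (q := q)) (disjJ ht ht2 hq hqt), Jin, Jout]
  have h1 := lint_le (u := 1 - t) (v := 1 - t + q ^ 2 / 8) (by linarith)
    (by nlinarith [sq_nonneg q]) (ang a b V) 0 π 0 (by
      intro r hr
      exact ⟨π, Real.pi_pos.le, ang_le_two_pi a b V r, by ring⟩)
  have h2 := lint_le (u := 1 + q * (1 - t / 4)) (v := 1 + q * (1 - t / 4) + t * q / 8)
    (by nlinarith) (by nlinarith) (ang a b V) 0 (θ₀ / 2) 0 (by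
      intro r hr
      refine ⟨θ₀ / 2, by positivity, ?_, by ring⟩
      have hr0 : 0 ≤ r := by
        have := hr.1
        nlinarith
      exact ang_le (by positivity) hV hr0 (fun _ => hout r hr))
  have hg0 : 0 < q * (1 - t / 4) := mul_pos hq (by linarith)
  have hw0 : 0 < t * q / 8 := by positivity
  have hl0 : 0 < q ^ 2 / 8 := by positivity
  have hq2 : q ^ 2 / 8 ≤ t / 8 := by nlinarith
  have hM : MM t q = (q ^ 2 / 8) * (1 - t + q ^ 2 / 16) +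
      (t * q / 8) * (1 + q * (1 - t / 4) + t * q / 16) := by
    rw [MM]; ring
  refine lt_of_le_of_lt (add_le_add h1.2 h2.2) ?_
  have hI : 0 < 1 - t + q ^ 2 / 16 := by nlinarith
  have hI1 : 1 - t + q ^ 2 / 16 ≤ 1 := by nlinarith
  have hO1 : 1 ≤ 1 + q * (1 - t / 4) + t * q / 16 := by nlinarith
  have e1 : 2 * (0 * (1 - t + q ^ 2 / 8 - (1 - t)) + π * ((1 - t + q ^ 2 / 8) ^ 2 - (1 - t) ^ 2) / 2 +
      0 * ((1 - t + q ^ 2 / 8) ^ 3 - (1 - t) ^ 3) / 3) =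
      2 * (π * (q ^ 2 / 8)) * (1 - t + q ^ 2 / 16) := by ring
  have e2 : 2 * (0 * (1 + q * (1 - t / 4) + t * q / 8 - (1 + q * (1 - t / 4))) +
      θ₀ / 2 * ((1 + q * (1 - t / 4) + t * q / 8) ^ 2 - (1 + q * (1 - t / 4)) ^ 2) / 2 +
      0 * ((1 + q * (1 - t / 4) + t * q / 8) ^ 3 - (1 + q * (1 - t / 4)) ^ 3) / 3) =
      θ₀ * (t * q / 8) * (1 + q * (1 - t / 4) + t * q / 16) := by ring
  rw [e1, e2, hπθ, ← ENNReal.ofReal_add (by positivity) (by positivity),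
    ENNReal.ofReal_lt_ofReal_iff_of_nonneg (by positivity)]
  rw [hM]
  have hX : 0 < θ₀ * (t * q / 8) := by positivity
  have hY : 0 < θ₀ * (q ^ 2 / 8) * (1 - t + q ^ 2 / 16) := by positivity
  nlinarith

/-- First case: the tangent line bound holds throughout. -/
lemma case_one {a b V ρ θ₀ : ℝ} (hθ : 0 < θ₀) (hθ4 : θ₀ ≤ π / 4) (hκ : θ₀ * sin θ₀ = 4 * t)
    (ha : 0 ≤ a) (hV : 0 < V) (hρ : ρ ∈ Icc 1 (1 + t * q / 20))
    (hρV : V * (ρ * cos θ₀) ≤ a * ρ ^ 2 + b)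
    (hout : ∀ r ∈ Jout t q, a / V * (r ^ 2 - ρ ^ 2) + cos θ₀ * (ρ - r) ≤ 4 * t * r) :
    volume (Rad (J1 t q) ∩ Reg a b (V • e0)) < ENNReal.ofReal (2 * θ₀ * MM t q) := by
  have hπ := Real.pi_pos
  have hs : 0 < sin θ₀ := Real.sin_pos_of_pos_of_lt_pi hθ (by linarith)
  have hc : 0 < cos θ₀ := Real.cos_pos_of_mem_Ioo ⟨by linarith, by linarith⟩
  have hc1 : cos θ₀ ≤ 1 := Real.cos_le_one θ₀
  have haV : 0 ≤ a / V := div_nonneg ha hV.le
  set A : ℝ := a / V with hA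
  have hAV : A * V = a := by rw [hA]; field_simp
  obtain ⟨hρ1, hρ2⟩ := hρ
  have htq : 0 < t * q := by positivity
  have key : ∀ r : ℝ, 0 < r → A * (r ^ 2 - ρ ^ 2) + cos θ₀ * (ρ - r) ≤ 4 * t * r →
      ∃ B, 0 ≤ B ∧ ang a b V r ≤ ENNReal.ofReal (2 * B) ∧
      r * B = (A * ρ ^ 2 - cos θ₀ * ρ) / sin θ₀ + (θ₀ + cos θ₀ / sin θ₀) * r +
        (-(A / sin θ₀)) * r ^ 2 := by
    intro r hr hN
    refine ⟨θ₀ - (A * (r ^ 2 - ρ ^ 2) + cos θ₀ * (ρ - r)) / (sin θ₀ * r), ?_, ?_, ?_⟩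
    · rw [sub_nonneg, div_le_iff₀ (by positivity)]
      nlinarith
    · apply ang_le _ hV.le hr.le
      · intro hBπ
        have h0 : 0 ≤ θ₀ - (A * (r ^ 2 - ρ ^ 2) + cos θ₀ * (ρ - r)) / (sin θ₀ * r) := by
          rw [sub_nonneg, div_le_iff₀ (by positivity)]
          nlinarith
        have h1 := cos_tangent hθ hθ4 h0 hBπ
        have h2 : cos θ₀ - sin θ₀ * (θ₀ - (A * (r ^ 2 - ρ ^ 2) + cos θ₀ * (ρ - r)) / (sin θ₀ * r) -
            θ₀) = (A * (r ^ 2 - ρ ^ 2) + cos θ₀ * ρ) / r := by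
          field_simp
          ring
        rw [h2] at h1
        have h3 := mul_le_mul_of_nonneg_left h1 hr.le
        rw [mul_div_cancel₀ _ hr.ne'] at h3
        have h4 := mul_le_mul_of_nonneg_left h3 hV.le
        have h5 : V * (A * (r ^ 2 - ρ ^ 2) + cos θ₀ * ρ) = a * (r ^ 2 - ρ ^ 2) + V * (ρ * cos θ₀) := by
          rw [← hAV]; ring
        linarith
      · rw [sub_nonneg, div_le_iff₀ (by positivity)]
        nlinarith
    · field_simp
      ring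
  rw [polar a b V _ measJ1 (J1_sub ht ht2 hq hqt), J1,
    lintegral_union (measJout (t := t) (q := q)) (disjJ ht ht2 hq hqt), Jin, Jout]
  have hq2 : q ^ 2 / 8 ≤ t * q / 8 := by nlinarith
  have hqs : q ≤ 0.02 := by linarith
  have h1 := lint_le (u := 1 - t) (v := 1 - t + q ^ 2 / 8) (by linarith)
    (by nlinarith [sq_nonneg q]) (ang a b V) _ _ _ (by
      intro r hr
      have hr1 := hr.1
      have hr2 := hr.2
      have hr0 : 0 < r := by linarith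
      apply key r hr0
      have hrρ : r ≤ ρ := by nlinarith
      have h6 : A * (r ^ 2 - ρ ^ 2) ≤ 0 := by
        have : r ^ 2 ≤ ρ ^ 2 := pow_le_pow_left₀ hr0.le hrρ 2
        nlinarith
      have h7 : cos θ₀ * (ρ - r) ≤ 1 * (ρ - r) :=
        mul_le_mul_of_nonneg_right hc1 (by linarith)
      nlinarith)
  have h2 := lint_le (u := 1 + q * (1 - t / 4)) (v := 1 + q * (1 - t / 4) + t * q / 8)
    (by nlinarith) (by nlinarith) (ang a b V) _ _ _ (by
      intro r hr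
      have hr0 : 0 < r := by
        have := hr.1
        nlinarith
      exact key r hr0 (hout r hr))
  refine lt_of_le_of_lt (add_le_add h1.2 h2.2) ?_
  replace h1 := h1.1
  replace h2 := h2.1
  -- nonnegativity of the two upper bounds is obtained from positivity of the integrals
  have hMM := MM_pos ht ht2 hq hqt
  have hn1 := num_M t q ht ht2 hq hqt
  have hn2 := num_Q t q ht ht2 hq hqt
  have hid := hsum_id (sin θ₀) A (cos θ₀) ρ θ₀ (1 - t) (1 - t + q ^ 2 / 8)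
    (1 + q * (1 - t / 4)) (1 + q * (1 - t / 4) + t * q / 8)
  rw [← ENNReal.ofReal_add h1 h2, hid]
  clear hid h1 h2
  change _ < ENNReal.ofReal (2 * θ₀ * (((1 - t + q ^ 2 / 8) ^ 2 - (1 - t) ^ 2) / 2 +
      ((1 + q * (1 - t / 4) + t * q / 8) ^ 2 - (1 + q * (1 - t / 4)) ^ 2) / 2))
  change 0 < ((1 - t + q ^ 2 / 8) ^ 2 - (1 - t) ^ 2) / 2 +
      ((1 + q * (1 - t / 4) + t * q / 8) ^ 2 - (1 + q * (1 - t / 4)) ^ 2) / 2 at hMM
  have hLe : (1 - t + q ^ 2 / 8 - (1 - t)) + (1 + q * (1 - t / 4) + t * q / 8 -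
      (1 + q * (1 - t / 4))) = q ^ 2 / 8 + t * q / 8 := by ring
  rw [hLe]
  generalize ((1 - t + q ^ 2 / 8) ^ 2 - (1 - t) ^ 2) / 2 +
      ((1 + q * (1 - t / 4) + t * q / 8) ^ 2 - (1 + q * (1 - t / 4)) ^ 2) / 2 = M at *
  generalize ((1 - t + q ^ 2 / 8) ^ 3 - (1 - t) ^ 3) / 3 +
      ((1 + q * (1 - t / 4) + t * q / 8) ^ 3 - (1 + q * (1 - t / 4)) ^ 3) / 3 = QQ at *
  have hL0 : 0 < q ^ 2 / 8 + t * q / 8 := by positivity
  generalize q ^ 2 / 8 + t * q / 8 = L at *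
  have hneg : cos θ₀ * (M - ρ * L) - A * (QQ - ρ ^ 2 * L) < 0 := by
    have k1 : M < L := hn1
    have k2 : M - ρ * L < 0 := by
      have k20 : L ≤ ρ * L := by
        have := mul_le_mul_of_nonneg_right hρ1 hL0.le
        linarith
      linarith
    have k3 : cos θ₀ * (M - ρ * L) < 0 := mul_neg_of_pos_of_neg hc k2
    have k4 : ρ ^ 2 ≤ (1 + t * q / 20) ^ 2 := pow_le_pow_left₀ (by linarith) hρ2 2
    have k5 : ρ ^ 2 * L ≤ (1 + t * q / 20) ^ 2 * L := mul_le_mul_of_nonneg_right k4 hL0.le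
    have k6 : 0 ≤ A * (QQ - ρ ^ 2 * L) := mul_nonneg haV (by linarith)
    linarith
  have hpos : 0 < 2 * θ₀ * M := by positivity
  rw [ENNReal.ofReal_lt_ofReal_iff hpos]
  have : 2 / sin θ₀ * (cos θ₀ * (M - ρ * L) - A * (QQ - ρ ^ 2 * L)) < 0 :=
    mul_neg_of_pos_of_neg (by positivity) hneg
  linarith

end

end Pool.Agent.H891R3.CutK
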