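import Mathlib
import Pool.Agent.H891R3.CutK4

set_option autoImplicit false

open MeasureTheory Set Metric Real
open Pool.Agent.Helper477.Circle

namespace Pool.Agent.H891R3.CutK

/-- If the tangent bound fails at one outer radius, the region is small on the outer annulus. -/
lemma outer_small {t q A c ρ r r' : ℝ} (ht : 0 < t) (ht2 : t ≤ 0.16) (hq : 0 < q)
    (hqt : q ≤ t / 8) (hA : 0 ≤ A) (hc0 : 0 < c) (hc1 : c ≤ 1) (hρ : ρ ∈ Icc 1 (1 + t * q / 20))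
    (hr : r ∈ Jout t q) (hr' : r' ∈ Jout t q)
    (h : 4 * t * r < A * (r ^ 2 - ρ ^ 2) + c * (ρ - r)) :
    2 * t * r' ≤ A * (r' ^ 2 - ρ ^ 2) + c * (ρ - r') := by
  obtain ⟨hρ1, hρ2⟩ := hρ
  obtain ⟨h1, h2⟩ := hr
  obtain ⟨h1', h2'⟩ := hr'
  have htq : t * q ≤ 0.16 * q := mul_le_mul_of_nonneg_right ht2 hq.le
  have htq0 : 0 < t * q := by positivity
  have hq2 : q ≤ 0.02 := by linarith
  have hg : q * (1 - t / 4) = q - t * q / 4 := by ring
  rw [hg] at h1 h2 h1' h2'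
  have a1 : ρ ≤ r := by linarith
  have a2 : ρ ≤ r' := by linarith
  have a3 : 0.9 * q ≤ r' - ρ := by linarith
  have a4 : r' ≤ 1.1 := by linarith
  have a5 : r ≤ r' + t * q / 8 := by linarith
  have a6 : 1 ≤ r := by linarith
  have a7 : 1 ≤ r' := by linarith
  have b1 : r ^ 2 ≤ (r' + t * q / 8) ^ 2 := pow_le_pow_left₀ (by linarith) a5 2
  have b2 : (r' + t * q / 8) ^ 2 ≤ r' ^ 2 + 0.1 * q := by nlinarith
  have b3 : 1.8 * q ≤ r' ^ 2 - ρ ^ 2 := by nlinarith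
  have b4 : r ^ 2 - ρ ^ 2 ≤ 10 / 9 * (r' ^ 2 - ρ ^ 2) := by linarith
  have b5 : A * (r ^ 2 - ρ ^ 2) ≤ A * (10 / 9 * (r' ^ 2 - ρ ^ 2)) := mul_le_mul_of_nonneg_left b4 hA
  have b6 : c * (ρ - r) ≤ 0 := by nlinarith
  have b7 : 3.6 * t ≤ A * (r' ^ 2 - ρ ^ 2) := by nlinarith
  have b8 : c * (r' - ρ) ≤ 1 * (r' - ρ) := mul_le_mul_of_nonneg_right hc1 (by linarith)
  have b9 : r' - ρ ≤ 0.2 * t := by linarith
  have b10 : t * r' ≤ t * 1.1 := mul_le_mul_of_nonneg_left a4 ht.le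
  linarith

/-- No disc or half-plane cuts off exactly `1 / k` of both sets. -/
theorem no_cut {k : ℕ} (hk : 4 ≤ k) {θ₀ t q : ℝ} (hθ₀ : θ₀ = π / k) (ht' : t = θ₀ * sin θ₀ / 4)
    (hq' : q = t / (2 * k)) {a b V : ℝ} (ha : 0 ≤ a) (hV : 0 ≤ V)
    (h1 : volume (Rad (J1 t q) ∩ Reg a b (V • e0)) = volume (Rad (J1 t q)) / k)
    (h2 : volume (Rad (Icc 1 (1 + t * q / 20)) ∩ Reg a b (V • e0)) =
      volume (Rad (Icc 1 (1 + t * q / 20))) / k) : False := by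
  have hπ := Real.pi_pos
  have hπ3 := Real.pi_lt_d2
  have hk4 : (4 : ℝ) ≤ k := by exact_mod_cast hk
  have hk0 : (0 : ℝ) < k := by linarith
  have hθ : 0 < θ₀ := by rw [hθ₀]; positivity
  have hθ4 : θ₀ ≤ π / 4 := by
    rw [hθ₀]
    exact div_le_div_of_nonneg_left hπ.le (by norm_num) hk4
  have hs : 0 < sin θ₀ := Real.sin_pos_of_pos_of_lt_pi hθ (by linarith)
  have hsle : sin θ₀ ≤ θ₀ := Real.sin_le hθ.le
  have hc : 0 < cos θ₀ := Real.cos_pos_of_mem_Ioo ⟨by linarith, by linarith⟩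
  have hc1 : cos θ₀ ≤ 1 := Real.cos_le_one θ₀
  have ht : 0 < t := by rw [ht']; positivity
  have hκ : θ₀ * sin θ₀ = 4 * t := by rw [ht']; ring
  have ht2 : t ≤ 0.16 := by
    have e1 : θ₀ ≤ 0.7875 := by linarith
    have e2 : θ₀ * sin θ₀ ≤ 0.7875 * 0.7875 :=
      mul_le_mul e1 (hsle.trans e1) hs.le (by norm_num)
    rw [ht']; linarith
  have hq : 0 < q := by rw [hq']; positivity
  have hqt : q ≤ t / 8 := by
    rw [hq']
    exact div_le_div_of_nonneg_left ht.le (by norm_num) (by linarith)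
  have hqk : q * (2 * k) = t := by rw [hq']; field_simp
  have hθk : θ₀ * k = π := by rw [hθ₀]; field_simp
  have hπθ : π * (q ^ 2 / 8) = θ₀ * (t * q / 8) / 2 := by
    rw [← hqk, ← hθk]; ring
  have hη : 0 < t * q / 20 := by positivity
  have hdiv : volume (Rad (J1 t q)) / k = ENNReal.ofReal (2 * θ₀ * MM t q) := by
    rw [volA1 ht ht2 hq hqt]
    have e1 : (k : ENNReal) = ENNReal.ofReal k := by rw [ENNReal.ofReal_natCast]
    rw [e1, ← ENNReal.ofReal_div_of_pos hk0]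
    congr 1
    rw [← hθk]
    field_simp
  rw [hdiv] at h1
  obtain ⟨ρ, hρ, hρV⟩ := exists_rho (by omega : 2 ≤ k) hV hη h2
  rw [← hθ₀] at hρV
  have hρr : ∀ r ∈ Jout t q, ρ ≤ r := by
    intro r hr
    have e1 := hr.1
    have e2 := hρ.2
    have htq : t * q ≤ 0.16 * q := mul_le_mul_of_nonneg_right ht2 hq.le
    have hg : q * (1 - t / 4) = q - t * q / 4 := by ring
    rw [hg] at e1
    linarith
  have hlt : volume (Rad (J1 t q) ∩ Reg a b (V • e0)) < ENNReal.ofReal (2 * θ₀ * MM t q) := by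
    rcases hV.eq_or_lt with hV0 | hVpos
    · apply case_two ht ht2 hq hqt hθ hπθ hV
      intro r hr
      rw [← hV0] at hρV ⊢
      have e1 := hρr r hr
      have e2 : ρ ^ 2 ≤ r ^ 2 := pow_le_pow_left₀ (by linarith [hρ.1]) e1 2
      have e3 : a * ρ ^ 2 ≤ a * r ^ 2 := mul_le_mul_of_nonneg_left e2 ha
      linarith
    · by_cases hall : ∀ r ∈ Jout t q, a / V * (r ^ 2 - ρ ^ 2) + cos θ₀ * (ρ - r) ≤ 4 * t * r
      · exact case_one ht ht2 hq hqt hθ hθ4 hκ ha hVpos hρ hρV hall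
      · push Not at hall
        obtain ⟨r, hr, hN⟩ := hall
        apply case_two ht ht2 hq hqt hθ hπθ hV
        intro r' hr'
        have hN' := outer_small ht ht2 hq hqt (div_nonneg ha hVpos.le) hc hc1 hρ hr hr' hN
        have hcos := cos_tangent hθ hθ4 (by positivity : 0 ≤ θ₀ / 2) (by linarith)
        have hr'0 : 0 < r' := lt_of_lt_of_le (by linarith [hρ.1]) (hρr r' hr')
        have e1 : cos θ₀ - sin θ₀ * (θ₀ / 2 - θ₀) = cos θ₀ + 2 * t := by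
          have : sin θ₀ * (θ₀ / 2 - θ₀) = -(θ₀ * sin θ₀ / 2) := by ring
          rw [this, hκ]; ring
        rw [e1] at hcos
        have e2 := mul_le_mul_of_nonneg_left hcos hr'0.le
        have e3 : r' * cos (θ₀ / 2) ≤ a / V * (r' ^ 2 - ρ ^ 2) + cos θ₀ * ρ := by linarith
        have e4 := mul_le_mul_of_nonneg_left e3 hVpos.le
        have e5 : V * (a / V * (r' ^ 2 - ρ ^ 2) + cos θ₀ * ρ) =
            a * (r' ^ 2 - ρ ^ 2) + V * (ρ * cos θ₀) := by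
          field_simp
        linarith
  rw [h1] at hlt
  exact lt_irrefl _ hlt

theorem no_cut' {k : ℕ} (hk : 4 ≤ k) {θ₀ t q : ℝ} (hθ₀ : θ₀ = π / k) (ht' : t = θ₀ * sin θ₀ / 4)
    (hq' : q = t / (2 * k)) {a b : ℝ} (ha : 0 ≤ a) (v : E)
    (h1 : volume (Rad (J1 t q) ∩ Reg a b v) = volume (Rad (J1 t q)) / k)
    (h2 : volume (Rad (Icc 1 (1 + t * q / 20)) ∩ Reg a b v) =
      volume (Rad (Icc 1 (1 + t * q / 20))) / k) : False := by
  rw [vol_rot _ measJ1] at h1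
  rw [vol_rot _ measurableSet_Icc] at h2
  exact no_cut hk hθ₀ ht' hq' ha (norm_nonneg v) h1 h2

lemma vol_lt_top {J : Set ℝ} {R : ℝ} (h : ∀ r ∈ J, r ≤ R) : volume (Rad J) < ⊤ := by
  have h1 : Rad J ⊆ closedBall (0 : E) R := by
    intro x hx
    simpa using h _ hx
  exact lt_of_le_of_lt (measure_mono h1) measure_closedBall_lt_top

theorem main {k : ℕ} (hk : 4 ≤ k) : ∃ A₁ A₂ : Set E, MeasurableSet A₁ ∧ MeasurableSet A₂ ∧
    volume A₁ < ⊤ ∧ volume A₂ < ⊤ ∧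
    ¬ ∃ S : Set E, ((∃ (p : E) (r : ℝ), 0 < r ∧ S = ball p r) ∨
      (∃ (v : E) (c : ℝ), v ≠ 0 ∧ S = {x : E | inner ℝ v x < c})) ∧
      volume (A₁ ∩ S) = volume A₁ / k ∧ volume (A₂ ∩ S) = volume A₂ / k := by
  set θ₀ : ℝ := π / k with hθ₀
  set t : ℝ := θ₀ * sin θ₀ / 4 with ht'
  set q : ℝ := t / (2 * k) with hq'
  refine ⟨Rad (J1 t q), Rad (Icc 1 (1 + t * q / 20)), measurableSet_Rad measJ1,
    measurableSet_Rad measurableSet_Icc, ?_, ?_, ?_⟩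
  · apply vol_lt_top (R := max (1 - t + q ^ 2 / 8) (1 + q * (1 - t / 4) + t * q / 8))
    rintro r (hr | hr)
    · exact hr.2.trans (le_max_left _ _)
    · exact hr.2.trans (le_max_right _ _)
  · exact vol_lt_top (R := 1 + t * q / 20) fun r hr => hr.2
  · rintro ⟨S, hS, h1, h2⟩
    rcases hS with ⟨p, r, hr, rfl⟩ | ⟨v, c, _, rfl⟩
    · rw [ball_eq p hr] at h1 h2
      exact no_cut' hk hθ₀ ht' hq' zero_le_one _ h1 h2
    · rw [half_eq v c] at h1 h2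
      exact no_cut' hk hθ₀ ht' hq' le_rfl _ h1 h2

end Pool.Agent.H891R3.CutK
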