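import Mathlib

set_option autoImplicit false

namespace Pool.Agent.H891R3.Diam2

open SimpleGraph Finset

variable {V : Type} [Fintype V] [DecidableEq V] (G : SimpleGraph V) [DecidableRel G.Adj]

/-- Counting edges with respect to a set `Q`. -/
lemma edge_count (Q : Finset V) :
    ∑ v ∈ Qᶜ, (2 * (G.neighborFinset v ∩ Q).card + (G.neighborFinset v \ Q).card)
      ≤ ∑ v, G.degree v := by
  have h1 : ∑ v, G.degree v = ∑ v ∈ Q, G.degree v + ∑ v ∈ Qᶜ, G.degree v :=
    (Finset.sum_add_sum_compl Q _).symm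
  have h2 : ∑ v ∈ Qᶜ, (G.neighborFinset v ∩ Q).card ≤ ∑ v ∈ Q, G.degree v := by
    have h3 : ∑ v ∈ Qᶜ, (G.neighborFinset v ∩ Q).card = ∑ v ∈ Q, (G.neighborFinset v ∩ Qᶜ).card := by
      have := Finset.sum_card_bipartiteAbove_eq_sum_card_bipartiteBelow (s := Qᶜ) (t := Q) G.Adj
      have e1 : ∀ v ∈ Qᶜ, (Finset.bipartiteAbove G.Adj Q v).card
          = (G.neighborFinset v ∩ Q).card := by
        intro v _
        congr 1
        ext x
        simp [Finset.bipartiteAbove, and_comm]
      have e2 : ∀ v ∈ Q, (Finset.bipartiteBelow G.Adj Qᶜ v).card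
          = (G.neighborFinset v ∩ Qᶜ).card := by
        intro v _
        congr 1
        ext x
        simp [Finset.bipartiteBelow, and_comm, G.adj_comm]
      rw [Finset.sum_congr rfl e1, Finset.sum_congr rfl e2] at this
      exact this
    rw [h3]
    apply Finset.sum_le_sum
    intro v _
    rw [← G.card_neighborFinset_eq_degree]
    exact Finset.card_le_card Finset.inter_subset_left
  have h4 : ∀ v, G.degree v = (G.neighborFinset v ∩ Q).card + (G.neighborFinset v \ Q).card := by
    intro v
    rw [← G.card_neighborFinset_eq_degree]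
    exact (Finset.card_inter_add_card_sdiff _ _).symm
  have h5 : ∑ v ∈ Qᶜ, G.degree v = ∑ v ∈ Qᶜ, (G.neighborFinset v ∩ Q).card
      + ∑ v ∈ Qᶜ, (G.neighborFinset v \ Q).card := by
    rw [← Finset.sum_add_distrib]
    exact Finset.sum_congr rfl (fun v _ => h4 v)
  rw [Finset.sum_add_distrib, ← Finset.mul_sum]
  omega

/-- vertices not adjacent to any element of `p` -/
def Exc (p : Finset V) : Finset V := Finset.univ.filter (fun u => ∀ x ∈ p, ¬ G.Adj x u)

lemma mem_Exc {p : Finset V} {u : V} : u ∈ Exc G p ↔ ∀ x ∈ p, ¬ G.Adj x u := by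
  simp [Exc]

/-- data of a would-be good graph -/
structure Good (n : ℕ) : Prop where
  card : Fintype.card V = n
  diam : ∀ u v : V, u = v ∨ G.Adj u v ∨ ∃ w, G.Adj u w ∧ G.Adj w v
  maxdeg : ∀ v : V, 5 * G.degree v ≤ 3 * n
  edges : 100 * ∑ v, G.degree v ≤ 482 * n
  large : 10 ^ 9 ≤ n

variable {G}

/-- hubs -/
def H (G : SimpleGraph V) [DecidableRel G.Adj] (n : ℕ) : Finset V :=
  Finset.univ.filter (fun v => n ≤ 100000 * G.degree v)

lemma mem_H {n : ℕ} {v : V} : v ∈ H G n ↔ n ≤ 100000 * G.degree v := by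
  simp [H]

lemma H_card {n : ℕ} (hG : Good G n) : (H G n).card ≤ 482000 := by
  have h1 : (H G n).card * n ≤ 100000 * ∑ v, G.degree v := by
    calc (H G n).card * n = ∑ _v ∈ H G n, n := by rw [Finset.sum_const, smul_eq_mul]
      _ ≤ ∑ v ∈ H G n, 100000 * G.degree v := Finset.sum_le_sum (fun v hv => mem_H.1 hv)
      _ ≤ ∑ v, 100000 * G.degree v :=
          Finset.sum_le_sum_of_subset (Finset.subset_univ _)
      _ = _ := by rw [Finset.mul_sum]
  have h2 := hG.edges
  have h3 := hG.large
  have h4 : (H G n).card * n ≤ 482000 * n := by omega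
  exact Nat.le_of_mul_le_mul_right h4 (by omega)

/-- hub neighbours -/
def S (G : SimpleGraph V) [DecidableRel G.Adj] (n : ℕ) (v : V) : Finset V :=
  G.neighborFinset v ∩ H G n

/-- light vertices -/
def Lt (G : SimpleGraph V) [DecidableRel G.Adj] (n : ℕ) : Finset V :=
  (H G n)ᶜ.filter (fun v => 2 * (S G n v).card + (G.neighborFinset v \ H G n).card ≤ 5)

lemma mem_Lt {n : ℕ} {v : V} : v ∈ Lt G n ↔ v ∉ H G n ∧
    2 * (S G n v).card + (G.neighborFinset v \ H G n).card ≤ 5 := by
  simp [Lt]

lemma light_exc {n : ℕ} (hG : Good G n) {v : V} (hv : v ∈ Lt G n) :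
    100000 * (Exc G (S G n v)).card ≤ 5 * n + 600000 := by
  rw [mem_Lt] at hv
  obtain ⟨hvH, hc⟩ := hv
  have hsub : Exc G (S G n v) ⊆ insert v (G.neighborFinset v) ∪
      (G.neighborFinset v \ H G n).biUnion (fun w => G.neighborFinset w) := by
    intro u hu
    rw [mem_Exc] at hu
    rcases hG.diam v u with h | h | ⟨w, h1, h2⟩
    · subst h
      simp
    · rw [Finset.mem_union]
      left
      rw [Finset.mem_insert]
      right
      rw [mem_neighborFinset]
      exact h
    · rw [Finset.mem_union]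
      right
      rw [Finset.mem_biUnion]
      refine ⟨w, ?_, by rw [mem_neighborFinset]; exact h2⟩
      rw [Finset.mem_sdiff, mem_neighborFinset]
      refine ⟨h1, ?_⟩
      intro hwH
      exact hu w (by unfold S; rw [Finset.mem_inter, mem_neighborFinset]; exact ⟨h1, hwH⟩) h2
  have h1 := Finset.card_le_card hsub
  have h2 : (insert v (G.neighborFinset v)).card ≤ 6 := by
    refine (Finset.card_insert_le _ _).trans ?_
    have : (G.neighborFinset v).card = (G.neighborFinset v ∩ H G n).card
        + (G.neighborFinset v \ H G n).card := (Finset.card_inter_add_card_sdiff _ _).symm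
    unfold S at hc
    omega
  have h3 : 100000 * ((G.neighborFinset v \ H G n).biUnion (fun w => G.neighborFinset w)).card
      ≤ 5 * n := by
    have h4 : ((G.neighborFinset v \ H G n).biUnion (fun w => G.neighborFinset w)).card
        ≤ ∑ w ∈ G.neighborFinset v \ H G n, G.degree w := by
      refine Finset.card_biUnion_le.trans ?_
      apply Finset.sum_le_sum
      intro w _
      rw [G.card_neighborFinset_eq_degree]
    calc 100000 * ((G.neighborFinset v \ H G n).biUnion (fun w => G.neighborFinset w)).card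
        ≤ 100000 * ∑ w ∈ G.neighborFinset v \ H G n, G.degree w := Nat.mul_le_mul_left _ h4
      _ = ∑ w ∈ G.neighborFinset v \ H G n, 100000 * G.degree w := by rw [Finset.mul_sum]
      _ ≤ ∑ _w ∈ G.neighborFinset v \ H G n, n := by
          apply Finset.sum_le_sum
          intro w hw
          rw [Finset.mem_sdiff, mem_H] at hw
          omega
      _ = (G.neighborFinset v \ H G n).card * n := by rw [Finset.sum_const, smul_eq_mul]
      _ ≤ 5 * n := Nat.mul_le_mul_right _ (by omega)
  have h5 := Finset.card_union_le (insert v (G.neighborFinset v))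
    ((G.neighborFinset v \ H G n).biUnion (fun w => G.neighborFinset w))
  omega

/-- covering: number of vertices outside `Exc p` is at most the sum of degrees. -/
lemma cover (p : Finset V) : Fintype.card V ≤ (Exc G p).card + ∑ x ∈ p, G.degree x := by
  have h1 : (Finset.univ : Finset V) ⊆ Exc G p ∪ p.biUnion (fun x => G.neighborFinset x) := by
    intro u _
    by_cases h : u ∈ Exc G p
    · exact Finset.mem_union_left _ h
    · apply Finset.mem_union_right
      rw [mem_Exc] at h
      push Not at h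
      obtain ⟨x, hx, hadj⟩ := h
      rw [Finset.mem_biUnion]
      exact ⟨x, hx, by rw [mem_neighborFinset]; exact hadj⟩
  have h2 := Finset.card_le_card h1
  rw [Finset.card_univ] at h2
  refine h2.trans ((Finset.card_union_le _ _).trans ?_)
  apply Nat.add_le_add_left
  refine Finset.card_biUnion_le.trans ?_
  apply Finset.sum_le_sum
  intro w _
  rw [G.card_neighborFinset_eq_degree]

lemma light_two {n : ℕ} (hG : Good G n) {v : V} (hv : v ∈ Lt G n) : (S G n v).card = 2 := by
  have h1 := light_exc hG hv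
  have h2 := cover (G := G) (S G n v)
  rw [mem_Lt] at hv
  have h3 := hv.2
  have h4 : 5 * ∑ x ∈ S G n v, G.degree x ≤ (S G n v).card * (3 * n) := by
    rw [Finset.mul_sum]
    calc ∑ x ∈ S G n v, 5 * G.degree x ≤ ∑ _x ∈ S G n v, 3 * n :=
          Finset.sum_le_sum (fun x _ => hG.maxdeg x)
      _ = _ := by rw [Finset.sum_const, smul_eq_mul]
  rw [hG.card] at h2
  have h5 := hG.large
  have h6 : (S G n v).card ≤ 2 := by omega
  interval_cases h : (S G n v).card
  · omega
  · omega
  · rfl

/-- The number of light vertices. -/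
lemma light_card {n : ℕ} (hG : Good G n) :
    6 * n ≤ 6 * (H G n).card + 2 * (Lt G n).card + ∑ v, G.degree v := by
  have h1 := edge_count G (H G n)
  have h2 : ∑ v ∈ (H G n)ᶜ, (if v ∈ Lt G n then 4 else 6)
      ≤ ∑ v ∈ (H G n)ᶜ, (2 * (G.neighborFinset v ∩ H G n).card
        + (G.neighborFinset v \ H G n).card) := by
    apply Finset.sum_le_sum
    intro v hv
    by_cases h : v ∈ Lt G n
    · rw [if_pos h]
      have := light_two hG h
      unfold S at this
      omega
    · rw [if_neg h]
      rw [mem_Lt] at h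
      rw [Finset.mem_compl] at hv
      unfold S at h
      by_contra hcon
      exact h ⟨hv, by omega⟩
  have h3 : ∑ v ∈ (H G n)ᶜ, (if v ∈ Lt G n then 4 else 6) + 2 * (Lt G n).card
      = 6 * (H G n)ᶜ.card := by
    have hsub : Lt G n ⊆ (H G n)ᶜ := Finset.filter_subset _ _
    have h4 : ∑ v ∈ (H G n)ᶜ, (if v ∈ Lt G n then 2 else 0) = 2 * (Lt G n).card := by
      rw [← Finset.sum_filter]
      have : (H G n)ᶜ.filter (fun v => v ∈ Lt G n) = Lt G n := by
        ext v
        simp only [Finset.mem_filter]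
        exact ⟨fun h => h.2, fun h => ⟨hsub h, h⟩⟩
      rw [this, Finset.sum_const, smul_eq_mul, mul_comm]
    rw [← h4, ← Finset.sum_add_distrib]
    have : ∀ v ∈ (H G n)ᶜ, ((if v ∈ Lt G n then 4 else 6) + (if v ∈ Lt G n then 2 else 0)) = 6 := by
      intro v _
      split_ifs <;> rfl
    rw [Finset.sum_congr rfl this, Finset.sum_const, smul_eq_mul, mul_comm]
  have h5 : (H G n)ᶜ.card = n - (H G n).card := by
    rw [Finset.card_compl, hG.card]
  have h6 : (H G n).card ≤ n := by
    rw [← hG.card]
    exact Finset.card_le_univ _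
  omega

/-- big hubs -/
def Bg (G : SimpleGraph V) [DecidableRel G.Adj] (n : ℕ) : Finset V :=
  Finset.univ.filter (fun v => 39 * n ≤ 100 * G.degree v)

lemma Bg_card {n : ℕ} (hG : Good G n) : (Bg G n).card ≤ 12 := by
  have h1 : (Bg G n).card * (39 * n) ≤ 100 * ∑ v, G.degree v := by
    calc (Bg G n).card * (39 * n) = ∑ _v ∈ Bg G n, 39 * n := by rw [Finset.sum_const, smul_eq_mul]
      _ ≤ ∑ v ∈ Bg G n, 100 * G.degree v :=
          Finset.sum_le_sum (fun v hv => by simpa [Bg] using hv)
      _ ≤ ∑ v, 100 * G.degree v :=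
          Finset.sum_le_sum_of_subset (Finset.subset_univ _)
      _ = _ := by rw [Finset.mul_sum]
  have h2 := hG.edges
  have h3 := hG.large
  by_contra hcon
  push Not at hcon
  have h4 : 13 * (39 * n) ≤ (Bg G n).card * (39 * n) := Nat.mul_le_mul_right _ hcon
  omega

lemma S_sub_Bg {n : ℕ} (hG : Good G n) {v : V} (hv : v ∈ Lt G n) : S G n v ⊆ Bg G n := by
  have h1 := light_exc hG hv
  have h2 := cover (G := G) (S G n v)
  obtain ⟨x, y, hxy, hS⟩ := Finset.card_eq_two.1 (light_two hG hv)
  rw [hS, Finset.sum_pair hxy, hG.card] at h2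
  rw [hS] at h1
  have hx := hG.maxdeg x
  have hy := hG.maxdeg y
  have hl := hG.large
  rw [hS]
  intro z hz
  simp only [Finset.mem_insert, Finset.mem_singleton] at hz
  rcases hz with rfl | rfl
  · simp only [Bg, Finset.mem_filter, Finset.mem_univ, true_and]
    omega
  · simp only [Bg, Finset.mem_filter, Finset.mem_univ, true_and]
    omega

/-- the light vertices of type `p`. -/
def Ty (G : SimpleGraph V) [DecidableRel G.Adj] (n : ℕ) (p : Finset V) : Finset V :=
  (Lt G n).filter (fun v => S G n v = p)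

lemma mem_Ty {n : ℕ} {p : Finset V} {v : V} : v ∈ Ty G n p ↔ v ∈ Lt G n ∧ S G n v = p := by
  simp [Ty]

/-- heavy types -/
def Hv (G : SimpleGraph V) [DecidableRel G.Adj] (n : ℕ) : Finset (Finset V) :=
  (Finset.powersetCard 2 (Bg G n)).filter (fun p => 5 * n + 600000 < 100000 * (Ty G n p).card)

lemma mem_Hv {n : ℕ} {p : Finset V} : p ∈ Hv G n ↔ (p ⊆ Bg G n ∧ p.card = 2) ∧
    5 * n + 600000 < 100000 * (Ty G n p).card := by
  simp [Hv, Finset.mem_powersetCard]

lemma heavy_sum {n : ℕ} (hG : Good G n) :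
    100000 * (Lt G n).card ≤ 100000 * (∑ p ∈ Hv G n, (Ty G n p).card) + 66 * (5 * n + 600000) := by
  have h1 : (Lt G n).card = ∑ p ∈ Finset.powersetCard 2 (Bg G n), (Ty G n p).card := by
    apply Finset.card_eq_sum_card_fiberwise
    intro v hv
    rw [Finset.mem_coe] at hv ⊢
    rw [Finset.mem_powersetCard]
    exact ⟨S_sub_Bg hG hv, light_two hG hv⟩
  rw [h1, ← Finset.sum_filter_add_sum_filter_not (Finset.powersetCard 2 (Bg G n))
    (fun p => 5 * n + 600000 < 100000 * (Ty G n p).card)]
  have h2 : 100000 * (∑ p ∈ (Finset.powersetCard 2 (Bg G n)).filter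
      (fun p => ¬ (5 * n + 600000 < 100000 * (Ty G n p).card)), (Ty G n p).card)
      ≤ 66 * (5 * n + 600000) := by
    rw [Finset.mul_sum]
    calc ∑ p ∈ (Finset.powersetCard 2 (Bg G n)).filter
          (fun p => ¬ (5 * n + 600000 < 100000 * (Ty G n p).card)), 100000 * (Ty G n p).card
        ≤ ∑ _p ∈ (Finset.powersetCard 2 (Bg G n)).filter
          (fun p => ¬ (5 * n + 600000 < 100000 * (Ty G n p).card)), (5 * n + 600000) := by
          apply Finset.sum_le_sum
          intro p hp
          rw [Finset.mem_filter] at hp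
          omega
      _ = ((Finset.powersetCard 2 (Bg G n)).filter
          (fun p => ¬ (5 * n + 600000 < 100000 * (Ty G n p).card))).card * (5 * n + 600000) := by
          rw [Finset.sum_const, smul_eq_mul]
      _ ≤ 66 * (5 * n + 600000) := by
          apply Nat.mul_le_mul_right
          refine (Finset.card_filter_le _ _).trans ?_
          rw [Finset.card_powersetCard]
          calc (Bg G n).card.choose 2 ≤ (12).choose 2 := Nat.choose_le_choose 2 (Bg_card hG)
            _ = 66 := by decide
  have h3 : ∑ p ∈ Hv G n, (Ty G n p).card = ∑ p ∈ (Finset.powersetCard 2 (Bg G n)).filter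
      (fun p => 5 * n + 600000 < 100000 * (Ty G n p).card), (Ty G n p).card := rfl
  rw [h3]
  omega

/-- heavy types have small exceptional set. -/
lemma heavy_exc {n : ℕ} (hG : Good G n) {p : Finset V} (hp : p ∈ Hv G n) :
    100000 * (Exc G p).card ≤ 5 * n + 600000 := by
  rw [mem_Hv] at hp
  have h1 : 0 < (Ty G n p).card := by omega
  obtain ⟨v, hv⟩ := Finset.card_pos.1 h1
  rw [mem_Ty] at hv
  rw [← hv.2]
  exact light_exc hG hv.1

lemma heavy_inter {n : ℕ} (hG : Good G n) {p q : Finset V} (hp : p ∈ Hv G n) (hq : q ∈ Hv G n) :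
    ∃ x, x ∈ p ∧ x ∈ q := by
  have h1 := heavy_exc hG hp
  have hq' := hq
  rw [mem_Hv] at hq'
  have h2 : ∃ u ∈ Ty G n q, u ∉ Exc G p := by
    by_contra hcon
    push Not at hcon
    have := Finset.card_le_card (show Ty G n q ⊆ Exc G p from hcon)
    omega
  obtain ⟨u, hu, hue⟩ := h2
  rw [mem_Exc] at hue
  push Not at hue
  obtain ⟨x, hx, hxu⟩ := hue
  refine ⟨x, hx, ?_⟩
  rw [mem_Ty] at hu
  rw [← hu.2]
  unfold S
  rw [Finset.mem_inter, mem_neighborFinset]
  refine ⟨hxu.symm, ?_⟩
  -- x ∈ p = S v for some light v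
  have h3 : 0 < (Ty G n p).card := by
    rw [mem_Hv] at hp; omega
  obtain ⟨v, hv⟩ := Finset.card_pos.1 h3
  rw [mem_Ty] at hv
  rw [← hv.2] at hx
  unfold S at hx
  exact (Finset.mem_inter.1 hx).2

lemma heavy_subset_H {n : ℕ} {p : Finset V} (hp : p ∈ Hv G n) : p ⊆ H G n := by
  have h3 : 0 < (Ty G n p).card := by
    rw [mem_Hv] at hp; omega
  obtain ⟨v, hv⟩ := Finset.card_pos.1 h3
  rw [mem_Ty] at hv
  rw [← hv.2]
  exact Finset.inter_subset_right

lemma no_triangle {n : ℕ} (hG : Good G n) {x y z : V} (h1 : {x, y} ∈ Hv G n)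
    (h2 : {y, z} ∈ Hv G n) (h3 : {x, z} ∈ Hv G n) : False := by
  have e1 := heavy_exc hG h1
  have e2 := heavy_exc hG h2
  have e3 := heavy_exc hG h3
  have key : 2 * Fintype.card V ≤ 2 * ((Exc G {x, y}).card + (Exc G {y, z}).card
      + (Exc G {x, z}).card) + (G.degree x + G.degree y + G.degree z) := by
    have hx : ∀ a : V, G.degree a = ∑ u, (if G.Adj a u then 1 else 0) := by
      intro a
      rw [← G.card_neighborFinset_eq_degree, ← Finset.card_filter]
      congr 1
      ext u
      simp
    have hE : ∀ p : Finset V, (Exc G p).card = ∑ u, (if u ∈ Exc G p then 1 else 0) := by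
      intro p
      rw [← Finset.card_filter]
      congr 1
      ext u
      simp
    rw [hx x, hx y, hx z, hE, hE, hE, ← Finset.sum_add_distrib, ← Finset.sum_add_distrib,
      ← Finset.sum_add_distrib, ← Finset.sum_add_distrib, Finset.mul_sum, ← Finset.sum_add_distrib]
    have : 2 * Fintype.card V = ∑ _u : V, 2 := by
      rw [Finset.sum_const, Finset.card_univ, smul_eq_mul, mul_comm]
    rw [this]
    apply Finset.sum_le_sum
    intro u _
    by_cases c1 : G.Adj x u <;> by_cases c2 : G.Adj y u <;> by_cases c3 : G.Adj z u <;>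
      simp [mem_Exc, c1, c2, c3]
  have hx := hG.maxdeg x
  have hy := hG.maxdeg y
  have hz := hG.maxdeg z
  have hl := hG.large
  rw [hG.card] at key
  omega

/-- all heavy types share a vertex. -/
lemma exists_center {n : ℕ} (hG : Good G n) : ∃ a : V, ∀ p ∈ Hv G n, a ∈ p := by
  have hne : (Hv G n).Nonempty := by
    rw [Finset.nonempty_iff_ne_empty]
    intro h
    have h1 := heavy_sum hG
    have h2 := light_card hG
    have h3 := H_card hG
    have h4 := hG.edges
    have h5 := hG.large
    rw [h] at h1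
    simp at h1
    omega
  obtain ⟨p, hp⟩ := hne
  have hp2 := (mem_Hv.1 hp).1.2
  obtain ⟨x, y, hxy, rfl⟩ := Finset.card_eq_two.1 hp2
  by_cases hx : ∀ p ∈ Hv G n, x ∈ p
  · exact ⟨x, hx⟩
  by_cases hy : ∀ p ∈ Hv G n, y ∈ p
  · exact ⟨y, hy⟩
  exfalso
  push Not at hx hy
  obtain ⟨q1, hq1, hxq1⟩ := hx
  obtain ⟨q2, hq2, hyq2⟩ := hy
  have hyq1 : y ∈ q1 := by
    obtain ⟨w, hw1, hw2⟩ := heavy_inter hG hp hq1
    simp only [Finset.mem_insert, Finset.mem_singleton] at hw1
    rcases hw1 with rfl | rfl
    · exact absurd hw2 hxq1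
    · exact hw2
  have hxq2 : x ∈ q2 := by
    obtain ⟨w, hw1, hw2⟩ := heavy_inter hG hp hq2
    simp only [Finset.mem_insert, Finset.mem_singleton] at hw1
    rcases hw1 with rfl | rfl
    · exact hw2
    · exact absurd hw2 hyq2
  obtain ⟨z, hz1, hz2⟩ := heavy_inter hG hq1 hq2
  have hzy : z ≠ y := by rintro rfl; exact hyq2 hz2
  have hzx : z ≠ x := by rintro rfl; exact hxq1 hz1
  have e1 : q1 = {y, z} := by
    have hc := (mem_Hv.1 hq1).1.2
    symm
    apply Finset.eq_of_subset_of_card_le
    · intro w hw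
      simp only [Finset.mem_insert, Finset.mem_singleton] at hw
      rcases hw with rfl | rfl
      · exact hyq1
      · exact hz1
    · rw [hc, Finset.card_pair hzy.symm]
  have e2 : q2 = {x, z} := by
    have hc := (mem_Hv.1 hq2).1.2
    symm
    apply Finset.eq_of_subset_of_card_le
    · intro w hw
      simp only [Finset.mem_insert, Finset.mem_singleton] at hw
      rcases hw with rfl | rfl
      · exact hxq2
      · exact hz2
    · rw [hc, Finset.card_pair hzx.symm]
  subst e1 e2
  exact no_triangle hG hp hq1 hq2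

end Pool.Agent.H891R3.Diam2
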