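import Pool.Agent.H891R3.Diam2

set_option autoImplicit false

namespace Pool.Agent.H891R3.Diam2

open SimpleGraph Finset

variable {V : Type} [Fintype V] [DecidableEq V] {G : SimpleGraph V} [DecidableRel G.Adj]

/-- leaves of the star of heavy types -/
def Bs (G : SimpleGraph V) [DecidableRel G.Adj] (n : ℕ) (a : V) : Finset V :=
  Finset.univ.filter (fun b => b ≠ a ∧ ({a, b} : Finset V) ∈ Hv G n)

lemma mem_Bs {n : ℕ} {a b : V} : b ∈ Bs G n a ↔ b ≠ a ∧ ({a, b} : Finset V) ∈ Hv G n := by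
  simp [Bs]

lemma Hv_eq {n : ℕ} {a : V} (ha : ∀ p ∈ Hv G n, a ∈ p) :
    Hv G n = (Bs G n a).image (fun b => ({a, b} : Finset V)) := by
  ext p
  rw [Finset.mem_image]
  constructor
  · intro hp
    have hap := ha p hp
    have hc := (mem_Hv.1 hp).1.2
    obtain ⟨x, y, hxy, rfl⟩ := Finset.card_eq_two.1 hc
    simp only [Finset.mem_insert, Finset.mem_singleton] at hap
    rcases hap with rfl | rfl
    · exact ⟨y, mem_Bs.2 ⟨hxy.symm, hp⟩, rfl⟩
    · refine ⟨x, mem_Bs.2 ⟨hxy, by rw [Finset.pair_comm]; exact hp⟩, Finset.pair_comm _ _⟩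
  · rintro ⟨b, hb, rfl⟩
    exact (mem_Bs.1 hb).2

lemma pair_inj {a b c : V} (hb : b ≠ a) (h : ({a, b} : Finset V) = {a, c}) : b = c := by
  have : b ∈ ({a, c} : Finset V) := by rw [← h]; simp
  simp only [Finset.mem_insert, Finset.mem_singleton] at this
  rcases this with h | h
  · exact absurd h hb
  · exact h

lemma sum_Hv {n : ℕ} {a : V} (ha : ∀ p ∈ Hv G n, a ∈ p) :
    ∑ p ∈ Hv G n, (Ty G n p).card = ∑ b ∈ Bs G n a, (Ty G n {a, b}).card := by
  rw [Hv_eq ha, Finset.sum_image]
  intro b hb c _ h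
  exact pair_inj (mem_Bs.1 hb).1 h

lemma Ty_adj {n : ℕ} {p : Finset V} {v x : V} (hv : v ∈ Ty G n p) (hx : x ∈ p) : G.Adj x v := by
  rw [mem_Ty] at hv
  rw [← hv.2] at hx
  unfold S at hx
  rw [Finset.mem_inter, mem_neighborFinset] at hx
  exact hx.1.symm

lemma Ty_notH {n : ℕ} {p : Finset V} {v : V} (hv : v ∈ Ty G n p) : v ∉ H G n :=
  (mem_Lt.1 (mem_Ty.1 hv).1).1

lemma deg_leaf {n : ℕ} (hG : Good G n) {a b : V} :
    (Ty G n {a, b}).card + n ≤ G.degree a + G.degree b + (Exc G {a, b}).card := by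
  have h1 : (G.neighborFinset a)ᶜ ⊆ Exc G {a, b} ∪ (G.neighborFinset b \ G.neighborFinset a) := by
    intro u hu
    rw [Finset.mem_compl, mem_neighborFinset] at hu
    by_cases hb : G.Adj b u
    · apply Finset.mem_union_right
      rw [Finset.mem_sdiff, mem_neighborFinset, mem_neighborFinset]
      exact ⟨hb, hu⟩
    · apply Finset.mem_union_left
      rw [mem_Exc]
      intro x hx
      simp only [Finset.mem_insert, Finset.mem_singleton] at hx
      rcases hx with rfl | rfl
      · exact hu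
      · exact hb
  have h2 : Ty G n {a, b} ⊆ G.neighborFinset b ∩ G.neighborFinset a := by
    intro u hu
    rw [Finset.mem_inter, mem_neighborFinset, mem_neighborFinset]
    exact ⟨Ty_adj hu (by simp), Ty_adj hu (by simp)⟩
  have h3 := (Finset.card_le_card h1).trans (Finset.card_union_le _ _)
  have h4 := Finset.card_le_card h2
  have h5 := Finset.card_inter_add_card_sdiff (G.neighborFinset b) (G.neighborFinset a)
  rw [G.card_neighborFinset_eq_degree] at h5
  rw [Finset.card_compl, hG.card, G.card_neighborFinset_eq_degree] at h3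
  have h6 : G.degree a ≤ n := by
    have := hG.maxdeg a
    omega
  omega

lemma Ty_card_le {n : ℕ} (hG : Good G n) {a b : V} (hb : b ∈ Bs G n a) :
    100000 * (Ty G n {a, b}).card ≤ 20005 * n + 600000 := by
  have h1 := deg_leaf hG (a := a) (b := b)
  have h2 := heavy_exc hG (mem_Bs.1 hb).2
  have h3 := hG.maxdeg a
  have h4 := hG.maxdeg b
  omega

/-- total number of light vertices of heavy type -/
lemma total_ge {n : ℕ} (hG : Good G n) {a : V} (ha : ∀ p ∈ Hv G n, a ∈ p) :
    58400 * n ≤ 100000 * ∑ b ∈ Bs G n a, (Ty G n {a, b}).card := by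
  have h1 := heavy_sum hG
  rw [sum_Hv ha] at h1
  have h2 := light_card hG
  have h3 := H_card hG
  have h4 := hG.edges
  have h5 := hG.large
  omega

lemma Bs_card_ge {n : ℕ} (hG : Good G n) {a : V} (ha : ∀ p ∈ Hv G n, a ∈ p) :
    3 ≤ (Bs G n a).card := by
  by_contra hcon
  push Not at hcon
  have h1 := total_ge hG ha
  have h2 : 100000 * ∑ b ∈ Bs G n a, (Ty G n {a, b}).card
      ≤ (Bs G n a).card * (20005 * n + 600000) := by
    rw [Finset.mul_sum, ← smul_eq_mul, ← Finset.sum_const]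
    exact Finset.sum_le_sum (fun b hb => Ty_card_le hG hb)
  have h3 : (Bs G n a).card * (20005 * n + 600000) ≤ 2 * (20005 * n + 600000) :=
    Nat.mul_le_mul_right _ (by omega)
  have h5 := hG.large
  omega

lemma Bs_card_le {n : ℕ} (hG : Good G n) {a : V} :
    (Bs G n a).card ≤ 3 := by
  by_contra hcon
  push Not at hcon
  obtain ⟨B, hBsub, hBcard⟩ := Finset.exists_subset_card_eq (show 4 ≤ (Bs G n a).card by omega)
  have hH := H_card hG
  have hl := hG.large
  have he := hG.edges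
  -- the set Y
  set Y : Finset V := (H G n)ᶜ.filter (fun v => B ⊆ G.neighborFinset v) with hY
  have h1 : (Finset.univ : Finset V) ⊆ Y ∪ (H G n ∪ (G.neighborFinset a ∪
      B.biUnion (fun b => Exc G {a, b}))) := by
    intro v _
    by_cases hvH : v ∈ H G n
    · simp [hvH]
    by_cases hva : G.Adj a v
    · simp [hva]
    by_cases hvB : B ⊆ G.neighborFinset v
    · apply Finset.mem_union_left
      rw [hY, Finset.mem_filter, Finset.mem_compl]
      exact ⟨hvH, hvB⟩
    · rw [Finset.not_subset] at hvB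
      obtain ⟨b, hb, hbv⟩ := hvB
      rw [mem_neighborFinset] at hbv
      apply Finset.mem_union_right
      apply Finset.mem_union_right
      apply Finset.mem_union_right
      rw [Finset.mem_biUnion]
      refine ⟨b, hb, ?_⟩
      rw [mem_Exc]
      intro x hx
      simp only [Finset.mem_insert, Finset.mem_singleton] at hx
      rcases hx with rfl | rfl
      · exact hva
      · exact fun h => hbv h.symm
  have h2 : 100000 * (B.biUnion (fun b => Exc G {a, b})).card ≤ 4 * (5 * n + 600000) := by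
    calc 100000 * (B.biUnion (fun b => Exc G {a, b})).card
        ≤ 100000 * ∑ b ∈ B, (Exc G {a, b}).card := Nat.mul_le_mul_left _ Finset.card_biUnion_le
      _ = ∑ b ∈ B, 100000 * (Exc G {a, b}).card := by rw [Finset.mul_sum]
      _ ≤ ∑ _b ∈ B, (5 * n + 600000) := by
          apply Finset.sum_le_sum
          intro b hb
          exact heavy_exc hG (mem_Bs.1 (hBsub hb)).2
      _ = 4 * (5 * n + 600000) := by rw [Finset.sum_const, smul_eq_mul, hBcard]
  have h3 := Finset.card_le_card h1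
  rw [Finset.card_univ, hG.card] at h3
  have h4 := Finset.card_union_le Y (H G n ∪ (G.neighborFinset a ∪
      B.biUnion (fun b => Exc G {a, b})))
  have h5 := Finset.card_union_le (H G n) (G.neighborFinset a ∪
      B.biUnion (fun b => Exc G {a, b}))
  have h6 := Finset.card_union_le (G.neighborFinset a) (B.biUnion (fun b => Exc G {a, b}))
  rw [G.card_neighborFinset_eq_degree] at h6
  have h7 := hG.maxdeg a
  -- edges
  have hBH : B ⊆ H G n := by
    intro b hb
    exact heavy_subset_H (mem_Bs.1 (hBsub hb)).2 (by simp)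
  have h8 := edge_count G (H G n)
  have h9 : ∑ v ∈ (H G n)ᶜ, (4 + (if v ∈ Y then 4 else 0))
      ≤ ∑ v ∈ (H G n)ᶜ, (2 * (G.neighborFinset v ∩ H G n).card
        + (G.neighborFinset v \ H G n).card) := by
    apply Finset.sum_le_sum
    intro v hv
    rw [Finset.mem_compl] at hv
    by_cases hvY : v ∈ Y
    · rw [if_pos hvY]
      rw [hY, Finset.mem_filter] at hvY
      have : B ⊆ G.neighborFinset v ∩ H G n := Finset.subset_inter hvY.2 hBH
      have := Finset.card_le_card this
      omega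
    · rw [if_neg hvY]
      by_cases hvL : v ∈ Lt G n
      · have := light_two hG hvL
        unfold S at this
        omega
      · rw [mem_Lt] at hvL
        unfold S at hvL
        by_contra hcon2
        exact hvL ⟨hv, by omega⟩
  have h10 : ∑ v ∈ (H G n)ᶜ, (4 + (if v ∈ Y then 4 else 0)) = 4 * (H G n)ᶜ.card + 4 * Y.card := by
    rw [Finset.sum_add_distrib, Finset.sum_const, smul_eq_mul, ← Finset.sum_filter]
    have : (H G n)ᶜ.filter (fun v => v ∈ Y) = Y := by
      ext v
      simp only [Finset.mem_filter]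
      exact ⟨fun h => h.2, fun h => ⟨(Finset.mem_filter.1 h).1, h⟩⟩
    rw [this, Finset.sum_const, smul_eq_mul]
    ring
  have h11 : (H G n)ᶜ.card = n - (H G n).card := by
    rw [Finset.card_compl, hG.card]
  have h12 : (H G n).card ≤ n := by
    rw [← hG.card]
    exact Finset.card_le_univ _
  omega

/-- The structure: a centre and three leaves. -/
structure Star (G : SimpleGraph V) [DecidableRel G.Adj] (n : ℕ) (a b₁ b₂ b₃ : V) : Prop where
  h12 : b₁ ≠ b₂
  h13 : b₁ ≠ b₃
  h23 : b₂ ≠ b₃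
  m1 : b₁ ∈ Bs G n a
  m2 : b₂ ∈ Bs G n a
  m3 : b₃ ∈ Bs G n a
  tot : 58400 * n ≤ 100000 * ((Ty G n {a, b₁}).card + (Ty G n {a, b₂}).card
    + (Ty G n {a, b₃}).card)

lemma exists_star {n : ℕ} (hG : Good G n) : ∃ a b₁ b₂ b₃ : V, Star G n a b₁ b₂ b₃ := by
  obtain ⟨a, ha⟩ := exists_center hG
  have h1 := Bs_card_ge hG ha
  have h2 := Bs_card_le hG (a := a)
  obtain ⟨b₁, b₂, b₃, h12, h13, h23, hB⟩ := Finset.card_eq_three.1 (le_antisymm h2 h1)
  refine ⟨a, b₁, b₂, b₃, h12, h13, h23, by rw [hB]; simp, by rw [hB]; simp, by rw [hB]; simp, ?_⟩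
  have h3 := total_ge hG ha
  rw [hB, Finset.sum_insert (by simp [h12, h13]), Finset.sum_pair h23] at h3
  omega

section star

variable {n : ℕ} {a b₁ b₂ b₃ : V}

lemma Star.swap12 (hS : Star G n a b₁ b₂ b₃) : Star G n a b₂ b₁ b₃ :=
  ⟨hS.h12.symm, hS.h23, hS.h13, hS.m2, hS.m1, hS.m3, by have := hS.tot; omega⟩

lemma Star.swap23 (hS : Star G n a b₁ b₂ b₃) : Star G n a b₁ b₃ b₂ :=
  ⟨hS.h13, hS.h12, hS.h23.symm, hS.m1, hS.m3, hS.m2, by have := hS.tot; omega⟩

/-- the set of the four main hubs -/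
def Q4 (a b₁ b₂ b₃ : V) : Finset V := {a, b₁, b₂, b₃}

/-- vertices joined to all leaves but not to the centre -/
def T0 (G : SimpleGraph V) [DecidableRel G.Adj] (a b₁ b₂ b₃ : V) : Finset V :=
  (Q4 a b₁ b₂ b₃)ᶜ.filter (fun v => ¬ G.Adj a v ∧ G.Adj b₁ v ∧ G.Adj b₂ v ∧ G.Adj b₃ v)

lemma Q4_card_le (a b₁ b₂ b₃ : V) : (Q4 a b₁ b₂ b₃).card ≤ 4 := by
  unfold Q4
  exact Finset.card_le_four

lemma Q4_sub_H (hS : Star G n a b₁ b₂ b₃) : Q4 a b₁ b₂ b₃ ⊆ H G n := by
  intro x hx
  unfold Q4 at hx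
  simp only [Finset.mem_insert, Finset.mem_singleton] at hx
  rcases hx with rfl | rfl | rfl | rfl
  · exact heavy_subset_H (mem_Bs.1 hS.m1).2 (by simp)
  · exact heavy_subset_H (mem_Bs.1 hS.m1).2 (by simp)
  · exact heavy_subset_H (mem_Bs.1 hS.m2).2 (by simp)
  · exact heavy_subset_H (mem_Bs.1 hS.m3).2 (by simp)

lemma T0_card (hG : Good G n) (hS : Star G n a b₁ b₂ b₃) :
    39900 * n ≤ 100000 * (T0 G a b₁ b₂ b₃).card := by
  have h1 : (Finset.univ : Finset V) ⊆ T0 G a b₁ b₂ b₃ ∪ (Q4 a b₁ b₂ b₃ ∪ (G.neighborFinset a ∪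
      (Exc G {a, b₁} ∪ (Exc G {a, b₂} ∪ Exc G {a, b₃})))) := by
    intro v _
    by_cases hvQ : v ∈ Q4 a b₁ b₂ b₃
    · simp [hvQ]
    by_cases hva : G.Adj a v
    · simp [hva]
    by_cases c1 : G.Adj b₁ v
    · by_cases c2 : G.Adj b₂ v
      · by_cases c3 : G.Adj b₃ v
        · apply Finset.mem_union_left
          unfold T0
          rw [Finset.mem_filter, Finset.mem_compl]
          exact ⟨hvQ, hva, c1, c2, c3⟩
        · have : v ∈ Exc G {a, b₃} := by
            rw [mem_Exc]; intro x hx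
            simp only [Finset.mem_insert, Finset.mem_singleton] at hx
            rcases hx with rfl | rfl
            · exact hva
            · exact c3
          simp [this]
      · have : v ∈ Exc G {a, b₂} := by
          rw [mem_Exc]; intro x hx
          simp only [Finset.mem_insert, Finset.mem_singleton] at hx
          rcases hx with rfl | rfl
          · exact hva
          · exact c2
        simp [this]
    · have : v ∈ Exc G {a, b₁} := by
        rw [mem_Exc]; intro x hx
        simp only [Finset.mem_insert, Finset.mem_singleton] at hx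
        rcases hx with rfl | rfl
        · exact hva
        · exact c1
      simp [this]
  have h2 := Finset.card_le_card h1
  rw [Finset.card_univ, hG.card] at h2
  have h3 := Finset.card_union_le (T0 G a b₁ b₂ b₃) (Q4 a b₁ b₂ b₃ ∪ (G.neighborFinset a ∪
      (Exc G {a, b₁} ∪ (Exc G {a, b₂} ∪ Exc G {a, b₃}))))
  have h4 := Finset.card_union_le (Q4 a b₁ b₂ b₃) (G.neighborFinset a ∪
      (Exc G {a, b₁} ∪ (Exc G {a, b₂} ∪ Exc G {a, b₃})))
  have h5 := Finset.card_union_le (G.neighborFinset a)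
      (Exc G {a, b₁} ∪ (Exc G {a, b₂} ∪ Exc G {a, b₃}))
  have h6 := Finset.card_union_le (Exc G {a, b₁}) (Exc G {a, b₂} ∪ Exc G {a, b₃})
  have h7 := Finset.card_union_le (Exc G {a, b₂}) (Exc G {a, b₃})
  rw [G.card_neighborFinset_eq_degree] at h5
  have e1 := heavy_exc hG (mem_Bs.1 hS.m1).2
  have e2 := heavy_exc hG (mem_Bs.1 hS.m2).2
  have e3 := heavy_exc hG (mem_Bs.1 hS.m3).2
  have h8 := hG.maxdeg a
  have h9 := Q4_card_le a b₁ b₂ b₃
  have hl := hG.large
  omega

lemma T1_card (hG : Good G n) (hS : Star G n a b₁ b₂ b₃) :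
    18000 * n ≤ 100000 * (Ty G n {a, b₁}).card := by
  have h1 := hS.tot
  have h2 := Ty_card_le hG hS.m2
  have h3 := Ty_card_le hG hS.m3
  have hl := hG.large
  omega

/-- a large set outside the four hubs contains a vertex with all its neighbours among
the four hubs. -/
lemma exists_pure (hG : Good G n) (hS : Star G n a b₁ b₂ b₃) (U : Finset V)
    (hU : U ⊆ (Q4 a b₁ b₂ b₃)ᶜ) (hUc : 15000 * n ≤ 100000 * U.card) :
    ∃ u ∈ U, G.neighborFinset u ⊆ Q4 a b₁ b₂ b₃ := by
  by_contra hcon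
  push Not at hcon
  have hQH := Q4_sub_H hS
  have ha1 := (mem_Bs.1 hS.m1).1
  have ha2 := (mem_Bs.1 hS.m2).1
  have ha3 := (mem_Bs.1 hS.m3).1
  have hT : ∀ b, Ty G n {a, b} ⊆ (Q4 a b₁ b₂ b₃)ᶜ := by
    intro b v hv
    rw [Finset.mem_compl]
    intro hvQ
    exact Ty_notH hv (hQH hvQ)
  have h1 := edge_count G (Q4 a b₁ b₂ b₃)
  have h2 : ∑ v ∈ (Q4 a b₁ b₂ b₃)ᶜ, ((if v ∈ Ty G n {a, b₁} then 4 else 0)
      + (if v ∈ Ty G n {a, b₂} then 4 else 0) + (if v ∈ Ty G n {a, b₃} then 4 else 0)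
      + (if v ∈ T0 G a b₁ b₂ b₃ then 6 else 0) + (if v ∈ U then 1 else 0))
      ≤ ∑ v ∈ (Q4 a b₁ b₂ b₃)ᶜ, (2 * (G.neighborFinset v ∩ Q4 a b₁ b₂ b₃).card
        + (G.neighborFinset v \ Q4 a b₁ b₂ b₃).card) := by
    apply Finset.sum_le_sum
    intro v hv
    have hUv : (if v ∈ U then 1 else 0) ≤ (G.neighborFinset v \ Q4 a b₁ b₂ b₃).card := by
      split_ifs with h
      · have := hcon v h
        rw [Finset.not_subset] at this
        obtain ⟨x, hx1, hx2⟩ := this
        exact Finset.card_pos.2 ⟨x, Finset.mem_sdiff.2 ⟨hx1, hx2⟩⟩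
      · exact Nat.zero_le _
    have hTv : ∀ b, b ∈ Q4 a b₁ b₂ b₃ → b ≠ a → v ∈ Ty G n {a, b} →
        2 ≤ (G.neighborFinset v ∩ Q4 a b₁ b₂ b₃).card := by
      intro b hbQ hba hvb
      have : ({a, b} : Finset V) ⊆ G.neighborFinset v ∩ Q4 a b₁ b₂ b₃ := by
        intro x hx
        rw [Finset.mem_inter, mem_neighborFinset]
        refine ⟨(Ty_adj hvb hx).symm, ?_⟩
        simp only [Finset.mem_insert, Finset.mem_singleton] at hx
        rcases hx with rfl | rfl
        · unfold Q4; simp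
        · exact hbQ
      have := Finset.card_le_card this
      rw [Finset.card_pair hba.symm] at this
      exact this
    have n12 : v ∈ Ty G n {a, b₁} → v ∉ Ty G n {a, b₂} := by
      intro h h'
      have e := (mem_Ty.1 h).2.symm.trans (mem_Ty.1 h').2
      exact hS.h12 (pair_inj ha1 e)
    have n13 : v ∈ Ty G n {a, b₁} → v ∉ Ty G n {a, b₃} := by
      intro h h'
      have e := (mem_Ty.1 h).2.symm.trans (mem_Ty.1 h').2
      exact hS.h13 (pair_inj ha1 e)
    have n23 : v ∈ Ty G n {a, b₂} → v ∉ Ty G n {a, b₃} := by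
      intro h h'
      have e := (mem_Ty.1 h).2.symm.trans (mem_Ty.1 h').2
      exact hS.h23 (pair_inj ha2 e)
    have nT0 : ∀ b, v ∈ Ty G n {a, b} → v ∉ T0 G a b₁ b₂ b₃ := by
      intro b h h'
      unfold T0 at h'
      exact (Finset.mem_filter.1 h').2.1 (Ty_adj h (by simp))
    have hT0v : v ∈ T0 G a b₁ b₂ b₃ → 3 ≤ (G.neighborFinset v ∩ Q4 a b₁ b₂ b₃).card := by
      intro h
      unfold T0 at h
      obtain ⟨_, _, c1, c2, c3⟩ := Finset.mem_filter.1 h
      have : ({b₁, b₂, b₃} : Finset V) ⊆ G.neighborFinset v ∩ Q4 a b₁ b₂ b₃ := by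
        intro x hx
        rw [Finset.mem_inter, mem_neighborFinset]
        simp only [Finset.mem_insert, Finset.mem_singleton] at hx
        rcases hx with rfl | rfl | rfl
        · exact ⟨c1.symm, by unfold Q4; simp⟩
        · exact ⟨c2.symm, by unfold Q4; simp⟩
        · exact ⟨c3.symm, by unfold Q4; simp⟩
      have := Finset.card_le_card this
      rw [Finset.card_eq_three.2 ⟨b₁, b₂, b₃, hS.h12, hS.h13, hS.h23, rfl⟩] at this
      exact this
    by_cases t1 : v ∈ Ty G n {a, b₁}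
    · have := hTv b₁ (by unfold Q4; simp) ha1 t1
      simp only [t1, n12 t1, n13 t1, nT0 _ t1, if_true, if_false]
      omega
    by_cases t2 : v ∈ Ty G n {a, b₂}
    · have := hTv b₂ (by unfold Q4; simp) ha2 t2
      simp only [t1, t2, n23 t2, nT0 _ t2, if_true, if_false]
      omega
    by_cases t3 : v ∈ Ty G n {a, b₃}
    · have := hTv b₃ (by unfold Q4; simp) ha3 t3
      simp only [t1, t2, t3, nT0 _ t3, if_true, if_false]
      omega
    by_cases t0 : v ∈ T0 G a b₁ b₂ b₃
    · have := hT0v t0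
      simp only [t1, t2, t3, t0, if_true, if_false]
      omega
    · simp only [t1, t2, t3, t0, if_false]
      omega
  have hind : ∀ (X : Finset V) (k : ℕ), X ⊆ (Q4 a b₁ b₂ b₃)ᶜ →
      ∑ v ∈ (Q4 a b₁ b₂ b₃)ᶜ, (if v ∈ X then k else 0) = k * X.card := by
    intro X k hX
    rw [← Finset.sum_filter]
    have : (Q4 a b₁ b₂ b₃)ᶜ.filter (fun v => v ∈ X) = X := by
      ext v
      simp only [Finset.mem_filter]
      exact ⟨fun h => h.2, fun h => ⟨hX h, h⟩⟩
    rw [this, Finset.sum_const, smul_eq_mul, mul_comm]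
  rw [Finset.sum_add_distrib, Finset.sum_add_distrib, Finset.sum_add_distrib,
    Finset.sum_add_distrib, hind _ _ (hT b₁), hind _ _ (hT b₂), hind _ _ (hT b₃),
    hind (T0 G a b₁ b₂ b₃) 6 (Finset.filter_subset _ _), hind _ _ hU] at h2
  have h3 := hS.tot
  have h4 := T0_card hG hS
  have h5 := hG.edges
  have h6 := hG.large
  omega

end star

end Pool.Agent.H891R3.Diam2
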