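import Pool.Agent.H891R3.Diam2b

set_option autoImplicit false

namespace Pool.Agent.H891R3.Diam2

open SimpleGraph Finset

variable {V : Type} [Fintype V] [DecidableEq V] {G : SimpleGraph V} [DecidableRel G.Adj]

section star

variable {n : ℕ} {a b₁ b₂ b₃ : V}

/-- there is a vertex whose neighbours are exactly among `a, b₁`. -/
lemma pure1 (hG : Good G n) (hS : Star G n a b₁ b₂ b₃) :
    ∃ u, u ∉ Q4 a b₁ b₂ b₃ ∧ G.Adj a u ∧ ∀ x, G.Adj x u → x = a ∨ x = b₁ := by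
  have h1 := T1_card hG hS
  have hl := hG.large
  obtain ⟨u, hu, hN⟩ := exists_pure hG hS (Ty G n {a, b₁}) (by
    intro v hv
    rw [Finset.mem_compl]
    intro hvQ
    exact Ty_notH hv (Q4_sub_H hS hvQ)) (by omega)
  refine ⟨u, ?_, Ty_adj hu (by simp), ?_⟩
  · intro hQ
    exact Ty_notH hu (Q4_sub_H hS hQ)
  · intro x hx
    have hxN : x ∈ G.neighborFinset u := by rw [mem_neighborFinset]; exact hx.symm
    have hxQ := hN hxN
    have hxS : x ∈ S G n u := by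
      unfold S
      rw [Finset.mem_inter]
      exact ⟨hxN, Q4_sub_H hS hxQ⟩
    rw [(mem_Ty.1 hu).2] at hxS
    simpa using hxS

lemma pure0 (hG : Good G n) (hS : Star G n a b₁ b₂ b₃) :
    ∃ u, u ∉ Q4 a b₁ b₂ b₃ ∧ ¬ G.Adj a u ∧ G.Adj b₁ u ∧ G.Adj b₂ u ∧ G.Adj b₃ u ∧
      ∀ x, G.Adj x u → x = b₁ ∨ x = b₂ ∨ x = b₃ := by
  have h1 := T0_card hG hS
  have hl := hG.large
  obtain ⟨u, hu, hN⟩ := exists_pure hG hS (T0 G a b₁ b₂ b₃) (Finset.filter_subset _ _) (by omega)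
  unfold T0 at hu
  rw [Finset.mem_filter, Finset.mem_compl] at hu
  obtain ⟨huQ, hua, c1, c2, c3⟩ := hu
  refine ⟨u, huQ, hua, c1, c2, c3, ?_⟩
  intro x hx
  have hxN : x ∈ G.neighborFinset u := by rw [mem_neighborFinset]; exact hx.symm
  have hxQ := hN hxN
  unfold Q4 at hxQ
  simp only [Finset.mem_insert, Finset.mem_singleton] at hxQ
  rcases hxQ with rfl | h
  · exact absurd hx hua
  · exact h

/-- a vertex outside the hubs that is not joined to `a` is joined to `b₁`. -/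
lemma out1 (hG : Good G n) (hS : Star G n a b₁ b₂ b₃) {v : V} (hv : v ∉ Q4 a b₁ b₂ b₃)
    (hva : ¬ G.Adj a v) : G.Adj b₁ v := by
  obtain ⟨u, huQ, hua, hN⟩ := pure1 hG hS
  rcases hG.diam v u with h | h | ⟨w, h1, h2⟩
  · subst h; exact absurd hua hva
  · exfalso
    rcases hN v h with rfl | rfl
    · exact hv (by unfold Q4; simp)
    · exact hv (by unfold Q4; simp)
  · rcases hN w h2 with rfl | rfl
    · exact absurd h1.symm hva
    · exact h1.symm

lemma out0 (hG : Good G n) (hS : Star G n a b₁ b₂ b₃) {v : V} (hv : v ∉ Q4 a b₁ b₂ b₃)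
    (hva : G.Adj a v) : G.Adj b₁ v ∨ G.Adj b₂ v ∨ G.Adj b₃ v := by
  obtain ⟨u, huQ, hua, c1, c2, c3, hN⟩ := pure0 hG hS
  rcases hG.diam v u with h | h | ⟨w, h1, h2⟩
  · subst h; exact absurd hva hua
  · exfalso
    rcases hN v h with rfl | rfl | rfl
    · exact hv (by unfold Q4; simp)
    · exact hv (by unfold Q4; simp)
    · exact hv (by unfold Q4; simp)
  · rcases hN w h2 with rfl | rfl | rfl
    · left; exact h1.symm
    · right; left; exact h1.symm
    · right; right; exact h1.symm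

lemma hub0 (hG : Good G n) (hS : Star G n a b₁ b₂ b₃) :
    G.Adj a b₁ ∨ G.Adj a b₂ ∨ G.Adj a b₃ := by
  obtain ⟨u, huQ, hua, c1, c2, c3, hN⟩ := pure0 hG hS
  rcases hG.diam a u with h | h | ⟨w, h1, h2⟩
  · subst h; exact absurd (by unfold Q4; simp) huQ
  · exact absurd h hua
  · rcases hN w h2 with rfl | rfl | rfl
    · left; exact h1
    · right; left; exact h1
    · right; right; exact h1

lemma hub1 (hG : Good G n) (hS : Star G n a b₁ b₂ b₃) {v : V} (hv : v ∈ Q4 a b₁ b₂ b₃)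
    (hva : v ≠ a) (hvb : v ≠ b₁) : G.Adj a v ∨ G.Adj b₁ v := by
  obtain ⟨u, huQ, hua, hN⟩ := pure1 hG hS
  rcases hG.diam v u with h | h | ⟨w, h1, h2⟩
  · subst h; exact absurd hv huQ
  · rcases hN v h with h | h
    · exact absurd h hva
    · exact absurd h hvb
  · rcases hN w h2 with rfl | rfl
    · left; exact h1.symm
    · right; exact h1.symm

/-- indicator -/
def ad (G : SimpleGraph V) [DecidableRel G.Adj] (x y : V) : ℕ := if G.Adj x y then 1 else 0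

lemma deg_eq (x : V) : G.degree x = ∑ y, ad G x y := by
  rw [← G.card_neighborFinset_eq_degree]
  unfold ad
  rw [← Finset.card_filter]
  congr 1
  ext u
  simp

theorem no_good (hG : Good G n) {m : ℕ} (hn : n = 5 * m + 3) : False := by
  obtain ⟨a, b₁, b₂, b₃, hS⟩ := exists_star hG
  have hS2 := hS.swap12
  have hS3 := hS.swap23.swap12
  have hQ2 : Q4 a b₂ b₁ b₃ = Q4 a b₁ b₂ b₃ := by
    unfold Q4; ext x; simp only [Finset.mem_insert, Finset.mem_singleton]; tauto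
  have hQ3 : Q4 a b₃ b₁ b₂ = Q4 a b₁ b₂ b₃ := by
    unfold Q4; ext x; simp only [Finset.mem_insert, Finset.mem_singleton]; tauto
  have ha1 := (mem_Bs.1 hS.m1).1
  have ha2 := (mem_Bs.1 hS.m2).1
  have ha3 := (mem_Bs.1 hS.m3).1
  have h12 := hS.h12
  have h13 := hS.h13
  have h23 := hS.h23
  -- weights
  set W : V → ℕ := fun v => 2 * ad G a v + ad G b₁ v + ad G b₂ v + ad G b₃ v with hW
  have htot : ∑ v, W v = 2 * G.degree a + G.degree b₁ + G.degree b₂ + G.degree b₃ := by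
    rw [hW, Finset.sum_add_distrib, Finset.sum_add_distrib, Finset.sum_add_distrib,
      ← Finset.mul_sum, ← deg_eq, ← deg_eq, ← deg_eq, ← deg_eq]
  have hout : ∀ v ∈ (Q4 a b₁ b₂ b₃)ᶜ, 3 ≤ W v := by
    intro v hv
    rw [Finset.mem_compl] at hv
    by_cases hva : G.Adj a v
    · have := out0 hG hS hv hva
      simp only [hW, ad, if_pos hva]
      rcases this with h | h | h <;> simp only [if_pos h] <;> omega
    · have e1 := out1 hG hS hv hva
      have e2 := out1 hG hS2 (by rw [hQ2]; exact hv) hva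
      have e3 := out1 hG hS3 (by rw [hQ3]; exact hv) hva
      simp only [hW, ad, if_neg hva, if_pos e1, if_pos e2, if_pos e3]
      omega
  have hQcard : (Q4 a b₁ b₂ b₃).card = 4 := by
    unfold Q4
    rw [Finset.card_insert_of_notMem, Finset.card_eq_three.2 ⟨b₁, b₂, b₃, h12, h13, h23, rfl⟩]
    simp [ha1.symm, ha2.symm, ha3.symm]
  have hsumout : 3 * (n - 4) ≤ ∑ v ∈ (Q4 a b₁ b₂ b₃)ᶜ, W v := by
    have h1 : ∑ _v ∈ (Q4 a b₁ b₂ b₃)ᶜ, 3 ≤ ∑ v ∈ (Q4 a b₁ b₂ b₃)ᶜ, W v :=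
      Finset.sum_le_sum hout
    rw [Finset.sum_const, smul_eq_mul, Finset.card_compl, hG.card, hQcard] at h1
    omega
  have hsumQ : ∑ v ∈ Q4 a b₁ b₂ b₃, W v = W a + W b₁ + W b₂ + W b₃ := by
    unfold Q4
    rw [Finset.sum_insert (by simp [ha1.symm, ha2.symm, ha3.symm]),
      Finset.sum_insert (by simp [h12, h13]), Finset.sum_pair h23]
    ring
  have hsplit : ∑ v, W v = ∑ v ∈ Q4 a b₁ b₂ b₃, W v + ∑ v ∈ (Q4 a b₁ b₂ b₃)ᶜ, W v :=
    (Finset.sum_add_sum_compl _ _).symm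
  -- hub adjacencies
  have k0 := hub0 hG hS
  have mem1 : b₁ ∈ Q4 a b₁ b₂ b₃ := by unfold Q4; simp
  have mem2 : b₂ ∈ Q4 a b₁ b₂ b₃ := by unfold Q4; simp
  have mem3 : b₃ ∈ Q4 a b₁ b₂ b₃ := by unfold Q4; simp
  have k12 := hub1 hG hS mem2 ha2 h12.symm
  have k13 := hub1 hG hS mem3 ha3 h13.symm
  have k21 := hub1 hG hS2 (by rw [hQ2]; exact mem1) ha1 h12
  have k23 := hub1 hG hS2 (by rw [hQ2]; exact mem3) ha3 h23.symm
  have k31 := hub1 hG hS3 (by rw [hQ3]; exact mem1) ha1 h13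
  have k32 := hub1 hG hS3 (by rw [hQ3]; exact mem2) ha2 h23
  have hhub : 9 ≤ W a + W b₁ + W b₂ + W b₃ := by
    simp only [hW, ad]
    have s1 : G.Adj b₁ a ↔ G.Adj a b₁ := G.adj_comm _ _
    have s2 : G.Adj b₂ a ↔ G.Adj a b₂ := G.adj_comm _ _
    have s3 : G.Adj b₃ a ↔ G.Adj a b₃ := G.adj_comm _ _
    have s12 : G.Adj b₂ b₁ ↔ G.Adj b₁ b₂ := G.adj_comm _ _
    have s13 : G.Adj b₃ b₁ ↔ G.Adj b₁ b₃ := G.adj_comm _ _
    have s23 : G.Adj b₃ b₂ ↔ G.Adj b₂ b₃ := G.adj_comm _ _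
    simp only [SimpleGraph.irrefl, s1, s2, s3, s12, s13, s23, if_false] at *
    by_cases c1 : G.Adj a b₁ <;> by_cases c2 : G.Adj a b₂ <;> by_cases c3 : G.Adj a b₃ <;>
      by_cases c12 : G.Adj b₁ b₂ <;> by_cases c13 : G.Adj b₁ b₃ <;> by_cases c23 : G.Adj b₂ b₃ <;>
      simp_all
  have d0 := hG.maxdeg a
  have d1 := hG.maxdeg b₁
  have d2 := hG.maxdeg b₂
  have d3 := hG.maxdeg b₃
  have hl := hG.large
  omega

end star

end Pool.Agent.H891R3.Diam2
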