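import Pool.Agent.H891R3.Diam2c

set_option autoImplicit false

namespace Pool.Agent.H891R3.Diam2

open SimpleGraph

/-! ### Upper bound construction -/

/-- vertices of the construction: the centre, three leaves, `3 k` vertices of type
`(centre, leaf)` and `2 k + 1` vertices joined to all leaves. -/
abbrev CV (k : ℕ) : Type := Option (Fin 3) ⊕ ((Fin 3 × Fin k) ⊕ Fin (2 * k + 1))

/-- adjacency, one direction -/
def cR (k : ℕ) : CV k → CV k → Prop
  | Sum.inl none, Sum.inl (some _) => True
  | Sum.inl none, Sum.inr (Sum.inl _) => True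
  | Sum.inl (some i), Sum.inr (Sum.inl x) => i = x.1
  | Sum.inl (some _), Sum.inr (Sum.inr _) => True
  | _, _ => False

/-- The construction. -/
def cG (k : ℕ) : SimpleGraph (CV k) where
  Adj u v := cR k u v ∨ cR k v u
  symm := ⟨fun _ _ h => h.symm⟩
  loopless := by
    constructor
    rintro ((_ | i) | (x | y)) h <;> simp [cR] at h

lemma cG_adj {k : ℕ} {u v : CV k} : (cG k).Adj u v ↔ cR k u v ∨ cR k v u := Iff.rfl

lemma cG_card (k : ℕ) : Nat.card (CV k) = 5 * k + 5 := by
  rw [Nat.card_eq_fintype_card]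
  simp
  ring

lemma cG_diam (k : ℕ) (u v : CV k) : u = v ∨ (cG k).Adj u v ∨ ∃ w, (cG k).Adj u w ∧ (cG k).Adj w v := by
  rcases u with (_ | i) | (x | y) <;> rcases v with (_ | j) | (x' | y')
  · left; rfl
  · right; left; simp [cG_adj, cR]
  · right; left; simp [cG_adj, cR]
  · right; right; exact ⟨Sum.inl (some 0), by simp [cG_adj, cR], by simp [cG_adj, cR]⟩
  · right; left; simp [cG_adj, cR]
  · right; right; exact ⟨Sum.inl none, by simp [cG_adj, cR], by simp [cG_adj, cR]⟩
  · right; right; exact ⟨Sum.inl none, by simp [cG_adj, cR], by simp [cG_adj, cR]⟩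
  · right; left; simp [cG_adj, cR]
  · right; left; simp [cG_adj, cR]
  · right; right; exact ⟨Sum.inl none, by simp [cG_adj, cR], by simp [cG_adj, cR]⟩
  · right; right; exact ⟨Sum.inl none, by simp [cG_adj, cR], by simp [cG_adj, cR]⟩
  · right; right; exact ⟨Sum.inl (some x.1), by simp [cG_adj, cR], by simp [cG_adj, cR]⟩
  · right; right; exact ⟨Sum.inl (some 0), by simp [cG_adj, cR], by simp [cG_adj, cR]⟩
  · right; left; simp [cG_adj, cR]
  · right; right; exact ⟨Sum.inl (some x'.1), by simp [cG_adj, cR], by simp [cG_adj, cR]⟩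
  · right; right; exact ⟨Sum.inl (some 0), by simp [cG_adj, cR], by simp [cG_adj, cR]⟩

lemma ncard_le_of_range {α β : Type} [Fintype α] (s : Set β) (f : α → β)
    (h : ∀ x ∈ s, ∃ a, f a = x) : s.ncard ≤ Fintype.card α := by
  classical
  have hsub : s ⊆ ((Finset.univ.image f : Finset β) : Set β) := by
    intro x hx
    obtain ⟨a, ha⟩ := h x hx
    rw [Finset.mem_coe, Finset.mem_image]
    exact ⟨a, Finset.mem_univ _, ha⟩
  calc s.ncard ≤ ((Finset.univ.image f : Finset β) : Set β).ncard :=
        Set.ncard_le_ncard hsub (Finset.finite_toSet _)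
    _ = (Finset.univ.image f).card := Set.ncard_coe_finset _
    _ ≤ (Finset.univ : Finset α).card := Finset.card_image_le
    _ = Fintype.card α := rfl

lemma cG_deg (k : ℕ) (v : CV k) : ((cG k).neighborSet v).ncard ≤ 3 * k + 3 := by
  rcases v with (_ | i) | (x | y)
  · refine (ncard_le_of_range (α := Fin 3 ⊕ (Fin 3 × Fin k)) _ (fun z => match z with
      | Sum.inl j => Sum.inl (some j)
      | Sum.inr x => Sum.inr (Sum.inl x)) ?_).trans ?_
    · rintro ((_ | j) | (x' | y')) h <;> rw [mem_neighborSet, cG_adj] at h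
      · simp [cR] at h
      · exact ⟨Sum.inl j, rfl⟩
      · exact ⟨Sum.inr x', rfl⟩
      · simp [cR] at h
    · simp; omega
  · refine (ncard_le_of_range (α := Option (Fin k ⊕ Fin (2 * k + 1))) _ (fun z => match z with
      | none => Sum.inl none
      | some (Sum.inl t) => Sum.inr (Sum.inl (i, t))
      | some (Sum.inr y) => Sum.inr (Sum.inr y)) ?_).trans ?_
    · rintro ((_ | j) | (x' | y')) h <;> rw [mem_neighborSet, cG_adj] at h
      · exact ⟨none, rfl⟩
      · simp [cR] at h
      · simp only [cR, or_false] at h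
        refine ⟨some (Sum.inl x'.2), ?_⟩
        simp [h]
      · exact ⟨some (Sum.inr y'), rfl⟩
    · simp; omega
  · refine (ncard_le_of_range (α := Bool) _ (fun z => match z with
      | true => Sum.inl none
      | false => Sum.inl (some x.1)) ?_).trans ?_
    · rintro ((_ | j) | (x' | y')) h <;> rw [mem_neighborSet, cG_adj] at h
      · exact ⟨true, rfl⟩
      · simp only [cR, false_or] at h
        exact ⟨false, by simp [h]⟩
      · simp [cR] at h
      · simp [cR] at h
    · simp
  · refine (ncard_le_of_range (α := Fin 3) _ (fun z => Sum.inl (some z)) ?_).trans ?_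
    · rintro ((_ | j) | (x' | y')) h <;> rw [mem_neighborSet, cG_adj] at h
      · simp [cR] at h
      · exact ⟨j, rfl⟩
      · simp [cR] at h
      · simp [cR] at h
    · simp

lemma cG_edges (k : ℕ) : (cG k).edgeSet.ncard ≤ 12 * k + 6 := by
  refine (ncard_le_of_range
    (α := Fin 3 ⊕ (((Fin 3 × Fin k) × Bool) ⊕ (Fin 3 × Fin (2 * k + 1)))) _ (fun z => match z with
      | Sum.inl j => s(Sum.inl none, Sum.inl (some j))
      | Sum.inr (Sum.inl (x, true)) => s(Sum.inl none, Sum.inr (Sum.inl x))
      | Sum.inr (Sum.inl (x, false)) => s(Sum.inl (some x.1), Sum.inr (Sum.inl x))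
      | Sum.inr (Sum.inr (j, y)) => s(Sum.inl (some j), Sum.inr (Sum.inr y))) ?_).trans ?_
  · have key : ∀ u v : CV k, cR k u v → ∃ a : Fin 3 ⊕ (((Fin 3 × Fin k) × Bool) ⊕
        (Fin 3 × Fin (2 * k + 1))), (match a with
      | Sum.inl j => s(Sum.inl none, Sum.inl (some j))
      | Sum.inr (Sum.inl (x, true)) => s(Sum.inl none, Sum.inr (Sum.inl x))
      | Sum.inr (Sum.inl (x, false)) => s(Sum.inl (some x.1), Sum.inr (Sum.inl x))
      | Sum.inr (Sum.inr (j, y)) => s(Sum.inl (some j), Sum.inr (Sum.inr y))) = s(u, v) := by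
      rintro ((_ | i) | (x | y)) ((_ | j) | (x' | y')) h
      · simp [cR] at h
      · exact ⟨Sum.inl j, rfl⟩
      · exact ⟨Sum.inr (Sum.inl (x', true)), rfl⟩
      · simp [cR] at h
      · simp [cR] at h
      · simp [cR] at h
      · simp only [cR] at h
        subst h
        exact ⟨Sum.inr (Sum.inl (x', false)), rfl⟩
      · exact ⟨Sum.inr (Sum.inr (i, y')), rfl⟩
      all_goals simp [cR] at h
    intro e he
    induction e with
    | _ u v =>
      rw [mem_edgeSet, cG_adj] at he
      rcases he with h | h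
      · exact key u v h
      · rw [Sym2.eq_swap]
        exact key v u h
  · simp
    omega

/-! ### Translation to distances -/

lemma edist_le_two_of {V : Type} {G : SimpleGraph V}
    (h : ∀ u v : V, u = v ∨ G.Adj u v ∨ ∃ w, G.Adj u w ∧ G.Adj w v) (u v : V) :
    G.edist u v ≤ 2 := by
  rcases h u v with h | h | ⟨w, h1, h2⟩
  · subst h; simp
  · have := edist_eq_one_iff_adj.2 h
    rw [this]; norm_num
  · refine (G.edist_le (Walk.cons h1 (Walk.cons h2 Walk.nil))).trans ?_
    simp

lemma of_edist_le_two {V : Type} {G : SimpleGraph V} {u v : V} (h : G.edist u v ≤ 2) :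
    u = v ∨ G.Adj u v ∨ ∃ w, G.Adj u w ∧ G.Adj w v := by
  have hne : G.edist u v ≠ ⊤ := by
    intro ht
    rw [ht] at h
    exact absurd h (by decide)
  obtain ⟨p, hp⟩ := exists_walk_of_edist_ne_top hne
  have hlen : p.length ≤ 2 := by
    rw [← hp] at h
    exact_mod_cast h
  match p, hlen with
  | Walk.nil, _ => left; rfl
  | Walk.cons h1 Walk.nil, _ => right; left; exact h1
  | Walk.cons h1 (Walk.cons h2 Walk.nil), _ => right; right; exact ⟨_, h1, h2⟩
  | Walk.cons h1 (Walk.cons h2 (Walk.cons h3 q)), hl =>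
    simp only [Walk.length_cons] at hl
    omega

end Pool.Agent.H891R3.Diam2
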