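import Mathlib

set_option autoImplicit false

namespace Pool.Agent.H891R3.HalfCage

open SimpleGraph Finset

/-! ### Real inequalities -/

/-- Concavity of the logarithm, two terms. -/
lemma log_add_ge {s t B C : ℝ} (hs : 0 < s) (ht : 0 < t) (hB : 0 < B) (hC : 0 < C) :
    s * (Real.log B - Real.log s) + t * (Real.log C - Real.log t)
      ≤ (s + t) * (Real.log (B + C) - Real.log (s + t)) := by
  have hst : 0 < s + t := by linarith
  have hBs : B / s ∈ Set.Ioi (0 : ℝ) := Set.mem_Ioi.2 (by positivity)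
  have hCt : C / t ∈ Set.Ioi (0 : ℝ) := Set.mem_Ioi.2 (by positivity)
  have ha0 : 0 ≤ s / (s + t) := by positivity
  have hb0 : 0 ≤ t / (s + t) := by positivity
  have hab : s / (s + t) + t / (s + t) = 1 := by field_simp
  have h1 := strictConcaveOn_log_Ioi.concaveOn.2 hBs hCt ha0 hb0 hab
  simp only [smul_eq_mul] at h1
  rw [Real.log_div hB.ne' hs.ne', Real.log_div hC.ne' ht.ne'] at h1
  have h2 : s / (s + t) * (B / s) + t / (s + t) * (C / t) = (B + C) / (s + t) := by
    field_simp
  rw [h2, Real.log_div (by positivity) hst.ne'] at h1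
  have h3 := mul_le_mul_of_nonneg_left h1 hst.le
  have h4 : (s + t) * (s / (s + t) * (Real.log B - Real.log s)
      + t / (s + t) * (Real.log C - Real.log t))
      = s * (Real.log B - Real.log s) + t * (Real.log C - Real.log t) := by
    field_simp
  rw [h4] at h3
  exact h3

/-- the entropy of a vertex of degree three. -/
noncomputable def ent (p q r : ℝ) : ℝ :=
  (q + r) * Real.log (q + r) + (p + r) * Real.log (p + r) + (p + q) * Real.log (p + q)
    - 2 * (p * Real.log p + q * Real.log q + r * Real.log r)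

/-- `p` is the weight of the pair `(b,c)`, `q` of `(a,c)`, `r` of `(a,b)`. -/
lemma tri {p q r A B C : ℝ} (hp : 0 < p) (hq : 0 < q) (hr : 0 < r) (hA : 0 < A) (hB : 0 < B)
    (hC : 0 < C) :
    (q + r) * Real.log A + (p + r) * Real.log B + (p + q) * Real.log C + ent p q r
      ≤ (q + r) * Real.log (B + C) + (p + r) * Real.log (A + C) + (p + q) * Real.log (A + B) := by
  have h1 := log_add_ge hr hq hB hC
  have h2 := log_add_ge hr hp hA hC
  have h3 := log_add_ge hq hp hA hB
  unfold ent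
  have e1 : r + q = q + r := by ring
  have e2 : r + p = p + r := by ring
  have e3 : q + p = p + q := by ring
  rw [e1] at h1
  rw [e2] at h2
  rw [e3] at h3
  nlinarith [h1, h2, h3]

section rho

variable {ρ : ℝ} (hρ : ρ ^ 3 - ρ - 2 = 0)

include hρ

lemma rho_gt : (1.5213 : ℝ) < ρ := by
  by_contra h
  push Not at h
  nlinarith [sq_nonneg (ρ - 1), sq_nonneg (ρ + 1), sq_nonneg ρ, sq_nonneg (ρ - 1.5213)]

lemma rho_lt : ρ < (1.5214 : ℝ) := by
  by_contra h
  push Not at h
  nlinarith [sq_nonneg (ρ - 1), sq_nonneg (ρ + 1), sq_nonneg ρ, sq_nonneg (ρ - 1.5214)]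

end rho

/-- the weight of an edge between two vertices of degree three. -/
noncomputable def xw (ρ : ℝ) : ℝ := 4 / ρ ^ 3

section rho2

variable {ρ : ℝ} (hρ : ρ ^ 3 - ρ - 2 = 0)

include hρ

lemma xw_bounds : 1.1358 < xw ρ ∧ xw ρ < 1.136 := by
  have h1 := rho_gt hρ
  have h2 := rho_lt hρ
  have h3 : ρ ^ 3 = ρ + 2 := by linarith
  unfold xw
  rw [h3]
  constructor
  · rw [lt_div_iff₀ (by linarith)]
    linarith
  · rw [div_lt_iff₀ (by linarith)]
    linarith

lemma log_rho_le : Real.log ρ ≤ 0.4197 := by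
  have h1 := rho_gt hρ
  have h2 := rho_lt hρ
  have hpos : 0 < ρ := by linarith
  have h5 : ρ ^ 5 ≤ 8.152 := by
    calc ρ ^ 5 ≤ (1.5214 : ℝ) ^ 5 := by gcongr
      _ ≤ 8.152 := by norm_num
  have h6 : Real.log (ρ ^ 5) = 5 * Real.log ρ := by
    rw [Real.log_pow]; norm_num
  have h7 : Real.log (ρ ^ 5 / 8) ≤ ρ ^ 5 / 8 - 1 := Real.log_le_sub_one_of_pos (by positivity)
  rw [Real.log_div (by positivity) (by norm_num), h6] at h7
  have h8 : Real.log 8 = 3 * Real.log 2 := by
    rw [show (8 : ℝ) = 2 ^ 3 by norm_num, Real.log_pow]; norm_num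
  rw [h8] at h7
  have h9 := Real.log_two_lt_d9
  linarith

lemma log_rho_pos : 0 < Real.log ρ := by
  have h1 := rho_gt hρ
  exact Real.log_pos (by linarith)

lemma log_xw : Real.log (xw ρ) = 2 * Real.log 2 - 3 * Real.log ρ := by
  have h1 := rho_gt hρ
  have hpos : 0 < ρ := by linarith
  unfold xw
  rw [Real.log_div (by norm_num) (by positivity), Real.log_pow,
    show (4 : ℝ) = 2 ^ 2 by norm_num, Real.log_pow]
  norm_num

lemma log_one_sub : Real.log (1 - xw ρ / 2) = - 2 * Real.log ρ := by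
  have h1 := rho_gt hρ
  have hpos : 0 < ρ := by linarith
  have h3 : ρ ^ 3 = ρ + 2 := by linarith
  have h4 : 1 - xw ρ / 2 = (ρ ^ 2)⁻¹ := by
    unfold xw
    field_simp
    linarith
  rw [h4, Real.log_inv, Real.log_pow]
  norm_num

/-- three neighbours of degree two. -/
lemma ent_3 : Real.log ρ * (2 + 3) - 0.03 ≤ ent (1 / 2) (1 / 2) (1 / 2) := by
  have h1 := log_rho_le hρ
  have h2 := Real.log_two_gt_d9
  unfold ent
  have e1 : (1 / 2 + 1 / 2 : ℝ) = 1 := by norm_num
  have e2 : Real.log (1 / 2 : ℝ) = - Real.log 2 := by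
    rw [one_div, Real.log_inv]
  rw [e1, e2, Real.log_one]
  linarith

/-- no neighbour of degree two. -/
lemma ent_0 : Real.log ρ * (2 + 3 * xw ρ) + 2 * 0.03 ≤ ent (xw ρ / 2) (xw ρ / 2) (xw ρ / 2) := by
  have h1 := log_rho_le hρ
  have h2 := Real.log_two_gt_d9
  obtain ⟨hx1, hx2⟩ := xw_bounds hρ
  have hxpos : 0 < xw ρ := by linarith
  unfold ent
  have e1 : (xw ρ / 2 + xw ρ / 2 : ℝ) = xw ρ := by ring
  have e2 : Real.log (xw ρ / 2 : ℝ) = Real.log (xw ρ) - Real.log 2 := by
    rw [Real.log_div hxpos.ne' (by norm_num)]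
  rw [e1, e2]
  have h3 : xw ρ * (0.2734) ≤ xw ρ * (Real.log 2 - Real.log ρ) := by
    apply mul_le_mul_of_nonneg_left _ hxpos.le
    linarith
  nlinarith [h3]

/-- two neighbours of degree two: equality. -/
lemma ent_2 : Real.log ρ * (2 + (xw ρ + 2)) = ent (1 - xw ρ / 2) (xw ρ / 2) (xw ρ / 2) := by
  obtain ⟨hx1, hx2⟩ := xw_bounds hρ
  have hxpos : 0 < xw ρ := by linarith
  have hl := log_xw hρ
  have hl2 := log_one_sub hρ
  unfold ent
  have e1 : (xw ρ / 2 + xw ρ / 2 : ℝ) = xw ρ := by ring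
  have e3 : (1 - xw ρ / 2 + xw ρ / 2 : ℝ) = 1 := by ring
  have e2 : Real.log (xw ρ / 2 : ℝ) = Real.log (xw ρ) - Real.log 2 := by
    rw [Real.log_div hxpos.ne' (by norm_num)]
  rw [e1, e2, e3, hl2, hl, Real.log_one]
  ring

/-- one neighbour of degree two. -/
lemma ent_1 : Real.log ρ * (2 + (2 * xw ρ + 1)) + 0.03 ≤ ent (1 / 2) (1 / 2) (xw ρ - 1 / 2) := by
  have h1 := log_rho_le hρ
  have h2 := Real.log_two_gt_d9
  obtain ⟨hx1, hx2⟩ := xw_bounds hρ
  have hxpos : 0 < xw ρ := by linarith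
  have hl := log_xw hρ
  unfold ent
  have e1 : (1 / 2 + 1 / 2 : ℝ) = 1 := by norm_num
  have e2 : Real.log (1 / 2 : ℝ) = - Real.log 2 := by
    rw [one_div, Real.log_inv]
  have e3 : (1 / 2 + (xw ρ - 1 / 2) : ℝ) = xw ρ := by ring
  rw [e1, e2, e3, hl, Real.log_one]
  -- upper bound for log (x - 1/2)
  have h3 : Real.log (xw ρ - 1 / 2) ≤ -0.4524 := by
    have hp : (0 : ℝ) < xw ρ - 1 / 2 := by linarith
    have hcube : (xw ρ - 1 / 2) ^ 3 ≤ (0.636 : ℝ) ^ 3 := by
      gcongr
      linarith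
    have h4 : Real.log ((xw ρ - 1 / 2) ^ 3 * 4) ≤ (xw ρ - 1 / 2) ^ 3 * 4 - 1 :=
      Real.log_le_sub_one_of_pos (by positivity)
    rw [Real.log_mul (by positivity) (by norm_num), Real.log_pow,
      show (4 : ℝ) = 2 ^ 2 by norm_num, Real.log_pow] at h4
    norm_num at h4 hcube
    linarith
  have h5 : (2 * xw ρ - 1) * 0.4524 ≤ (2 * xw ρ - 1) * (- Real.log (xw ρ - 1 / 2)) := by
    apply mul_le_mul_of_nonneg_left _ (by linarith)
    linarith
  have h6 : (8 * xw ρ + 3) * Real.log ρ ≤ (8 * xw ρ + 3) * 0.4197 := by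
    apply mul_le_mul_of_nonneg_left h1 (by linarith)
  have h7 : (4 * xw ρ + 2) * 0.6931471803 ≤ (4 * xw ρ + 2) * Real.log 2 := by
    apply mul_le_mul_of_nonneg_left h2.le (by linarith)
  nlinarith [h5, h6, h7]

end rho2

/-! ### The graph part -/

section graph

variable {V : Type} [Fintype V] [DecidableEq V] (G : SimpleGraph V) [DecidableRel G.Adj]

/-- number of non-backtracking walks of length `r` continuing the dart `(u,v)`. -/
def F : ℕ → V → V → ℕ
  | 0, _, _ => 1
  | (r + 1), u, v => ∑ w ∈ (G.neighborFinset v).erase u, F r v w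

lemma F_zero (u v : V) : F G 0 u v = 1 := rfl

lemma F_succ (r : ℕ) (u v : V) :
    F G (r + 1) u v = ∑ w ∈ (G.neighborFinset v).erase u, F G r v w := rfl

/-- the sphere beyond the dart `(u,v)`. -/
noncomputable def S (r : ℕ) (u v : V) : Finset V :=
  Finset.univ.filter (fun z => G.Reachable v z ∧ G.dist v z = r ∧ G.dist u z = r + 1)

lemma mem_S {r : ℕ} {u v z : V} :
    z ∈ S G r u v ↔ G.Reachable v z ∧ G.dist v z = r ∧ G.dist u z = r + 1 := by
  simp [S]

lemma S_step {r : ℕ} {u v w z : V} (hg : ((2 * r + 4 : ℕ) : ℕ∞) ≤ G.egirth) (huv : G.Adj u v)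
    (hvw : G.Adj v w) (hwu : w ≠ u) (hz : z ∈ S G r v w) : z ∈ S G (r + 1) u v := by
  rw [mem_S] at hz ⊢
  obtain ⟨hreach, hwz, hvz⟩ := hz
  have hvreach : G.Reachable v z := hvw.reachable.trans hreach
  have hureach : G.Reachable u z := huv.reachable.trans hvreach
  refine ⟨hvreach, hvz, ?_⟩
  -- upper bound
  obtain ⟨p, hp⟩ := hvreach.exists_walk_length_eq_dist
  have hup : G.dist u z ≤ r + 2 := by
    have := G.dist_le (Walk.cons huv p)
    rw [Walk.length_cons, hp, hvz] at this
    omega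
  by_contra hne
  have hlt : G.dist u z ≤ r + 1 := by omega
  obtain ⟨P, hPpath, hPlen⟩ := hureach.exists_path_of_dist
  obtain ⟨Q, hQpath, hQlen⟩ := hreach.exists_path_of_dist
  -- v not on P
  have hvP : v ∉ P.support := by
    intro hv
    have h1 : (P.takeUntil v hv).length + (P.dropUntil v hv).length = P.length := by
      rw [← Walk.length_append, Walk.take_spec]
    have h2 : G.dist v z ≤ (P.dropUntil v hv).length := G.dist_le _
    have h3 : (P.takeUntil v hv).length ≠ 0 := by
      intro h0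
      exact huv.ne (Walk.eq_of_length_eq_zero h0)
    omega
  have hvQ : v ∉ Q.support := by
    intro hv
    have h1 : (Q.takeUntil v hv).length + (Q.dropUntil v hv).length = Q.length := by
      rw [← Walk.length_append, Walk.take_spec]
    have h2 : G.dist v z ≤ (Q.dropUntil v hv).length := G.dist_le _
    omega
  have hP' : (Walk.cons huv.symm P).IsPath := by
    rw [Walk.cons_isPath_iff]
    exact ⟨hPpath, hvP⟩
  have hQ' : (Walk.cons hvw Q).IsPath := by
    rw [Walk.cons_isPath_iff]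
    exact ⟨hQpath, hvQ⟩
  have hneq : Walk.cons huv.symm P ≠ Walk.cons hvw Q := by
    intro h
    have := congrArg Walk.snd h
    simp at this
    exact hwu this.symm
  obtain ⟨y, -, -, c, hc, hcl⟩ := hP'.exists_isCycle_length_le_add_of_ne hQ' hneq
  have h5 : (2 * r + 4 : ℕ) ≤ c.length := by
    have := hg.trans (G.egirth_le_length hc)
    exact_mod_cast this
  rw [Walk.length_cons, Walk.length_cons] at hcl
  omega

lemma S_disj {r : ℕ} {v w w' : V} (hg : ((2 * r + 4 : ℕ) : ℕ∞) ≤ G.egirth)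
    (hvw : G.Adj v w) (hvw' : G.Adj v w') (hne : w ≠ w') : Disjoint (S G r v w) (S G r v w') := by
  rw [Finset.disjoint_left]
  intro z hz hz'
  rw [mem_S] at hz hz'
  obtain ⟨hreach, hwz, hvz⟩ := hz
  obtain ⟨hreach', hwz', hvz'⟩ := hz'
  obtain ⟨P, hPpath, hPlen⟩ := hreach'.exists_path_of_dist
  obtain ⟨Q, hQpath, hQlen⟩ := hreach.exists_path_of_dist
  have hvP : v ∉ P.support := by
    intro hv
    have h1 : (P.takeUntil v hv).length + (P.dropUntil v hv).length = P.length := by
      rw [← Walk.length_append, Walk.take_spec]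
    have h2 : G.dist v z ≤ (P.dropUntil v hv).length := G.dist_le _
    omega
  have hvQ : v ∉ Q.support := by
    intro hv
    have h1 : (Q.takeUntil v hv).length + (Q.dropUntil v hv).length = Q.length := by
      rw [← Walk.length_append, Walk.take_spec]
    have h2 : G.dist v z ≤ (Q.dropUntil v hv).length := G.dist_le _
    omega
  have hP' : (Walk.cons hvw' P).IsPath := by
    rw [Walk.cons_isPath_iff]
    exact ⟨hPpath, hvP⟩
  have hQ' : (Walk.cons hvw Q).IsPath := by
    rw [Walk.cons_isPath_iff]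
    exact ⟨hQpath, hvQ⟩
  have hneq : Walk.cons hvw' P ≠ Walk.cons hvw Q := by
    intro h
    have := congrArg Walk.snd h
    simp at this
    exact hne this.symm
  obtain ⟨y, -, -, c, hc, hcl⟩ := hP'.exists_isCycle_length_le_add_of_ne hQ' hneq
  have h5 : (2 * r + 4 : ℕ) ≤ c.length := by
    have := hg.trans (G.egirth_le_length hc)
    exact_mod_cast this
  rw [Walk.length_cons, Walk.length_cons] at hcl
  omega

lemma F_le_S (r : ℕ) : ∀ u v : V, G.Adj u v → ((2 * r + 2 : ℕ) : ℕ∞) ≤ G.egirth →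
    F G r u v ≤ (S G r u v).card := by
  induction r with
  | zero =>
    intro u v huv _
    rw [F_zero]
    apply Finset.card_pos.2
    refine ⟨v, ?_⟩
    rw [mem_S]
    refine ⟨Reachable.refl v, G.dist_self, ?_⟩
    rw [SimpleGraph.dist_eq_one_iff_adj]
    exact huv
  | succ r ih =>
    intro u v huv hg
    have hg' : ((2 * r + 4 : ℕ) : ℕ∞) ≤ G.egirth := by
      have : 2 * (r + 1) + 2 = 2 * r + 4 := by ring
      rw [← this]
      exact hg
    rw [F_succ]
    have hsub : ((G.neighborFinset v).erase u).biUnion (fun w => S G r v w)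
        ⊆ S G (r + 1) u v := by
      intro z hz
      rw [Finset.mem_biUnion] at hz
      obtain ⟨w, hw, hz⟩ := hz
      rw [Finset.mem_erase, mem_neighborFinset] at hw
      exact S_step G hg' huv hw.2 hw.1 hz
    refine le_trans ?_ (Finset.card_le_card hsub)
    rw [Finset.card_biUnion]
    · apply Finset.sum_le_sum
      intro w hw
      rw [Finset.mem_erase, mem_neighborFinset] at hw
      apply ih v w hw.2
      refine le_trans ?_ hg'
      exact_mod_cast (by omega : 2 * r + 2 ≤ 2 * r + 4)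
    · intro w hw w' hw' hne
      rw [Finset.mem_coe, Finset.mem_erase, mem_neighborFinset] at hw hw'
      exact S_disj G hg' hw.2 hw'.2 hne

lemma F_pos (hdeg : ∀ v, G.degree v = 2 ∨ G.degree v = 3) (r : ℕ) :
    ∀ u v : V, 1 ≤ F G r u v := by
  induction r with
  | zero => intro u v; exact le_rfl
  | succ r ih =>
    intro u v
    rw [F_succ]
    have h1 : 1 ≤ ((G.neighborFinset v).erase u).card := by
      have h2 := Finset.pred_card_le_card_erase (s := G.neighborFinset v) (a := u)
      rw [G.card_neighborFinset_eq_degree] at h2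
      rcases hdeg v with h | h <;> omega
    calc 1 ≤ ((G.neighborFinset v).erase u).card := h1
      _ = ∑ w ∈ (G.neighborFinset v).erase u, 1 := by simp
      _ ≤ _ := Finset.sum_le_sum (fun w _ => ih v w)

end graph

end Pool.Agent.H891R3.HalfCage
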