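import Pool.Agent.H891R3.HalfCage

set_option autoImplicit false

namespace Pool.Agent.H891R3.HalfCage

open SimpleGraph Finset

lemma ent_swap12 (p q r : ℝ) : ent p q r = ent q p r := by
  unfold ent
  rw [add_comm p q]
  ring

lemma ent_swap23 (p q r : ℝ) : ent p q r = ent p r q := by
  unfold ent
  rw [add_comm q r]
  ring

lemma tri' {a b c A B C : ℝ} (ha : 0 < b + c - a) (hb : 0 < a + c - b) (hc : 0 < a + b - c)
    (hA : 0 < A) (hB : 0 < B) (hC : 0 < C) :
    a * Real.log A + b * Real.log B + c * Real.log C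
      + ent ((b + c - a) / 2) ((a + c - b) / 2) ((a + b - c) / 2)
      ≤ a * Real.log (B + C) + b * Real.log (A + C) + c * Real.log (A + B) := by
  have h := tri (p := (b + c - a) / 2) (q := (a + c - b) / 2) (r := (a + b - c) / 2)
    (by linarith) (by linarith) (by linarith) hA hB hC
  have e1 : (a + c - b) / 2 + (a + b - c) / 2 = a := by ring
  have e2 : (b + c - a) / 2 + (a + b - c) / 2 = b := by ring
  have e3 : (b + c - a) / 2 + (a + c - b) / 2 = c := by ring
  rw [e1, e2, e3] at h
  exact h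

section graph

variable {V : Type} [Fintype V] [DecidableEq V] (G : SimpleGraph V) [DecidableRel G.Adj]

/-- edge weight -/
noncomputable def pw (ρ : ℝ) (u v : V) : ℝ :=
  if G.degree u = 3 ∧ G.degree v = 3 then xw ρ else 1

/-- indicator of degree two -/
noncomputable def two (u : V) : ℝ := if G.degree u = 2 then 1 else 0

lemma local3 {ρ : ℝ} (hρ : ρ ^ 3 - ρ - 2 = 0) (hdeg : ∀ v, G.degree v = 2 ∨ G.degree v = 3)
    {v : V} (hv : G.degree v = 3) (r : ℕ) :
    (∑ w ∈ G.neighborFinset v, pw G ρ v w * Real.log (F G r v w))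
      + (Real.log ρ * (2 + ∑ u ∈ G.neighborFinset v, pw G ρ u v)
          + 0.03 * (2 - ∑ u ∈ G.neighborFinset v, two G u))
      ≤ ∑ u ∈ G.neighborFinset v, pw G ρ u v * Real.log (F G (r + 1) u v) := by
  have hcard : (G.neighborFinset v).card = 3 := by
    rw [G.card_neighborFinset_eq_degree]; exact hv
  obtain ⟨a, b, c, hab, hac, hbc, hN⟩ := Finset.card_eq_three.1 hcard
  have hFa : F G (r + 1) a v = F G r v b + F G r v c := by
    rw [F_succ, hN]
    have : ({a, b, c} : Finset V).erase a = {b, c} := by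
      ext x
      simp only [Finset.mem_erase, Finset.mem_insert, Finset.mem_singleton]
      constructor
      · rintro ⟨h1, h2⟩; tauto
      · rintro (h | h) <;> subst h
        · exact ⟨hab.symm, by simp⟩
        · exact ⟨hac.symm, by simp⟩
    rw [this, Finset.sum_pair hbc]
  have hFb : F G (r + 1) b v = F G r v a + F G r v c := by
    rw [F_succ, hN]
    have : ({a, b, c} : Finset V).erase b = {a, c} := by
      ext x
      simp only [Finset.mem_erase, Finset.mem_insert, Finset.mem_singleton]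
      constructor
      · rintro ⟨h1, h2⟩; tauto
      · rintro (h | h) <;> subst h
        · exact ⟨hab, by simp⟩
        · exact ⟨hbc.symm, by simp⟩
    rw [this, Finset.sum_pair hac]
  have hFc : F G (r + 1) c v = F G r v a + F G r v b := by
    rw [F_succ, hN]
    have : ({a, b, c} : Finset V).erase c = {a, b} := by
      ext x
      simp only [Finset.mem_erase, Finset.mem_insert, Finset.mem_singleton]
      constructor
      · rintro ⟨h1, h2⟩; tauto
      · rintro (h | h) <;> subst h
        · exact ⟨hac, by simp⟩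
        · exact ⟨hbc, by simp⟩
    rw [this, Finset.sum_pair hab]
  have sum3 : ∀ φ : V → ℝ, ∑ u ∈ G.neighborFinset v, φ u = φ a + φ b + φ c := by
    intro φ
    rw [hN, Finset.sum_insert (by simp [hab, hac]), Finset.sum_pair hbc]
    ring
  rw [sum3, sum3, sum3, sum3, hFa, hFb, hFc]
  have hA : (0 : ℝ) < F G r v a := by exact_mod_cast F_pos G hdeg r v a
  have hB : (0 : ℝ) < F G r v b := by exact_mod_cast F_pos G hdeg r v b
  have hC : (0 : ℝ) < F G r v c := by exact_mod_cast F_pos G hdeg r v c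
  push_cast
  set A : ℝ := (F G r v a : ℝ)
  set B : ℝ := (F G r v b : ℝ)
  set C : ℝ := (F G r v c : ℝ)
  obtain ⟨hx1, hx2⟩ := xw_bounds hρ
  have e0 := ent_0 hρ
  have e1 := ent_1 hρ
  have e2 := ent_2 hρ
  have e3 := ent_3 hρ
  set x := xw ρ with hx
  have v3 : ∀ u : V, G.degree u = 3 → pw G ρ u v = x ∧ pw G ρ v u = x ∧ two G u = 0 := by
    intro u hu
    unfold pw two
    simp [hu, hv, hx]
  have v2 : ∀ u : V, G.degree u = 2 → pw G ρ u v = 1 ∧ pw G ρ v u = 1 ∧ two G u = 1 := by
    intro u hu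
    unfold pw two
    simp [hu]
  rcases hdeg a with ha | ha <;> rcases hdeg b with hb | hb <;> rcases hdeg c with hc | hc
  · -- 2 2 2
    obtain ⟨a1, a2, a3⟩ := v2 a ha
    obtain ⟨b1, b2, b3⟩ := v2 b hb
    obtain ⟨c1, c2, c3⟩ := v2 c hc
    rw [a1, a2, a3, b1, b2, b3, c1, c2, c3]
    have h := tri' (a := 1) (b := 1) (c := 1) (by norm_num) (by norm_num) (by norm_num) hA hB hC
    norm_num at h e3 ⊢
    linarith
  · -- 2 2 3
    obtain ⟨a1, a2, a3⟩ := v2 a ha
    obtain ⟨b1, b2, b3⟩ := v2 b hb
    obtain ⟨c1, c2, c3⟩ := v3 c hc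
    rw [a1, a2, a3, b1, b2, b3, c1, c2, c3]
    have h := tri' (a := 1) (b := 1) (c := x) (by linarith) (by linarith) (by linarith) hA hB hC
    have e : ent ((1 + x - 1) / 2) ((1 + x - 1) / 2) ((1 + 1 - x) / 2)
        = ent (1 - x / 2) (x / 2) (x / 2) := by
      rw [ent_swap23, ent_swap12]
      congr 1 <;> ring
    rw [e] at h
    linarith
  · -- 2 3 2
    obtain ⟨a1, a2, a3⟩ := v2 a ha
    obtain ⟨b1, b2, b3⟩ := v3 b hb
    obtain ⟨c1, c2, c3⟩ := v2 c hc
    rw [a1, a2, a3, b1, b2, b3, c1, c2, c3]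
    have h := tri' (a := 1) (b := x) (c := 1) (by linarith) (by linarith) (by linarith) hA hB hC
    have e : ent ((x + 1 - 1) / 2) ((1 + 1 - x) / 2) ((1 + x - 1) / 2)
        = ent (1 - x / 2) (x / 2) (x / 2) := by
      rw [ent_swap12]
      congr 1 <;> ring
    rw [e] at h
    linarith
  · -- 2 3 3
    obtain ⟨a1, a2, a3⟩ := v2 a ha
    obtain ⟨b1, b2, b3⟩ := v3 b hb
    obtain ⟨c1, c2, c3⟩ := v3 c hc
    rw [a1, a2, a3, b1, b2, b3, c1, c2, c3]
    have h := tri' (a := 1) (b := x) (c := x) (by linarith) (by linarith) (by linarith) hA hB hC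
    have e : ent ((x + x - 1) / 2) ((1 + x - x) / 2) ((1 + x - x) / 2)
        = ent (1 / 2) (1 / 2) (x - 1 / 2) := by
      rw [ent_swap12, ent_swap23]
      congr 1 <;> ring
    rw [e] at h
    linarith
  · -- 3 2 2
    obtain ⟨a1, a2, a3⟩ := v3 a ha
    obtain ⟨b1, b2, b3⟩ := v2 b hb
    obtain ⟨c1, c2, c3⟩ := v2 c hc
    rw [a1, a2, a3, b1, b2, b3, c1, c2, c3]
    have h := tri' (a := x) (b := 1) (c := 1) (by linarith) (by linarith) (by linarith) hA hB hC
    have e : ent ((1 + 1 - x) / 2) ((x + 1 - 1) / 2) ((x + 1 - 1) / 2)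
        = ent (1 - x / 2) (x / 2) (x / 2) := by
      congr 1 <;> ring
    rw [e] at h
    linarith
  · -- 3 2 3
    obtain ⟨a1, a2, a3⟩ := v3 a ha
    obtain ⟨b1, b2, b3⟩ := v2 b hb
    obtain ⟨c1, c2, c3⟩ := v3 c hc
    rw [a1, a2, a3, b1, b2, b3, c1, c2, c3]
    have h := tri' (a := x) (b := 1) (c := x) (by linarith) (by linarith) (by linarith) hA hB hC
    have e : ent ((1 + x - x) / 2) ((x + x - 1) / 2) ((x + 1 - x) / 2)
        = ent (1 / 2) (1 / 2) (x - 1 / 2) := by
      rw [ent_swap23]
      congr 1 <;> ring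
    rw [e] at h
    linarith
  · -- 3 3 2
    obtain ⟨a1, a2, a3⟩ := v3 a ha
    obtain ⟨b1, b2, b3⟩ := v3 b hb
    obtain ⟨c1, c2, c3⟩ := v2 c hc
    rw [a1, a2, a3, b1, b2, b3, c1, c2, c3]
    have h := tri' (a := x) (b := x) (c := 1) (by linarith) (by linarith) (by linarith) hA hB hC
    have e : ent ((x + 1 - x) / 2) ((x + 1 - x) / 2) ((x + x - 1) / 2)
        = ent (1 / 2) (1 / 2) (x - 1 / 2) := by
      congr 1 <;> ring
    rw [e] at h
    linarith
  · -- 3 3 3
    obtain ⟨a1, a2, a3⟩ := v3 a ha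
    obtain ⟨b1, b2, b3⟩ := v3 b hb
    obtain ⟨c1, c2, c3⟩ := v3 c hc
    rw [a1, a2, a3, b1, b2, b3, c1, c2, c3]
    have h := tri' (a := x) (b := x) (c := x) (by linarith) (by linarith) (by linarith) hA hB hC
    have e : ent ((x + x - x) / 2) ((x + x - x) / 2) ((x + x - x) / 2)
        = ent (x / 2) (x / 2) (x / 2) := by
      congr 1 <;> ring
    rw [e] at h
    linarith

lemma local2 {ρ : ℝ} {v : V} (hv : G.degree v = 2) (r : ℕ) :
    (∑ w ∈ G.neighborFinset v, pw G ρ v w * Real.log (F G r v w))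
      = ∑ u ∈ G.neighborFinset v, pw G ρ u v * Real.log (F G (r + 1) u v) := by
  have hcard : (G.neighborFinset v).card = 2 := by
    rw [G.card_neighborFinset_eq_degree]; exact hv
  obtain ⟨a, b, hab, hN⟩ := Finset.card_eq_two.1 hcard
  have hFa : F G (r + 1) a v = F G r v b := by
    rw [F_succ, hN]
    have : ({a, b} : Finset V).erase a = {b} := by
      ext x
      simp only [Finset.mem_erase, Finset.mem_insert, Finset.mem_singleton]
      constructor
      · rintro ⟨h1, h2⟩; tauto
      · rintro h; subst h; exact ⟨hab.symm, by simp⟩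
    rw [this, Finset.sum_singleton]
  have hFb : F G (r + 1) b v = F G r v a := by
    rw [F_succ, hN]
    have : ({a, b} : Finset V).erase b = {a} := by
      ext x
      simp only [Finset.mem_erase, Finset.mem_insert, Finset.mem_singleton]
      constructor
      · rintro ⟨h1, h2⟩; tauto
      · rintro h; subst h; exact ⟨hab, by simp⟩
    rw [this, Finset.sum_singleton]
  have v2 : ∀ u : V, pw G ρ u v = 1 ∧ pw G ρ v u = 1 := by
    intro u
    unfold pw
    simp [hv]
  rw [hN, Finset.sum_pair hab, Finset.sum_pair hab, hFa, hFb, (v2 a).1, (v2 a).2, (v2 b).1,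
    (v2 b).2]
  ring

lemma dart_swap (φ : V → V → ℝ) :
    ∑ v, ∑ w ∈ G.neighborFinset v, φ v w = ∑ v, ∑ u ∈ G.neighborFinset v, φ u v := by
  apply Finset.sum_comm'
  intro x y
  simp only [Finset.mem_univ, mem_neighborFinset, true_and, and_true]
  exact G.adj_comm x y

/-- total weight -/
noncomputable def tot (ρ : ℝ) : ℝ := ∑ v, ∑ w ∈ G.neighborFinset v, pw G ρ v w

/-- the potential -/
noncomputable def L (ρ : ℝ) (r : ℕ) : ℝ :=
  ∑ v, ∑ w ∈ G.neighborFinset v, pw G ρ v w * Real.log (F G r v w)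

lemma sum_two_le (hdeg : ∀ v, G.degree v = 2 ∨ G.degree v = 3) :
    ∑ v ∈ Finset.univ.filter (fun v => G.degree v = 3), ∑ u ∈ G.neighborFinset v, two G u
      ≤ 2 * ((Finset.univ.filter (fun v => G.degree v = 2)).card : ℝ) := by
  have h1 : ∑ v ∈ Finset.univ.filter (fun v => G.degree v = 3), ∑ u ∈ G.neighborFinset v, two G u
      ≤ ∑ v, ∑ u ∈ G.neighborFinset v, two G u := by
    apply Finset.sum_le_sum_of_subset_of_nonneg (Finset.filter_subset _ _)
    intro v _ _
    apply Finset.sum_nonneg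
    intro u _
    unfold two
    split_ifs <;> norm_num
  refine h1.trans ?_
  have h2 := dart_swap G (fun _ u => two G u)
  rw [h2]
  have h3 : ∀ v : V, ∑ _u ∈ G.neighborFinset v, two G v = if G.degree v = 2 then (2 : ℝ) else 0 := by
    intro v
    rw [Finset.sum_const, G.card_neighborFinset_eq_degree, nsmul_eq_mul]
    unfold two
    split_ifs with h
    · rw [h]; norm_num
    · ring
  rw [Finset.sum_congr rfl (fun v _ => h3 v), ← Finset.sum_filter, Finset.sum_const, nsmul_eq_mul]
  linarith

lemma step {ρ : ℝ} (hρ : ρ ^ 3 - ρ - 2 = 0) (hdeg : ∀ v, G.degree v = 2 ∨ G.degree v = 3)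
    (hhalf : 2 * (Finset.univ.filter (fun v => G.degree v = 2)).card = Fintype.card V) (r : ℕ) :
    L G ρ r + Real.log ρ * tot G ρ ≤ L G ρ (r + 1) := by
  have hR : L G ρ (r + 1)
      = ∑ v, ∑ u ∈ G.neighborFinset v, pw G ρ u v * Real.log (F G (r + 1) u v) := by
    unfold L
    exact dart_swap G (fun v w => pw G ρ v w * Real.log (F G (r + 1) v w))
  have htot : tot G ρ = ∑ v, ∑ u ∈ G.neighborFinset v, pw G ρ u v := by
    unfold tot
    exact dart_swap G (fun v w => pw G ρ v w)
  -- split by degree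
  have split : ∀ φ : V → ℝ, ∑ v, φ v = ∑ v ∈ Finset.univ.filter (fun v => G.degree v = 3), φ v
      + ∑ v ∈ Finset.univ.filter (fun v => G.degree v = 2), φ v := by
    intro φ
    rw [← Finset.sum_filter_add_sum_filter_not Finset.univ (fun v => G.degree v = 3)]
    congr 1
    apply Finset.sum_congr _ (fun _ _ => rfl)
    ext v
    simp only [Finset.mem_filter, Finset.mem_univ, true_and]
    rcases hdeg v with h | h <;> simp [h]
  have hcards : ((Finset.univ.filter (fun v => G.degree v = 3)).card : ℝ)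
      = ((Finset.univ.filter (fun v => G.degree v = 2)).card : ℝ) := by
    have h1 := split (fun _ => (1 : ℝ))
    simp only [Finset.sum_const, nsmul_eq_mul, mul_one, Finset.card_univ] at h1
    have h2 : (2 : ℝ) * ((Finset.univ.filter (fun v => G.degree v = 2)).card : ℝ)
        = (Fintype.card V : ℝ) := by exact_mod_cast hhalf
    linarith
  have h3 : ∑ v ∈ Finset.univ.filter (fun v => G.degree v = 3),
      ((∑ w ∈ G.neighborFinset v, pw G ρ v w * Real.log (F G r v w))
      + (Real.log ρ * (2 + ∑ u ∈ G.neighborFinset v, pw G ρ u v)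
          + 0.03 * (2 - ∑ u ∈ G.neighborFinset v, two G u)))
      ≤ ∑ v ∈ Finset.univ.filter (fun v => G.degree v = 3),
        ∑ u ∈ G.neighborFinset v, pw G ρ u v * Real.log (F G (r + 1) u v) := by
    apply Finset.sum_le_sum
    intro v hv
    rw [Finset.mem_filter] at hv
    exact local3 G hρ hdeg hv.2 r
  have h2 : ∑ v ∈ Finset.univ.filter (fun v => G.degree v = 2),
      (∑ w ∈ G.neighborFinset v, pw G ρ v w * Real.log (F G r v w))
      = ∑ v ∈ Finset.univ.filter (fun v => G.degree v = 2),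
        ∑ u ∈ G.neighborFinset v, pw G ρ u v * Real.log (F G (r + 1) u v) := by
    apply Finset.sum_congr rfl
    intro v hv
    rw [Finset.mem_filter] at hv
    exact local2 G hv.2 r
  have h2' : ∑ v ∈ Finset.univ.filter (fun v => G.degree v = 2),
      (∑ u ∈ G.neighborFinset v, pw G ρ u v)
      = 2 * ((Finset.univ.filter (fun v => G.degree v = 2)).card : ℝ) := by
    have : ∀ v ∈ Finset.univ.filter (fun v => G.degree v = 2),
        (∑ u ∈ G.neighborFinset v, pw G ρ u v) = 2 := by
      intro v hv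
      rw [Finset.mem_filter] at hv
      have h1 : ∀ u ∈ G.neighborFinset v, pw G ρ u v = 1 := by
        intro u _
        unfold pw
        simp [hv.2]
      rw [Finset.sum_congr rfl h1, Finset.sum_const, G.card_neighborFinset_eq_degree, hv.2]
      norm_num
    rw [Finset.sum_congr rfl this, Finset.sum_const, nsmul_eq_mul]
    ring
  have hk := sum_two_le G hdeg
  have hL : L G ρ r = ∑ v ∈ Finset.univ.filter (fun v => G.degree v = 3),
      (∑ w ∈ G.neighborFinset v, pw G ρ v w * Real.log (F G r v w))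
      + ∑ v ∈ Finset.univ.filter (fun v => G.degree v = 2),
      (∑ w ∈ G.neighborFinset v, pw G ρ v w * Real.log (F G r v w)) := by
    unfold L
    exact split _
  rw [hR, split (fun v => ∑ u ∈ G.neighborFinset v, pw G ρ u v * Real.log (F G (r + 1) u v)),
    hL, htot, split (fun v => ∑ u ∈ G.neighborFinset v, pw G ρ u v), h2', ← h2]
  rw [Finset.sum_add_distrib, Finset.sum_add_distrib, ← Finset.mul_sum, ← Finset.mul_sum,
    Finset.sum_add_distrib, Finset.sum_sub_distrib, Finset.sum_const, nsmul_eq_mul, hcards] at h3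
  set S1 := ∑ v ∈ Finset.univ.filter (fun v => G.degree v = 3),
    ∑ u ∈ G.neighborFinset v, pw G ρ u v
  set S2 := ∑ v ∈ Finset.univ.filter (fun v => G.degree v = 3),
    ∑ u ∈ G.neighborFinset v, two G u
  set N2 := ((Finset.univ.filter (fun v => G.degree v = 2)).card : ℝ)
  have e : Real.log ρ * (S1 + 2 * N2) = Real.log ρ * (N2 * 2 + S1) := by ring
  rw [e]
  linarith

theorem main {ρ : ℝ} (hρ : ρ ^ 3 - ρ - 2 = 0) (hdeg : ∀ v, G.degree v = 2 ∨ G.degree v = 3)
    (hhalf : 2 * (Finset.univ.filter (fun v => G.degree v = 2)).card = Fintype.card V)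
    [Nonempty V] (r : ℕ) (hg : ((2 * r + 2 : ℕ) : ℕ∞) ≤ G.egirth) :
    (r : ℝ) * Real.log ρ ≤ Real.log (Fintype.card V) := by
  have h1 : ∀ r : ℕ, (r : ℝ) * (Real.log ρ * tot G ρ) ≤ L G ρ r := by
    intro r
    induction r with
    | zero =>
      have : L G ρ 0 = 0 := by
        unfold L
        apply Finset.sum_eq_zero
        intro v _
        apply Finset.sum_eq_zero
        intro w _
        rw [F_zero]
        simp
      rw [this]
      simp
    | succ r ih =>
      have := step G hρ hdeg hhalf r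
      push_cast
      linarith
  obtain ⟨hx1, hx2⟩ := xw_bounds hρ
  have hpw : ∀ u v : V, 0 < pw G ρ u v := by
    intro u v
    unfold pw
    split_ifs
    · linarith
    · norm_num
  have hcardpos : 0 < Fintype.card V := Fintype.card_pos
  have h2 : L G ρ r ≤ Real.log (Fintype.card V) * tot G ρ := by
    unfold L tot
    rw [Finset.mul_sum]
    apply Finset.sum_le_sum
    intro v _
    rw [Finset.mul_sum]
    apply Finset.sum_le_sum
    intro w hw
    rw [mem_neighborFinset] at hw
    rw [mul_comm]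
    apply mul_le_mul_of_nonneg_right _ (hpw v w).le
    apply Real.log_le_log
    · exact_mod_cast F_pos G hdeg r v w
    · have h3 := F_le_S G r v w hw hg
      have h4 : (S G r v w).card ≤ Fintype.card V := Finset.card_le_univ _
      exact_mod_cast h3.trans h4
  have htot : 0 < tot G ρ := by
    unfold tot
    obtain ⟨v⟩ := ‹Nonempty V›
    have hne : (G.neighborFinset v).Nonempty := by
      rw [← Finset.card_pos, G.card_neighborFinset_eq_degree]
      rcases hdeg v with h | h <;> omega
    calc (0 : ℝ) < ∑ w ∈ G.neighborFinset v, pw G ρ v w :=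
          Finset.sum_pos (fun w _ => hpw v w) hne
      _ ≤ _ := by
          apply Finset.single_le_sum (f := fun v => ∑ w ∈ G.neighborFinset v, pw G ρ v w)
            (fun u _ => Finset.sum_nonneg (fun w _ => (hpw u w).le)) (Finset.mem_univ v)
  have h5 : ((r : ℝ) * Real.log ρ) * tot G ρ ≤ Real.log (Fintype.card V) * tot G ρ := by
    have := h1 r
    linarith
  exact le_of_mul_le_mul_right h5 htot

end graph

end Pool.Agent.H891R3.HalfCage
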