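import Mathlib

set_option autoImplicit false
open Classical

namespace Pool.Agent.H891R3.HardCore

/-- Vertices: `m` disjoint edges and `D` hubs for each side. -/
abbrev Vt (m D : ℕ) : Type := (Fin m × Bool) ⊕ (Fin D × Bool)

/-- The adjacency relation: matching edges and full joins from each hub to its side. -/
def adjR (m D : ℕ) : Vt m D → Vt m D → Prop
  | Sum.inl x, Sum.inl y => x.1 = y.1 ∧ x.2 ≠ y.2
  | Sum.inl x, Sum.inr y => x.2 = y.2
  | Sum.inr x, Sum.inl y => x.2 = y.2
  | Sum.inr _, Sum.inr _ => False

/-- The graph. -/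
def gr (m D : ℕ) : SimpleGraph (Vt m D) where
  Adj := adjR m D
  symm := by
    constructor
    rintro (⟨i, b⟩ | ⟨i, b⟩) (⟨j, c⟩ | ⟨j, c⟩) h <;> simp only [adjR] at h ⊢
    · exact ⟨h.1.symm, fun e => h.2 e.symm⟩
    · exact h.symm
    · exact h.symm
  loopless := by
    constructor
    rintro (⟨i, b⟩ | ⟨i, b⟩) h <;> simp [adjR] at h

lemma adj_ll {m D : ℕ} (x y : Fin m × Bool) :
    (gr m D).Adj (Sum.inl x) (Sum.inl y) ↔ x.1 = y.1 ∧ x.2 ≠ y.2 := Iff.rfl

lemma adj_lr {m D : ℕ} (x : Fin m × Bool) (y : Fin D × Bool) :
    (gr m D).Adj (Sum.inl x) (Sum.inr y) ↔ x.2 = y.2 := Iff.rfl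

lemma adj_rl {m D : ℕ} (x : Fin D × Bool) (y : Fin m × Bool) :
    (gr m D).Adj (Sum.inr x) (Sum.inl y) ↔ x.2 = y.2 := Iff.rfl

lemma adj_rr {m D : ℕ} (x y : Fin D × Bool) :
    (gr m D).Adj (Sum.inr x) (Sum.inr y) ↔ False := Iff.rfl

lemma cliqueFree (m D : ℕ) : (gr m D).CliqueFree 3 := by
  have hc : (gr m D).Colorable 2 := by
    have c : (gr m D).Coloring Bool :=
      SimpleGraph.Coloring.mk (fun v => match v with
        | Sum.inl x => x.2
        | Sum.inr y => !y.2) (by
          rintro (⟨i, b⟩ | ⟨i, b⟩) (⟨j, c⟩ | ⟨j, c⟩) h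
          · exact h.2
          · have h' : b = c := h
            subst h'
            simp
          · have h' : b = c := h
            subst h'
            simp
          · exact absurd h (by simp [adj_rr]))
    have := c.colorable
    simpa using this
  exact hc.cliqueFree (by norm_num)

lemma minDeg {m D : ℕ} (hD : 1 ≤ D) (hm : D ≤ m) [DecidableRel (gr m D).Adj] :
    D ≤ (gr m D).minDegree := by
  have : Nonempty (Vt m D) := ⟨Sum.inr (⟨0, hD⟩, true)⟩
  apply SimpleGraph.le_minDegree_of_forall_le_degree
  rintro (⟨i, b⟩ | ⟨i, b⟩)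
  · have h : (Finset.univ : Finset (Fin D)).image (fun j => (Sum.inr (j, b) : Vt m D))
        ⊆ (gr m D).neighborFinset (Sum.inl (i, b)) := by
      intro x hx
      simp only [Finset.mem_image, Finset.mem_univ, true_and] at hx
      obtain ⟨j, rfl⟩ := hx
      rw [SimpleGraph.mem_neighborFinset]
      exact (adj_lr _ _).2 rfl
    have h2 := Finset.card_le_card h
    rw [Finset.card_image_of_injective _ (by intro a c hac; simpa using hac)] at h2
    simpa using h2
  · have h : (Finset.univ : Finset (Fin m)).image (fun j => (Sum.inl (j, b) : Vt m D))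
        ⊆ (gr m D).neighborFinset (Sum.inr (i, b)) := by
      intro x hx
      simp only [Finset.mem_image, Finset.mem_univ, true_and] at hx
      obtain ⟨j, rfl⟩ := hx
      rw [SimpleGraph.mem_neighborFinset]
      exact (adj_rl _ _).2 rfl
    have h2 := Finset.card_le_card h
    rw [Finset.card_image_of_injective _ (by intro a c hac; simpa using hac)] at h2
    have h3 : m ≤ (gr m D).degree (Sum.inr (i, b)) := by simpa using h2
    omega

lemma indep_card_le {m D : ℕ} (s : Finset (Vt m D))
    (hs : (gr m D).IsIndepSet (s : Set (Vt m D))) : s.card ≤ m + 2 * D := by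
  let f : Vt m D → Fin m ⊕ (Fin D × Bool) := fun v => match v with
    | Sum.inl x => Sum.inl x.1
    | Sum.inr y => Sum.inr y
  have hinj : Set.InjOn f (s : Set (Vt m D)) := by
    rintro (⟨i, b⟩ | ⟨i, b⟩) hx (⟨j, c⟩ | ⟨j, c⟩) hy h
    · simp only [f, Sum.inl.injEq] at h
      subst h
      by_contra hne
      have hbc : b ≠ c := by
        intro e
        subst e
        exact hne rfl
      exact hs hx hy hne ((adj_ll _ _).2 ⟨rfl, hbc⟩)
    · simp [f] at h
    · simp [f] at h
    · simp only [f, Sum.inr.injEq] at h
      rw [h]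
  have h1 : s.card = (s.image f).card := (Finset.card_image_of_injOn hinj).symm
  have h2 : (s.image f).card ≤ Fintype.card (Fin m ⊕ (Fin D × Bool)) := Finset.card_le_univ _
  have h3 : Fintype.card (Fin m ⊕ (Fin D × Bool)) = m + 2 * D := by
    simp [mul_comm]
  omega

lemma indepNum_le (m D : ℕ) : (gr m D).indepNum ≤ m + 2 * D := by
  obtain ⟨s, hs⟩ := (gr m D).exists_isNIndepSet_indepNum
  have h := indep_card_le s hs.isIndepSet
  rw [hs.card_eq] at h
  exact h

/-- The independent sets avoiding the hubs, coded by functions. -/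
noncomputable def code (m D : ℕ) (f : Fin m → Option Bool) : Finset (Vt m D) :=
  Finset.univ.filter (fun v => match v with
    | Sum.inl x => f x.1 = some x.2
    | Sum.inr _ => False)

lemma mem_code_inl {m D : ℕ} (f : Fin m → Option Bool) (x : Fin m × Bool) :
    Sum.inl x ∈ code m D f ↔ f x.1 = some x.2 := by
  simp [code]

lemma mem_code_inr {m D : ℕ} (f : Fin m → Option Bool) (x : Fin D × Bool) :
    Sum.inr x ∈ code m D f ↔ False := by
  simp [code]

lemma code_injective (m D : ℕ) : Function.Injective (code m D) := by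
  intro f g h
  funext i
  have key : ∀ b : Bool, f i = some b ↔ g i = some b := by
    intro b
    have h1 := mem_code_inl (D := D) f (i, b)
    have h2 := mem_code_inl (D := D) g (i, b)
    rw [h] at h1
    simp only at h1 h2
    rw [← h1, ← h2]
  cases hf : f i with
  | none =>
    cases hg : g i with
    | none => rfl
    | some c =>
      have := (key c).2 hg
      rw [hf] at this
      exact this
  | some b =>
    exact ((key b).1 hf).symm

lemma code_indep {m D : ℕ} (f : Fin m → Option Bool) :
    (gr m D).IsIndepSet (code m D f : Set (Vt m D)) := by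
  rintro (⟨i, b⟩ | ⟨i, b⟩) hx (⟨j, c⟩ | ⟨j, c⟩) hy hne hadj
  · have h1 := (mem_code_inl f (i, b)).1 (by exact_mod_cast hx)
    have h2 := (mem_code_inl f (j, c)).1 (by exact_mod_cast hy)
    obtain ⟨e, e2⟩ := (adj_ll _ _).1 hadj
    simp only at h1 h2 e e2
    subst e
    rw [h1] at h2
    exact e2 (Option.some.inj h2)
  · exact (mem_code_inr f (j, c)).1 (by exact_mod_cast hy)
  · exact (mem_code_inr f (i, b)).1 (by exact_mod_cast hx)
  · exact (mem_code_inr f (i, b)).1 (by exact_mod_cast hx)

lemma exists_code {m D : ℕ} (s : Finset (Vt m D))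
    (hs : (gr m D).IsIndepSet (s : Set (Vt m D))) (hW : ∀ y : Fin D × Bool, Sum.inr y ∉ s) :
    ∃ f, code m D f = s := by
  refine ⟨fun i => if Sum.inl (i, true) ∈ s then some true else
    if Sum.inl (i, false) ∈ s then some false else none, ?_⟩
  ext v
  rcases v with ⟨i, b⟩ | y
  · rw [mem_code_inl]
    simp only
    by_cases h1 : (Sum.inl (i, true) : Vt m D) ∈ s
    · rw [if_pos h1]
      cases b with
      | true => simp [h1]
      | false =>
        have h3 : (Sum.inl (i, false) : Vt m D) ∉ s := by
          intro h2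
          have hne : (Sum.inl (i, true) : Vt m D) ≠ Sum.inl (i, false) := by simp
          have hadj : (gr m D).Adj (Sum.inl (i, true)) (Sum.inl (i, false)) :=
            (adj_ll _ _).2 ⟨rfl, by simp⟩
          exact hs (Finset.mem_coe.2 h1) (Finset.mem_coe.2 h2) hne hadj
        simp [h3]
    · rw [if_neg h1]
      by_cases h2 : (Sum.inl (i, false) : Vt m D) ∈ s
      · rw [if_pos h2]
        cases b with
        | true => simp [h1]
        | false => simp [h2]
      · rw [if_neg h2]
        cases b with
        | true => simp [h1]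
        | false => simp [h2]
  · rw [mem_code_inr]
    simp [hW y]

lemma card_code {m D : ℕ} (f : Fin m → Option Bool) :
    (code m D f).card = ∑ i, (if f i = none then 0 else 1) := by
  have h1 : code m D f = (Finset.univ.filter (fun i => ¬ f i = none)).image
      (fun i => (Sum.inl (i, (f i).getD true) : Vt m D)) := by
    ext v
    rcases v with ⟨i, b⟩ | y
    · rw [mem_code_inl]
      simp only [Finset.mem_image, Finset.mem_filter, Finset.mem_univ, true_and, Sum.inl.injEq,
        Prod.mk.injEq]
      constructor
      · intro h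
        exact ⟨i, by simp [h], rfl, by simp [h]⟩
      · rintro ⟨a, ha, rfl, hb⟩
        cases hf : f a with
        | none => exact absurd hf ha
        | some c => rw [hf] at hb; simp at hb; rw [hb]
    · rw [mem_code_inr]
      simp
  rw [h1, Finset.card_image_of_injective, Finset.card_filter]
  · apply Finset.sum_congr rfl
    intro i _
    by_cases h : f i = none <;> simp [h]
  · intro a b h
    simp only [Sum.inl.injEq, Prod.mk.injEq] at h
    exact h.1

lemma card_ne_none (m : ℕ) (i : Fin m) :
    (((Finset.univ.filter (fun f : Fin m → Option Bool => ¬ f i = none)).card : ℕ) : ℝ)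
      = (2 / 3) * 3 ^ m := by
  have h1 : Finset.univ.filter (fun f : Fin m → Option Bool => ¬ f i = none)
      = Fintype.piFinset (fun j : Fin m => if j = i then (Finset.univ.erase none) else Finset.univ) := by
    ext f
    simp only [Finset.mem_filter, Finset.mem_univ, true_and, Fintype.mem_piFinset]
    constructor
    · intro h j
      by_cases hj : j = i
      · subst hj
        simp [h]
      · simp [hj]
    · intro h
      have := h i
      simpa using this
  rw [h1, Fintype.card_piFinset]
  push_cast
  have h2 : ∀ j : Fin m, (((if j = i then ((Finset.univ : Finset (Option Bool)).erase none)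
      else Finset.univ).card : ℕ) : ℝ) = 3 * (if j = i then (2 / 3 : ℝ) else 1) := by
    intro j
    by_cases hj : j = i
    · simp [hj]
      norm_num
    · simp [hj]
  rw [Finset.prod_congr rfl (fun j _ => h2 j), Finset.prod_mul_distrib, Finset.prod_const,
    Finset.prod_ite_eq']
  simp
  ring

lemma sum_card_code (m D : ℕ) :
    (∑ f : Fin m → Option Bool, (((code m D f).card : ℕ) : ℝ)) = m * ((2 / 3) * 3 ^ m) := by
  have h1 : ∀ f : Fin m → Option Bool, (((code m D f).card : ℕ) : ℝ)
      = ∑ i, (if ¬ f i = none then (1 : ℝ) else 0) := by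
    intro f
    rw [card_code]
    push_cast
    apply Finset.sum_congr rfl
    intro i _
    by_cases h : f i = none <;> simp [h]
  rw [Finset.sum_congr rfl (fun f _ => h1 f), Finset.sum_comm]
  have h2 : ∀ i : Fin m, (∑ f : Fin m → Option Bool, (if ¬ f i = none then (1 : ℝ) else 0))
      = (2 / 3) * 3 ^ m := by
    intro i
    rw [← card_ne_none m i, Finset.card_filter]
    push_cast
    rfl
  rw [Finset.sum_congr rfl (fun i _ => h2 i)]
  simp

/-- Independent sets of the graph. -/
noncomputable def IS (m D : ℕ) : Finset (Finset (Vt m D)) :=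
  Finset.filter (fun s : Finset (Vt m D) => (gr m D).IsIndepSet (↑s : Set (Vt m D))) Finset.univ

lemma sum_ge (m D : ℕ) : (m : ℝ) * ((2 / 3) * 3 ^ m) ≤ ∑ s ∈ IS m D, ((s.card : ℕ) : ℝ) := by
  rw [← sum_card_code m D]
  have h : (Finset.univ : Finset (Fin m → Option Bool)).image (code m D) ⊆ IS m D := by
    intro s hs
    simp only [Finset.mem_image, Finset.mem_univ, true_and] at hs
    obtain ⟨f, rfl⟩ := hs
    simp only [IS, Finset.mem_filter, Finset.mem_univ, true_and]
    exact code_indep f
  calc (∑ f : Fin m → Option Bool, (((code m D f).card : ℕ) : ℝ))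
      = ∑ s ∈ (Finset.univ : Finset (Fin m → Option Bool)).image (code m D), ((s.card : ℕ) : ℝ) := by
        rw [Finset.sum_image]
        intro a _ b _ hab
        exact code_injective m D hab
    _ ≤ _ := Finset.sum_le_sum_of_subset_of_nonneg h (fun _ _ _ => Nat.cast_nonneg _)

/-- The set of all vertices on side `b` and all hubs. -/
noncomputable def side (m D : ℕ) (b : Bool) : Finset (Vt m D) :=
  (Finset.univ.image (fun i : Fin m => (Sum.inl (i, b) : Vt m D))) ∪
    (Finset.univ.image (fun y : Fin D × Bool => (Sum.inr y : Vt m D)))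

lemma side_card (m D : ℕ) (b : Bool) : (side m D b).card ≤ m + 2 * D := by
  unfold side
  refine (Finset.card_union_le _ _).trans ?_
  have h1 : (Finset.univ.image (fun i : Fin m => (Sum.inl (i, b) : Vt m D))).card ≤ m := by
    simpa using (Finset.card_image_le (s := (Finset.univ : Finset (Fin m)))
      (f := fun i : Fin m => (Sum.inl (i, b) : Vt m D)))
  have h2 : (Finset.univ.image (fun y : Fin D × Bool => (Sum.inr y : Vt m D))).card ≤ 2 * D := by
    have := (Finset.card_image_le (s := (Finset.univ : Finset (Fin D × Bool)))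
      (f := fun y : Fin D × Bool => (Sum.inr y : Vt m D)))
    have h3 : (Finset.univ : Finset (Fin D × Bool)).card = 2 * D := by
      simp [mul_comm]
    omega
  omega

lemma card_IS_le (m D : ℕ) : (IS m D).card ≤ 3 ^ m + 2 * 2 ^ (m + 2 * D) := by
  have hsub : IS m D ⊆ ((Finset.univ : Finset (Fin m → Option Bool)).image (code m D)) ∪
      ((side m D true).powerset ∪ (side m D false).powerset) := by
    intro s hs
    simp only [IS, Finset.mem_filter, Finset.mem_univ, true_and] at hs
    by_cases hW : ∀ y : Fin D × Bool, Sum.inr y ∉ s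
    · obtain ⟨f, hf⟩ := exists_code s hs hW
      rw [Finset.mem_union]
      left
      rw [Finset.mem_image]
      exact ⟨f, Finset.mem_univ _, hf⟩
    · push Not at hW
      obtain ⟨⟨j, c⟩, hy⟩ := hW
      have hside : s ⊆ side m D (!c) := by
        intro v hv
        rcases v with ⟨i, b⟩ | z
        · have hbc : b = !c := by
            by_contra hne
            have hb : b = c := by
              cases b <;> cases c <;> simp_all
            subst hb
            exact hs (Finset.mem_coe.2 hv) (Finset.mem_coe.2 hy) (by simp) ((adj_lr _ _).2 rfl)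
          subst hbc
          unfold side
          rw [Finset.mem_union]
          left
          exact Finset.mem_image_of_mem _ (Finset.mem_univ i)
        · unfold side
          rw [Finset.mem_union]
          right
          exact Finset.mem_image_of_mem _ (Finset.mem_univ z)
      rw [Finset.mem_union, Finset.mem_union]
      right
      cases c with
      | true => right; simpa using hside
      | false => left; simpa using hside
  refine (Finset.card_le_card hsub).trans ?_
  refine (Finset.card_union_le _ _).trans ?_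
  have h1 : ((Finset.univ : Finset (Fin m → Option Bool)).image (code m D)).card ≤ 3 ^ m := by
    refine Finset.card_image_le.trans ?_
    simp
  have h2 : ((side m D true).powerset ∪ (side m D false).powerset).card
      ≤ 2 * 2 ^ (m + 2 * D) := by
    refine (Finset.card_union_le _ _).trans ?_
    rw [Finset.card_powerset, Finset.card_powerset]
    have a1 : 2 ^ (side m D true).card ≤ 2 ^ (m + 2 * D) :=
      Nat.pow_le_pow_right (by norm_num) (side_card m D true)
    have a2 : 2 ^ (side m D false).card ≤ 2 ^ (m + 2 * D) :=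
      Nat.pow_le_pow_right (by norm_num) (side_card m D false)
    omega
  omega

/-- Growth: for large `m` the matching part dominates. -/
lemma exists_m (D : ℕ) : ∃ m : ℕ, D ≤ m ∧
    ((m : ℝ) + 2 * D) * (3 ^ m + 2 * 2 ^ (m + 2 * D)) < (7 / 4) * (m * ((2 / 3) * 3 ^ m)) := by
  -- pick m with 2 * 2^(m+2D) ≤ 3^m / 20 and 2 D ≤ m / 20
  have hlim : Filter.Tendsto (fun m : ℕ => ((2 : ℝ) / 3) ^ m) Filter.atTop (nhds 0) :=
    tendsto_pow_atTop_nhds_zero_of_lt_one (by norm_num) (by norm_num)
  have hpos : (0 : ℝ) < 1 / (40 * 2 ^ (2 * D)) := by positivity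
  obtain ⟨M, hM⟩ := (hlim.eventually (gt_mem_nhds hpos)).exists_forall_of_atTop
  refine ⟨M + 40 * D + 1, by omega, ?_⟩
  set m := M + 40 * D + 1 with hm
  have h1 := hM m (by omega)
  have h3 : (0 : ℝ) < 3 ^ m := by positivity
  have h2 : 2 * (2 : ℝ) ^ (m + 2 * D) ≤ 3 ^ m / 20 := by
    rw [div_pow] at h1
    rw [div_lt_div_iff₀ h3 (by positivity)] at h1
    rw [pow_add]
    nlinarith [h1]
  have h4 : (40 : ℝ) * D ≤ m := by
    rw [hm]
    push_cast
    have : (0 : ℝ) ≤ M := Nat.cast_nonneg _
    linarith
  have h5 : (0 : ℝ) < m := by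
    rw [hm]
    positivity
  have h6 : (m : ℝ) + 2 * D ≤ m * (21 / 20) := by linarith
  have h7 : (3 : ℝ) ^ m + 2 * 2 ^ (m + 2 * D) ≤ 3 ^ m * (21 / 20) := by linarith
  calc ((m : ℝ) + 2 * D) * (3 ^ m + 2 * 2 ^ (m + 2 * D))
      ≤ (m * (21 / 20)) * (3 ^ m * (21 / 20)) := by
        apply mul_le_mul h6 h7 (by positivity) (by positivity)
    _ < (7 / 4) * (m * ((2 / 3) * 3 ^ m)) := by
        have : (0 : ℝ) < m * 3 ^ m := by positivity
        nlinarith

end Pool.Agent.H891R3.HardCore
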