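import Mathlib

set_option autoImplicit false
open Classical

namespace Pool.Agent.H891R3.OddBall

open SimpleGraph

/-- Either there is a short odd cycle, or bypassing preserves the parity of the length. -/
lemma odd_cycle_or_parity {V : Type*} {G : SimpleGraph V} {u v : V} (p : G.Walk u v) :
    (∃ x, ∃ c : G.Walk x x, c.IsCycle ∧ Odd c.length ∧ c.length ≤ p.length) ∨
      (p.bypass.length % 2 = p.length % 2) := by
  induction p with
  | nil => right; rfl
  | @cons u w v ha p ih =>
    rcases ih with ⟨x, c, hc, ho, hl⟩ | hpar
    · left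
      exact ⟨x, c, hc, ho, by rw [Walk.length_cons]; omega⟩
    · by_cases hs : u ∈ p.bypass.support
      · have hb : (Walk.cons ha p).bypass = p.bypass.dropUntil u hs := by
          simp [Walk.bypass, hs]
        have hlen : (p.bypass.takeUntil u hs).length + (p.bypass.dropUntil u hs).length
            = p.bypass.length := by
          rw [← Walk.length_append, Walk.take_spec]
        have hpath : (p.bypass.takeUntil u hs).IsPath := (p.bypass_isPath).takeUntil hs
        set t := p.bypass.takeUntil u hs with ht
        rcases Nat.even_or_odd t.length with he | ho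
        · -- closed walk cons ha t has odd length
          left
          have ht0 : t.length ≠ 0 := by
            intro h0
            have := Walk.eq_of_length_eq_zero h0
            exact ha.ne this.symm
          have hcyc : (Walk.cons ha t).IsCycle := by
            rw [Walk.isCycle_iff_isPath_tail_and_le_length]
            refine ⟨by simpa using hpath, ?_⟩
            rw [Walk.length_cons]
            obtain ⟨k, hk⟩ := he
            omega
          refine ⟨u, _, hcyc, ?_, ?_⟩
          · rw [Walk.length_cons]
            exact he.add_one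
          · rw [Walk.length_cons, Walk.length_cons]
            have := p.length_bypass_le_length
            omega
        · right
          rw [hb, Walk.length_cons]
          obtain ⟨k, hk⟩ := ho
          omega
      · right
        have hb : (Walk.cons ha p).bypass = Walk.cons ha p.bypass := by
          simp [Walk.bypass, hs]
        rw [hb, Walk.length_cons, Walk.length_cons]
        omega

/-- An odd closed walk yields an odd cycle that is not longer. -/
lemma exists_odd_cycle {V : Type*} {G : SimpleGraph V} {v : V} (w : G.Walk v v)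
    (ho : Odd w.length) :
    ∃ x, ∃ c : G.Walk x x, c.IsCycle ∧ Odd c.length ∧ c.length ≤ w.length := by
  rcases odd_cycle_or_parity w with h | h
  · exact h
  · exfalso
    have h1 : w.bypass = Walk.nil := Walk.isPath_iff_eq_nil.1 w.bypass_isPath
    rw [h1] at h
    obtain ⟨k, hk⟩ := ho
    simp at h
    omega

variable {V : Type*} [Fintype V] (G : SimpleGraph V)

/-- The subgraph of `G` with all edges inside `U`. -/
def sub (U : Finset V) : SimpleGraph V where
  Adj a b := G.Adj a b ∧ a ∈ U ∧ b ∈ U
  symm := ⟨fun _ _ h => ⟨h.1.symm, h.2.2, h.2.1⟩⟩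
  loopless := ⟨fun a h => G.loopless.irrefl a h.1⟩

lemma sub_le (U : Finset V) : sub G U ≤ G := fun _ _ h => h.1

/-- distance layers -/
noncomputable def lay (U : Finset V) (v : V) (i : ℕ) : Finset V :=
  Finset.univ.filter (fun u => (sub G U).edist v u = i)

/-- balls -/
noncomputable def Ball (U : Finset V) (v : V) (i : ℕ) : Finset V :=
  Finset.univ.filter (fun u => (sub G U).edist v u ≤ i)

lemma mem_lay {U : Finset V} {v u : V} {i : ℕ} : u ∈ lay G U v i ↔ (sub G U).edist v u = i := by
  simp [lay]

lemma mem_Ball {U : Finset V} {v u : V} {i : ℕ} :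
    u ∈ Ball G U v i ↔ (sub G U).edist v u ≤ i := by
  simp [Ball]

lemma walk_end_mem {U : Finset V} {v u : V} (p : (sub G U).Walk v u) (hv : v ∈ U) : u ∈ U := by
  induction p with
  | nil => exact hv
  | cons h p ih => exact ih h.2.2

lemma Ball_subset {U : Finset V} {v : V} (hv : v ∈ U) (i : ℕ) : Ball G U v i ⊆ U := by
  intro u hu
  rw [mem_Ball] at hu
  have hne : (sub G U).edist v u ≠ ⊤ := by
    intro h
    rw [h] at hu
    exact absurd hu (by simp)
  obtain ⟨p, _⟩ := exists_walk_of_edist_ne_top hne
  exact walk_end_mem G p hv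

lemma mem_Ball_self (U : Finset V) (v : V) (i : ℕ) : v ∈ Ball G U v i := by
  rw [mem_Ball]
  simp

lemma Ball_succ {U : Finset V} {v : V} (i : ℕ) :
    Ball G U v (i + 1) = Ball G U v i ∪ lay G U v (i + 1) := by
  ext u
  rw [Finset.mem_union, mem_Ball, mem_Ball, mem_lay]
  constructor
  · intro h
    rcases lt_or_eq_of_le h with h | h
    · left
      have : (((i + 1 : ℕ) : ℕ∞)) = (i : ℕ∞) + 1 := by push_cast; rfl
      rw [this] at h
      exact Order.le_of_lt_add_one h
    · right; exact h
  · rintro (h | h)
    · exact h.trans (by exact_mod_cast Nat.le_succ i)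
    · exact h.le

lemma Ball_lay_disj {U : Finset V} {v : V} (i : ℕ) :
    Disjoint (Ball G U v i) (lay G U v (i + 1)) := by
  rw [Finset.disjoint_left]
  intro u h1 h2
  rw [mem_Ball] at h1
  rw [mem_lay] at h2
  rw [h2] at h1
  have : i + 1 ≤ i := by exact_mod_cast h1
  omega

lemma adj_edist {U : Finset V} {v a b : V} (hab : G.Adj a b) (ha : a ∈ U) (hb : b ∈ U) :
    (sub G U).edist v b ≤ (sub G U).edist v a + 1 := by
  have h1 : (sub G U).edist a b = 1 := by
    rw [edist_eq_one_iff_adj]
    exact ⟨hab, ha, hb⟩
  calc (sub G U).edist v b ≤ (sub G U).edist v a + (sub G U).edist a b := SimpleGraph.edist_triangle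
    _ = _ := by rw [h1]

/-- if there is no odd cycle of length `≤ 2 h - 1`, then no edge inside layer `i < h`. -/
lemma lay_indep {U : Finset V} {v a b : V} {h i : ℕ}
    (hG : ∀ x, ∀ c : G.Walk x x, c.IsCycle → Odd c.length → 2 * h ≤ c.length)
    (hi : i < h) (ha : (sub G U).edist v a = i) (hb : (sub G U).edist v b = i)
    (hab : G.Adj a b) : False := by
  obtain ⟨p, hp⟩ := exists_walk_of_edist_eq_coe ha
  obtain ⟨q, hq⟩ := exists_walk_of_edist_eq_coe hb
  let w : G.Walk v v := (p.mapLe (sub_le G U)).append
    (Walk.cons hab ((q.mapLe (sub_le G U)).reverse))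
  have hw : w.length = 2 * i + 1 := by
    simp only [w, Walk.length_append, Walk.length_cons, Walk.length_reverse]
    simp only [Walk.mapLe, Walk.length_map]
    omega
  obtain ⟨x, c, hc, ho, hl⟩ := exists_odd_cycle w (by rw [hw]; exact ⟨i, rfl⟩)
  have := hG x c hc ho
  omega

/-- number of vertices in a ball with nonempty layers. -/
lemma Ball_card_ge {U : Finset V} {v : V} (i : ℕ)
    (hne : ∀ j, 1 ≤ j → j ≤ i → (lay G U v j).Nonempty) : i + 1 ≤ (Ball G U v i).card := by
  induction i with
  | zero =>
    have := Finset.card_pos.2 ⟨v, mem_Ball_self G U v 0⟩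
    omega
  | succ i ih =>
    have h1 := ih (fun j h1 h2 => hne j h1 (by omega))
    rw [Ball_succ, Finset.card_union_of_disjoint (Ball_lay_disj G i)]
    have := Finset.card_pos.2 (hne (i + 1) (by omega) le_rfl)
    omega

lemma exists_radius {U : Finset V} {v : V} (hv : v ∈ U) (h : ℕ) (hh : 1 ≤ h) :
    ∃ i, i + 1 ≤ h ∧
      (lay G U v (i + 1)).card * h ^ 2 ≤ 4 * Fintype.card V * (Ball G U v (i + 1)).card := by
  by_cases hne : ∀ j, 1 ≤ j → j ≤ h → (lay G U v j).Nonempty
  · -- averaging
    have hdisj : ∀ a ∈ Finset.Icc (h - h / 2) h, ∀ b ∈ Finset.Icc (h - h / 2) h, a ≠ b →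
        Disjoint (lay G U v a) (lay G U v b) := by
      intro a _ b _ hab
      rw [Finset.disjoint_left]
      intro u h1 h2
      rw [mem_lay] at h1 h2
      rw [h1] at h2
      exact hab (by exact_mod_cast h2)
    have hsum : ∑ a ∈ Finset.Icc (h - h / 2) h, (lay G U v a).card ≤ Fintype.card V := by
      rw [← Finset.card_biUnion hdisj]
      exact Finset.card_le_univ _
    have hnonempty : (Finset.Icc (h - h / 2) h).Nonempty := by
      rw [Finset.nonempty_Icc]
      omega
    obtain ⟨a, ha, hmin⟩ := Finset.exists_min_image (Finset.Icc (h - h / 2) h)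
      (fun a => (lay G U v a).card) hnonempty
    rw [Finset.mem_Icc] at ha
    have hle : (Finset.Icc (h - h / 2) h).card * (lay G U v a).card ≤ Fintype.card V := by
      refine le_trans ?_ hsum
      rw [← smul_eq_mul]
      exact Finset.card_nsmul_le_sum _ _ _ (fun b hb => hmin b hb)
    have hcard : (Finset.Icc (h - h / 2) h).card = h / 2 + 1 := by
      rw [Nat.card_Icc]
      omega
    rw [hcard] at hle
    have hball : a + 1 ≤ (Ball G U v a).card :=
      Ball_card_ge G a (fun j h1 h2 => hne j h1 (by omega))
    refine ⟨a - 1, by omega, ?_⟩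
    have ha1 : a - 1 + 1 = a := by omega
    rw [ha1]
    have h1 : h ≤ 2 * (h / 2 + 1) := by omega
    have h2 : h ≤ 2 * (Ball G U v a).card := by omega
    calc (lay G U v a).card * h ^ 2 = ((lay G U v a).card * h) * h := by ring
      _ ≤ ((lay G U v a).card * (2 * (h / 2 + 1))) * (2 * (Ball G U v a).card) := by
          gcongr
      _ = 4 * ((h / 2 + 1) * (lay G U v a).card) * (Ball G U v a).card := by ring
      _ ≤ 4 * Fintype.card V * (Ball G U v a).card := by gcongr
  · push Not at hne
    obtain ⟨j, hj1, hj2, hj3⟩ := hne
    refine ⟨j - 1, by omega, ?_⟩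
    have : j - 1 + 1 = j := by omega
    rw [this, hj3]
    simp

/-- The main decomposition. -/
theorem main (h : ℕ) (hh : 1 ≤ h)
    (hG : ∀ x, ∀ c : G.Walk x x, c.IsCycle → Odd c.length → 2 * h ≤ c.length) :
    ∀ (n : ℕ) (U : Finset V), U.card = n → ∃ A B : Finset V, A ⊆ U ∧ B ⊆ U ∧
      G.IsIndepSet (A : Set V) ∧ G.IsIndepSet (B : Set V) ∧
      U.card * h ^ 2 ≤ (A.card + B.card) * h ^ 2 + 4 * Fintype.card V * U.card := by
  intro n
  induction n using Nat.strong_induction_on with
  | _ n ih =>
    intro U hU
    by_cases hemp : U = ∅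
    · subst hemp
      exact ⟨∅, ∅, by simp, by simp, by simp [SimpleGraph.IsIndepSet], by simp [SimpleGraph.IsIndepSet],
        by simp⟩
    · obtain ⟨v, hv⟩ := Finset.nonempty_iff_ne_empty.2 hemp
      obtain ⟨i, hi, hcard⟩ := exists_radius G hv h hh
      have hsub : Ball G U v (i + 1) ⊆ U := Ball_subset G hv (i + 1)
      have hpos : 0 < (Ball G U v (i + 1)).card :=
        Finset.card_pos.2 ⟨v, mem_Ball_self G U v (i + 1)⟩
      have hUcard : (U \ Ball G U v (i + 1)).card + (Ball G U v (i + 1)).card = U.card :=
        Finset.card_sdiff_add_card_eq_card hsub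
      obtain ⟨A', B', hA'U, hB'U, hA', hB', hineq⟩ :=
        ih (U \ Ball G U v (i + 1)).card (by omega) (U \ Ball G U v (i + 1)) rfl
      let E : Finset V := Finset.univ.filter
        (fun u => ∃ k, k ≤ i ∧ Even k ∧ (sub G U).edist v u = (k : ℕ))
      let O : Finset V := Finset.univ.filter
        (fun u => ∃ k, k ≤ i ∧ Odd k ∧ (sub G U).edist v u = (k : ℕ))
      have hEO : Ball G U v i = E ∪ O := by
        ext u
        rw [mem_Ball, Finset.mem_union]
        simp only [E, O, Finset.mem_filter, Finset.mem_univ, true_and]
        constructor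
        · intro hu
          have hne : (sub G U).edist v u ≠ ⊤ := by
            intro h
            rw [h] at hu
            exact absurd hu (by simp)
          obtain ⟨k, hk⟩ := ENat.ne_top_iff_exists.1 hne
          have hki : k ≤ i := by
            rw [← hk] at hu
            exact_mod_cast hu
          rcases Nat.even_or_odd k with he | ho
          · left; exact ⟨k, hki, he, hk.symm⟩
          · right; exact ⟨k, hki, ho, hk.symm⟩
        · rintro (⟨k, hk, _, he⟩ | ⟨k, hk, _, he⟩) <;>
          · rw [he]
            exact_mod_cast hk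
      have hEOd : Disjoint E O := by
        rw [Finset.disjoint_left]
        intro u h1 h2
        simp only [E, O, Finset.mem_filter, Finset.mem_univ, true_and] at h1 h2
        obtain ⟨k, _, hk, e1⟩ := h1
        obtain ⟨l, _, hl, e2⟩ := h2
        rw [e1] at e2
        have : k = l := by exact_mod_cast e2
        subst this
        exact (Nat.not_even_iff_odd.2 hl) hk
      have hBU : Ball G U v i ⊆ U := Ball_subset G hv i
      have hEB : E ⊆ Ball G U v i := by rw [hEO]; exact Finset.subset_union_left
      have hOB : O ⊆ Ball G U v i := by rw [hEO]; exact Finset.subset_union_right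
      -- no edges within a parity class
      have key : ∀ (P : ℕ → Prop), (∀ k l, P k → P l → (k ≤ l + 1) → (l ≤ k + 1) → k = l) →
          ∀ a b, (∃ k, k ≤ i ∧ P k ∧ (sub G U).edist v a = (k : ℕ)) →
          (∃ k, k ≤ i ∧ P k ∧ (sub G U).edist v b = (k : ℕ)) → a ∈ U → b ∈ U → ¬ G.Adj a b := by
        rintro P hP a b ⟨k, hk, hPk, hka⟩ ⟨l, hl, hPl, hlb⟩ haU hbU hab
        have h1 := adj_edist G (v := v) hab haU hbU
        have h2 := adj_edist G (v := v) hab.symm hbU haU
        rw [hka, hlb] at h1 h2
        have h1' : l ≤ k + 1 := by exact_mod_cast h1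
        have h2' : k ≤ l + 1 := by exact_mod_cast h2
        have hkl := hP k l hPk hPl h2' h1'
        subst hkl
        exact lay_indep G hG (by omega) hka hlb hab
      have hEind : ∀ a ∈ E, ∀ b ∈ E, ¬ G.Adj a b := by
        intro a ha b hb
        apply key (fun k => Even k)
        · intro k l hk hl h1 h2
          obtain ⟨x, hx⟩ := hk
          obtain ⟨y, hy⟩ := hl
          omega
        · simpa [E] using ha
        · simpa [E] using hb
        · exact hBU (hEB ha)
        · exact hBU (hEB hb)
      have hOind : ∀ a ∈ O, ∀ b ∈ O, ¬ G.Adj a b := by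
        intro a ha b hb
        apply key (fun k => Odd k)
        · intro k l hk hl h1 h2
          obtain ⟨x, hx⟩ := hk
          obtain ⟨y, hy⟩ := hl
          omega
        · simpa [O] using ha
        · simpa [O] using hb
        · exact hBU (hOB ha)
        · exact hBU (hOB hb)
      -- no edges between the ball and the outside
      have hout : ∀ a ∈ Ball G U v i, ∀ b ∈ U \ Ball G U v (i + 1), ¬ G.Adj a b := by
        intro a ha b hb hab
        rw [Finset.mem_sdiff] at hb
        apply hb.2
        rw [mem_Ball] at ha ⊢
        have := adj_edist G (v := v) hab (hBU (by rw [mem_Ball]; exact ha)) hb.1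
        refine this.trans ?_
        push_cast
        gcongr
      have indep_union : ∀ X Y : Finset V, (∀ a ∈ X, ∀ b ∈ X, ¬ G.Adj a b) →
          X ⊆ Ball G U v i → Y ⊆ U \ Ball G U v (i + 1) → G.IsIndepSet (Y : Set V) →
          G.IsIndepSet ((X ∪ Y : Finset V) : Set V) := by
        intro X Y hX hXB hYU hY a ha b hb hne hab
        rw [Finset.coe_union] at ha hb
        rcases ha with ha | ha <;> rcases hb with hb | hb
        · exact hX a (by exact_mod_cast ha) b (by exact_mod_cast hb) hab
        · exact hout a (hXB (by exact_mod_cast ha)) b (hYU (by exact_mod_cast hb)) hab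
        · exact hout b (hXB (by exact_mod_cast hb)) a (hYU (by exact_mod_cast ha)) hab.symm
        · exact hY ha hb hne hab
      have hdisj : ∀ X Y : Finset V, X ⊆ Ball G U v i → Y ⊆ U \ Ball G U v (i + 1) →
          Disjoint X Y := by
        intro X Y hX hY
        rw [Finset.disjoint_left]
        intro a ha hb
        have h1 := hX ha
        have h2 := hY hb
        rw [Finset.mem_sdiff] at h2
        apply h2.2
        rw [Ball_succ]
        exact Finset.mem_union_left _ h1
      refine ⟨E ∪ A', O ∪ B', ?_, ?_, indep_union E A' hEind hEB hA'U hA',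
        indep_union O B' hOind hOB hB'U hB', ?_⟩
      · exact Finset.union_subset (hEB.trans hBU) (hA'U.trans Finset.sdiff_subset)
      · exact Finset.union_subset (hOB.trans hBU) (hB'U.trans Finset.sdiff_subset)
      · rw [Finset.card_union_of_disjoint (hdisj E A' hEB hA'U),
          Finset.card_union_of_disjoint (hdisj O B' hOB hB'U)]
        have hBc : (Ball G U v i).card = E.card + O.card := by
          rw [hEO, Finset.card_union_of_disjoint hEOd]
        have hBc2 : (Ball G U v (i + 1)).card = (Ball G U v i).card + (lay G U v (i + 1)).card := by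
          rw [Ball_succ, Finset.card_union_of_disjoint (Ball_lay_disj G i)]
        calc U.card * h ^ 2
            = (U \ Ball G U v (i + 1)).card * h ^ 2 + (Ball G U v i).card * h ^ 2
                + (lay G U v (i + 1)).card * h ^ 2 := by
              rw [← hUcard, hBc2]; ring
          _ ≤ ((A'.card + B'.card) * h ^ 2
                + 4 * Fintype.card V * (U \ Ball G U v (i + 1)).card)
                + (Ball G U v i).card * h ^ 2
                + 4 * Fintype.card V * (Ball G U v (i + 1)).card := by
              gcongr
          _ = (E.card + A'.card + (O.card + B'.card)) * h ^ 2 + 4 * Fintype.card V * U.card := by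
              rw [← hUcard, hBc]; ring

end Pool.Agent.H891R3.OddBall
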